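import Pool.Agent.Work.MP_8d5be4_out.Interface

/-! # Block NRM: norms of conjugated automorphisms (helper47) -/

set_option autoImplicit false

open Filter

namespace Pool.AutRed

open FreeGroup (mk_toWord toWord_mk toWord_mul toWord_inv toWord toWord_eq_nil_iff isReduced_toWord)

theorem NRM_map {J J' : Type} [DecidableEq J] [DecidableEq J'] (f : J → J')
    (hf : Function.Injective f) (x : FreeGroup J) :
    toWord (FreeGroup.map f x) = (toWord x).map (fun p => (f p.1, p.2)) := by
  have h1 : FreeGroup.map f x = FreeGroup.mk ((toWord x).map (fun p => (f p.1, p.2))) := by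
    conv_lhs => rw [← mk_toWord (x := x)]
    rw [FreeGroup.map.mk]
  rw [h1, toWord_mk]
  apply FreeGroup.IsReduced.reduce_eq
  have h2 : FreeGroup.IsReduced (toWord x) := isReduced_toWord
  unfold FreeGroup.IsReduced at h2 ⊢
  rw [List.isChain_map]
  refine h2.imp ?_
  intro a b hab h
  exact hab (hf h)

/-- no cancellation -/
theorem NRM_norm {J : Type} [DecidableEq J] (C : J → Prop) (u v : FreeGroup J) (hv : v ≠ 1)
    (hC : ∀ p ∈ toWord v, C p.1) (hu : ∀ p ∈ (toWord u).getLast?, ¬ C p.1) :
    (u * v * u⁻¹).norm = 2 * u.norm + v.norm := by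
  have hr : FreeGroup.IsReduced (toWord u ++ toWord v) := by
    unfold FreeGroup.IsReduced
    rw [List.isChain_append]
    refine ⟨isReduced_toWord, isReduced_toWord, ?_⟩
    intro x hx y hy h
    exfalso
    apply hu x hx
    rw [h]
    exact hC y (List.mem_of_mem_head? hy)
  have h1 : toWord (u * v) = toWord u ++ toWord v := by
    rw [toWord_mul, hr.reduce_eq]
  have hvn : toWord v ≠ [] := by
    intro h
    exact hv (toWord_eq_nil_iff.1 h)
  have hr2 : FreeGroup.IsReduced (toWord v ++ toWord u⁻¹) := by
    unfold FreeGroup.IsReduced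
    rw [List.isChain_append]
    refine ⟨isReduced_toWord, isReduced_toWord, ?_⟩
    intro x hx y hy h
    exfalso
    rw [toWord_inv] at hy
    have hy' : (y.1, !y.2) ∈ (toWord u).getLast? := by
      unfold FreeGroup.invRev at hy
      rw [List.head?_reverse, List.getLast?_map] at hy
      simp only [Option.mem_def, Option.map_eq_some_iff] at hy
      obtain ⟨q, hq, hqy⟩ := hy
      rw [← hqy]
      simpa using hq
    apply hu _ hy'
    show C y.1
    rw [← h]
    exact hC x (List.mem_of_mem_getLast? hx)
  have hr3 : FreeGroup.IsReduced (toWord u ++ toWord v ++ toWord u⁻¹) :=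
    FreeGroup.IsReduced.append_overlap hr hr2 hvn
  have h2 : toWord (u * v * u⁻¹) = toWord u ++ toWord v ++ toWord u⁻¹ := by
    rw [toWord_mul, h1, hr3.reduce_eq]
  have h3 : (u * v * u⁻¹).norm = (toWord (u * v * u⁻¹)).length := rfl
  have h4 : (toWord u⁻¹).length = u.norm := FreeGroup.norm_inv_eq
  rw [h3, h2, List.length_append, List.length_append, h4]
  show (toWord u).length + (toWord v).length + u.norm = _
  have h5 : (toWord u).length = u.norm := rfl
  have h6 : (toWord v).length = v.norm := rfl
  omega

theorem blk_NRM : Stmt_NRM := by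
  intro A R _ _ u c ρ B h1 h2 i
  have hiA : (iA A R (c (FreeGroup.of i))).norm = (c (FreeGroup.of i)).norm := by
    show (toWord (iA A R (c (FreeGroup.of i)))).length = _
    unfold iA
    rw [NRM_map _ (Sum.inl_injective.comp Sum.inl_injective), List.length_map]
    rfl
  have hne : iA A R (c (FreeGroup.of i)) ≠ 1 := by
    intro h
    have h3 : iA A R (c (FreeGroup.of i)) = iA A R (c 1) := by rw [h, map_one, map_one]
    exact FreeGroup.of_ne_one i (c.injective (iA_injective A R h3))
  have hne2 : i2 (A ⊕ R) (ρ (FreeGroup.of true)) ≠ 1 := by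
    intro h
    have h3 : i2 (A ⊕ R) (ρ (FreeGroup.of true)) = i2 (A ⊕ R) (ρ 1) := by
      rw [h, map_one, map_one]
    exact FreeGroup.of_ne_one true (ρ.injective (i2_injective _ h3))
  -- the letters
  have hC1 : ∀ p ∈ toWord (iA A R (c (FreeGroup.of i))), p.1.isLeft = true := by
    intro p hp
    unfold iA at hp
    rw [NRM_map _ (Sum.inl_injective.comp Sum.inl_injective), List.mem_map] at hp
    obtain ⟨q, -, rfl⟩ := hp
    rfl
  have hC2 : ∀ p ∈ toWord (i2 (A ⊕ R) (ρ (FreeGroup.of true))), ¬ p.1.isLeft = true := by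
    intro p hp
    unfold i2 at hp
    rw [NRM_map _ Sum.inr_injective, List.mem_map] at hp
    obtain ⟨q, -, rfl⟩ := hp
    simp
  by_cases hu : ∀ p ∈ (toWord u).getLast?, ¬ p.1.isLeft = true
  · have h3 := NRM_norm (fun j : (A ⊕ R) ⊕ Bool => j.isLeft = true) u _ hne hC1 hu
    have h4 := h1 i
    rw [h3, hiA] at h4
    omega
  · push Not at hu
    obtain ⟨p, hp, hpl⟩ := hu
    have h3 := NRM_norm (fun j : (A ⊕ R) ⊕ Bool => ¬ j.isLeft = true) u _ hne2 hC2 (by
      intro p' hp'
      have : p' = p := by
        rw [Option.mem_def] at hp hp'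
        rw [hp] at hp'
        exact (Option.some.inj hp').symm
      rw [this]
      exact not_not.2 hpl)
    have h4 := h2 true
    rw [h3] at h4
    have h5 : iA A R (c (FreeGroup.of i)) =
        u⁻¹ * (u * iA A R (c (FreeGroup.of i)) * u⁻¹) * u := by group
    have h6 : (iA A R (c (FreeGroup.of i))).norm ≤ u.norm + B + u.norm := by
      conv_lhs => rw [h5]
      refine (FreeGroup.norm_mul_le _ _).trans ?_
      refine Nat.add_le_add_right ?_ _
      refine (FreeGroup.norm_mul_le _ _).trans ?_
      rw [FreeGroup.norm_inv_eq]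
      exact Nat.add_le_add_left (h1 i) _
    rw [hiA] at h6
    omega

end Pool.AutRed
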