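import Pool.Agent.Work.MP_8d5be4_out.Interface

/-! Block ABL: homomorphisms from `F2` to commutative groups (MP_8d5be4_al, helper65). -/

set_option autoImplicit false

open Filter

namespace Pool.AutRed

theorem ABL_key {M : Type} [CommGroup M] (f : F2 →* M) (c : F2) :
    f c = f xx ^ (ps w2 c).1 * f yy ^ (ps w2 c).2 := by
  induction c using snoc_ind with
  | h1 => simp
  | hs g j ih =>
    rw [map_mul, ih, ps_mul, ps_of]
    cases j
    · have e : f (FreeGroup.of false) = f yy := rfl
      have e1 : w2 false = (0, 1) := rfl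
      rw [e, e1, Prod.fst_add, Prod.snd_add, add_zero, zpow_add, zpow_one, mul_assoc]
    · have e : f (FreeGroup.of true) = f xx := rfl
      have e1 : w2 true = (1, 0) := rfl
      rw [e, e1, Prod.fst_add, Prod.snd_add, add_zero, zpow_add, zpow_one, mul_right_comm]
  | hi g j ih =>
    rw [map_mul, ih, ps_mul, ps_inv, ps_of, map_inv]
    cases j
    · have e : f (FreeGroup.of false) = f yy := rfl
      have e1 : w2 false = (0, 1) := rfl
      rw [e, e1, Prod.fst_add, Prod.snd_add, Prod.fst_neg, Prod.snd_neg, neg_zero, add_zero, zpow_add,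
        zpow_neg_one, mul_assoc]
    · have e : f (FreeGroup.of true) = f xx := rfl
      have e1 : w2 true = (1, 0) := rfl
      rw [e, e1, Prod.fst_add, Prod.snd_add, Prod.fst_neg, Prod.snd_neg, neg_zero, add_zero, zpow_add,
        zpow_neg_one, mul_right_comm]

theorem blk_ABL : Stmt_ABL := by
  intro M _ f c hc
  rw [ABL_key f c, hc]
  simp

end Pool.AutRed
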