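import Pool.Agent.Work.MP_8d5be4_out.Interface

set_option autoImplicit false

open Filter

namespace Pool.AutRed

theorem CNJ_sub_mono {Q : Type} {P P' : Q × F2 → Prop} (h : ∀ p, P p → P' p) {u : N Q}
    (hu : u ∈ sub P) : u ∈ sub P' :=
  Subgroup.closure_mono (Set.image_mono fun p hp => h p hp) hu

theorem CNJ_TT0 (K k : ℕ) : (TT K 0)^[k] 0 = 0 := by
  induction k with
  | zero => rfl
  | succ k ih => rw [Function.iterate_succ_apply', ih]; simp [TT]

theorem blk_CNJ (hESC : Stmt_ESC) (hRCH : Stmt_RCH) (hRLF : Stmt_RLF) (hKEP : Stmt_KEP)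
    (hCOC : Stmt_COC) : Stmt_CNJ := by
  intro K hK A R _ b q hq w hw n
  obtain ⟨k1, k2, k3, k4, k5⟩ := hKEP (A ⊕ R)
  obtain ⟨s, hs⟩ := k4 (lft w)
  set v : ℤ × ℤ := ps w2 (kap (A ⊕ R) q) with hv
  have hvq : v = ps (wG (A ⊕ R)) q := ps_kap q
  have hev : ∀ᶠ k in atTop, ∀ p ∈ s, ¬ Bx n ((TT K v)^[k] (ps w2 p.2)) := by
    rw [Filter.eventually_all_finset]
    intro p _
    refine hESC K hK v (ps w2 p.2) ?_ n
    intro h
    apply hq
    rw [← hvq]
    exact nofix h
  filter_upwards [hev] with k hk hreach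
  obtain ⟨l, hl⟩ := hCOC K A R b q k
  set g := (Phi K b q ^ k) w with hg
  set c := kap (A ⊕ R) g with hc
  set P : (A ⊕ R) × F2 → Prop := fun p => Bx n (ps w2 p.2) with hP
  have hc0 : ps w2 c = 0 := by
    rw [hc, ps_kap, hg, ps_Phi_pow, hw, CNJ_TT0]
  have hfix : keep P (lft g) = lft g := by
    apply k1
    exact CNJ_sub_mono (fun p hp => (hRCH Bool w2).1 n _ hp) (hRLF (A ⊕ R) n g hreach)
  have hD : keep P ((DD K b (kap (A ⊕ R) q) ^ k) (lft w)) = 1 := by
    have := k5 (N (A ⊕ R)) ((keep P).comp (DD K b (kap (A ⊕ R) q) ^ k).toMonoidHom) 1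
      (fun p => p ∈ s) (lft w) hs ?_
    · exact this
    · rintro ⟨a | r, d⟩ hp
      · have e1 : (FreeGroup.of ((Sum.inl a, d) : (A ⊕ R) × F2)) = emb A R d (FreeGroup.of a) := by
          simp
        have e2 : (keep P).comp (emb A R ((tau K (kap (A ⊕ R) q))^[k] d)) = 1 := by
          ext a'
          simp only [MonoidHom.comp_apply, emb_of, MonoidHom.one_apply]
          refine keep_of_neg ?_
          have := hk _ hp
          rw [hP]
          simp only
          rw [ps_tau_iter]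
          exact this
        rw [e1]
        have e3 := DFunLike.congr_fun e2 ((b ^ k) (FreeGroup.of a))
        simp only [MonoidHom.comp_apply, MonoidHom.one_apply] at e3 ⊢
        rw [← e3, ← DD_pow_emb]
        rfl
      · exact isEmptyElim r
  have hPc : (fun p : (A ⊕ R) × F2 => P (p.1, c * p.2)) = P := by
    funext p
    simp only [hP, ps_mul, hc0, zero_add]
  have hact : keep P (act (A ⊕ R) c l) = act (A ⊕ R) c (keep P l) := by
    rw [k3, hPc]
  have hfin : lft g = keep P l * (act (A ⊕ R) c (keep P l))⁻¹ := by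
    rw [← hfix, hl w, map_mul, map_mul, hD, mul_one, map_inv, hact]
  refine ⟨keep P l, ?_⟩
  conv_lhs => rw [← back_lft g, hfin]
  rw [map_mul, map_inv, back_act, ← hc]
  group

end Pool.AutRed
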