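import Pool.Agent.Work.MP_8d5be4_out.Interface

set_option autoImplicit false

namespace Pool.AutRed

theorem COC_one {A R : Type} (K : ℕ) (b : MulAut (FreeGroup A)) (q w : G (A ⊕ R)) :
    lft (Phi K b q w) = lft q * DD K b (kap (A ⊕ R) q) (lft w) *
      (act (A ⊕ R) (kap (A ⊕ R) (Phi K b q w)) (lft q))⁻¹ := by
  rw [kap_Phi]
  simp only [MulAut.mul_apply, MulAut.conj_apply, lft_mul, lft_inv, lft_hat, DD, kap_hat, map_mul,
    map_inv, mul_assoc]

theorem COC_act {A R : Type} (K : ℕ) (b : MulAut (FreeGroup A)) (e c : F2) (l : N (A ⊕ R)) :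
    DD K b e (act (A ⊕ R) c l) = act (A ⊕ R) (theta K e c) (DD K b e l) := by
  simp only [DD, MulAut.mul_apply, star_act, MulAut.conj_apply, map_mul, map_inv,
    MulAut.inv_apply_self]

theorem blk_COC : Stmt_COC := by
  intro K A R b q k
  induction k with
  | zero => exact ⟨1, fun w => by simp⟩
  | succ k ih =>
    obtain ⟨l, hl⟩ := ih
    refine ⟨lft q * DD K b (kap (A ⊕ R) q) l, fun w => ?_⟩
    have e : (Phi K b q ^ (k + 1)) w = Phi K b q ((Phi K b q ^ k) w) := by
      rw [pow_succ', MulAut.mul_apply]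
    have e2 : (DD K b (kap (A ⊕ R) q) ^ (k + 1)) (lft w) =
        DD K b (kap (A ⊕ R) q) ((DD K b (kap (A ⊕ R) q) ^ k) (lft w)) := by
      rw [pow_succ', MulAut.mul_apply]
    rw [e, COC_one, hl w, map_mul, map_mul, map_inv, COC_act, ← kap_Phi K b, e2]
    rw [map_mul (act (A ⊕ R) (kap (A ⊕ R) (Phi K b q ((Phi K b q ^ k) w)))) (lft q)]
    simp only [mul_inv_rev, mul_assoc]

end Pool.AutRed
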