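import Pool.Agent.Work.MP_8d5be4_out.Interface

set_option autoImplicit false

namespace Pool.AutRed

namespace Det

abbrev Z2 : Type := ℤ × ℤ

/-- The shift action. -/
def sh : Multiplicative Z2 →* MulAut (FreeGroup Z2) where
  toFun t := FreeGroup.freeGroupCongr (Equiv.addLeft (Multiplicative.toAdd t))
  map_one' := by
    apply MulEquiv.toMonoidHom_injective
    ext s
    simp
  map_mul' a b := by
    apply MulEquiv.toMonoidHom_injective
    ext s
    simp [add_assoc]

@[simp] theorem sh_of (t : Multiplicative Z2) (s : Z2) :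
    sh t (FreeGroup.of s) = FreeGroup.of (Multiplicative.toAdd t + s) := by
  simp [sh]

def Th : F2 →* FreeGroup Z2 ⋊[sh] Multiplicative Z2 :=
  FreeGroup.lift (fun b => if b then ⟨FreeGroup.of 0, Multiplicative.ofAdd (1, 0)⟩
    else ⟨1, Multiplicative.ofAdd (0, 1)⟩)

def lth (g : F2) : FreeGroup Z2 := (Th g).left

theorem Th_right (g : F2) : (Th g).right = posHom w2 g := by
  have : (SemidirectProduct.rightHom (φ := sh)).comp Th = posHom w2 := by
    refine FreeGroup.ext_hom _ _ ?_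
    intro b
    cases b <;> simp [Th, posHom, w2]
  exact DFunLike.congr_fun this g

theorem lth_one : lth 1 = 1 := by simp [lth]

theorem lth_mul (g h : F2) : lth (g * h) = lth g * sh (posHom w2 g) (lth h) := by
  simp [lth, Th_right]

theorem lth_inv (g : F2) : lth g⁻¹ = sh (posHom w2 g)⁻¹ (lth g)⁻¹ := by
  simp [lth, Th_right]

theorem lth_xx : lth xx = FreeGroup.of 0 := by simp [lth, Th, xx]
theorem lth_yy : lth yy = 1 := by simp [lth, Th, yy]

theorem pos_eq (g : F2) : posHom w2 g = Multiplicative.ofAdd (ps w2 g) := by simp [ps]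

theorem lth_mul' (g h : F2) : lth (g * h) = lth g * sh (Multiplicative.ofAdd (ps w2 g)) (lth h) := by
  rw [lth_mul, pos_eq]

theorem lth_inv' (g : F2) : lth g⁻¹ = sh (Multiplicative.ofAdd (-ps w2 g)) (lth g)⁻¹ := by
  rw [lth_inv, pos_eq]; rfl

def bk : FreeGroup Z2 →* F2 :=
  FreeGroup.lift (fun s => pt s * xx * (pt (s + (1, 0)))⁻¹)

theorem pt_yy (s : Z2) : pt (s + (0, 1)) = pt s * yy := by
  simp [pt, zpow_add, mul_assoc]

theorem pt_yy' (s : Z2) : pt (s - (0, 1)) = pt s * yy⁻¹ := by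
  simp [pt, zpow_sub, mul_assoc]

theorem bk_lth (g : F2) : bk (lth g) * pt (ps w2 g) = g := by
  induction g using snoc_ind with
  | h1 => simp [lth_one, pt]
  | hs g j ih =>
    cases j
    · change bk (lth (g * yy)) * pt (ps w2 (g * yy)) = g * yy
      rw [lth_mul', lth_yy, map_one, mul_one, ps_mul, ps_yy, pt_yy, ← mul_assoc, ih]
    · change bk (lth (g * xx)) * pt (ps w2 (g * xx)) = g * xx
      rw [lth_mul', lth_xx, ps_mul, ps_xx, map_mul, sh_of]
      have : bk (FreeGroup.of (Multiplicative.toAdd (Multiplicative.ofAdd (ps w2 g)) + 0)) =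
          pt (ps w2 g) * xx * (pt (ps w2 g + (1, 0)))⁻¹ := by
        simp [bk]
      rw [this]
      conv_rhs => rw [← ih]
      group
  | hi g j ih =>
    cases j
    · change bk (lth (g * yy⁻¹)) * pt (ps w2 (g * yy⁻¹)) = g * yy⁻¹
      rw [lth_mul', lth_inv', lth_yy, inv_one, map_one, map_one, mul_one, ps_mul, ps_inv, ps_yy,
        ← sub_eq_add_neg, pt_yy', ← mul_assoc, ih]
    · change bk (lth (g * xx⁻¹)) * pt (ps w2 (g * xx⁻¹)) = g * xx⁻¹
      rw [lth_mul', lth_inv', lth_xx, ps_mul, ps_inv, ps_xx, map_mul, map_inv, map_inv, sh_of,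
        sh_of]
      have : bk ((FreeGroup.of (Multiplicative.toAdd (Multiplicative.ofAdd (ps w2 g)) +
          (Multiplicative.toAdd (Multiplicative.ofAdd (-(1, 0) : Z2)) + 0)))⁻¹) =
          (pt (ps w2 g + -(1, 0)) * xx * (pt (ps w2 g))⁻¹)⁻¹ := by
        have e : ps w2 g + (-1, 0) + (1, 0) = ps w2 g := by
          ext <;> simp
        simp [bk, e]
      rw [this]
      conv_rhs => rw [← ih]
      group

theorem eq_one_of_lth {c : F2} (h0 : ps w2 c = 0) (h : lth c = 1) : c = 1 := by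
  have := bk_lth c
  rw [h, h0] at this
  simpa [pt] using this.symm

theorem lth_eps : lth eps = FreeGroup.of 0 * (FreeGroup.of (0, 1))⁻¹ := by
  have h1 : lth (xx * yy) = FreeGroup.of 0 := by
    rw [lth_mul', lth_xx, lth_yy, map_one, mul_one]
  have h2 : lth (xx * yy * xx⁻¹) = FreeGroup.of 0 * (FreeGroup.of (0, 1))⁻¹ := by
    rw [lth_mul', h1, lth_inv', lth_xx, map_inv, map_inv, sh_of, sh_of]
    congr 3
  rw [eps, lth_mul', h2, lth_inv', lth_yy, inv_one, map_one, map_one, mul_one]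

theorem lth_conj (g : F2) : lth (g * eps * g⁻¹) =
    lth g * (FreeGroup.of (ps w2 g) * (FreeGroup.of (ps w2 g + (0, 1)))⁻¹) * (lth g)⁻¹ := by
  have h1 : lth (g * eps) = lth g * (FreeGroup.of (ps w2 g) *
      (FreeGroup.of (ps w2 g + (0, 1)))⁻¹) := by
    rw [lth_mul', lth_eps, map_mul, map_inv, sh_of, sh_of]
    simp
  rw [lth_mul', h1, lth_inv', ps_mul, ps_eps, add_zero]
  congr 1
  have : sh (Multiplicative.ofAdd (ps w2 g)) (sh (Multiplicative.ofAdd (-ps w2 g)) (lth g)⁻¹) =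
      (sh (Multiplicative.ofAdd (ps w2 g)) * sh (Multiplicative.ofAdd (-ps w2 g))) (lth g)⁻¹ := rfl
  rw [this, ← map_mul, ← ofAdd_add, add_neg_cancel, ofAdd_zero, map_one, MulAut.one_apply]

/-- collapse outside the box -/
noncomputable def ev (m : ℕ) : FreeGroup Z2 →* FreeGroup Z2 :=
  FreeGroup.lift (fun s => FreeGroup.of
    (s.1, if |s.1| ≤ (m : ℤ) then max (-(m : ℤ)) (min ((m : ℤ) + 1) s.2) else 0))

theorem ev_in {m : ℕ} {s : Z2} (h : Bx m s) : ev m (FreeGroup.of s) = FreeGroup.of s := by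
  obtain ⟨a, b⟩ := s
  obtain ⟨h1, h2⟩ := h
  simp only at h1 h2
  have h3 := abs_le.mp h2
  have : max (-(m : ℤ)) (min ((m : ℤ) + 1) b) = b := by omega
  simp [ev, h1, this]

theorem ev_out {m : ℕ} {s : Z2} (h : ¬ Bx m s) :
    ev m (FreeGroup.of s) = ev m (FreeGroup.of (s + (0, 1))) := by
  obtain ⟨a, b⟩ := s
  by_cases h1 : |a| ≤ (m : ℤ)
  · have h2 : ¬ |b| ≤ (m : ℤ) := fun h2 => h ⟨h1, h2⟩
    have h3 : b < -(m : ℤ) ∨ (m : ℤ) < b := by
      by_contra h4
      push Not at h4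
      exact h2 (abs_le.mpr h4)
    have : max (-(m : ℤ)) (min ((m : ℤ) + 1) b) = max (-(m : ℤ)) (min ((m : ℤ) + 1) (b + 1)) := by
      omega
    simp [ev, h1, this]
  · simp [ev, h1]

theorem fin_supp (u : FreeGroup Z2) :
    ∃ m : ℕ, u ∈ Subgroup.closure (FreeGroup.of '' {s | Bx m s}) := by
  have mono : ∀ {m n : ℕ}, m ≤ n → Subgroup.closure (FreeGroup.of '' {s | Bx m s}) ≤
      Subgroup.closure (FreeGroup.of '' {s : Z2 | Bx n s}) := by
    intro m n h
    exact Subgroup.closure_mono (Set.image_mono (fun s hs => bx_mono h hs))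
  induction u using snoc_ind with
  | h1 => exact ⟨0, Subgroup.one_mem _⟩
  | hs g s ih =>
    obtain ⟨m, hm⟩ := ih
    obtain ⟨n, hn⟩ := bx_exists s
    refine ⟨max m n, Subgroup.mul_mem _ (mono (le_max_left _ _) hm) ?_⟩
    exact Subgroup.subset_closure ⟨s, bx_mono (le_max_right _ _) hn, rfl⟩
  | hi g s ih =>
    obtain ⟨m, hm⟩ := ih
    obtain ⟨n, hn⟩ := bx_exists s
    refine ⟨max m n, Subgroup.mul_mem _ (mono (le_max_left _ _) hm) (Subgroup.inv_mem _ ?_)⟩
    exact Subgroup.subset_closure ⟨s, bx_mono (le_max_right _ _) hn, rfl⟩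

theorem ev_fix {m : ℕ} {u : FreeGroup Z2}
    (h : u ∈ Subgroup.closure (FreeGroup.of '' {s | Bx m s})) : ev m u = u := by
  induction h using Subgroup.closure_induction with
  | mem x hx =>
    obtain ⟨s, hs, rfl⟩ := hx
    exact ev_in hs
  | one => simp
  | mul x y _ _ hx hy => rw [map_mul, hx, hy]
  | inv x _ hx => rw [map_inv, hx]

end Det

open Det in
theorem blk_DET : Stmt_DET := by
  intro c h0 hc
  obtain ⟨m, hm⟩ := fin_supp (lth c)
  refine ⟨m, fun U hU hcl => hc (eq_one_of_lth h0 ?_)⟩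
  have key : ps w2 c = 0 ∧ ev m (lth c) = 1 := by
    unfold Cl at hcl
    clear hc h0 hm
    induction hcl using Subgroup.closure_induction with
    | mem x hx =>
      obtain ⟨g, hg, rfl⟩ := hx
      refine ⟨by simp, ?_⟩
      rw [lth_conj, map_mul, map_mul, map_mul, map_inv, map_inv, ev_out (hU _ hg)]
      simp
    | one => simp [lth_one]
    | mul x y _ _ hx hy =>
      refine ⟨by simp [hx.1, hy.1], ?_⟩
      rw [lth_mul', hx.1, ofAdd_zero, map_one, MulAut.one_apply, map_mul, hx.2, hy.2, mul_one]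
    | inv x _ hx =>
      refine ⟨by simp [hx.1], ?_⟩
      rw [lth_inv', hx.1, neg_zero, ofAdd_zero, map_one, MulAut.one_apply, map_inv, hx.2, inv_one]
  rw [← ev_fix hm, key.2]

end Pool.AutRed
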