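import Pool.Agent.Work.MP_8d5be4_out.Interface

/-!
Row MP_8d5be4_al, block ESC: orbits of the affine maps leave every box.
-/

set_option autoImplicit false

open Filter

namespace Pool.AutRed

/-- The linear form. -/
def ESC_l (lam : ℝ) (s : ℤ × ℤ) : ℝ := lam * s.1 + s.2

theorem ESC_l_TT {K : ℕ} {lam : ℝ} (hq : lam ^ 2 = K * lam + 1) (s : ℤ × ℤ) :
    ESC_l lam (TT K 0 s) = lam * ESC_l lam s := by
  simp only [ESC_l, TT, Prod.fst_zero, Prod.snd_zero, add_zero]
  push_cast
  linear_combination (-(s.1 : ℝ)) * hq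

theorem ESC_l_iter {K : ℕ} {lam : ℝ} (hq : lam ^ 2 = K * lam + 1) (s : ℤ × ℤ) (k : ℕ) :
    ESC_l lam ((TT K 0)^[k] s) = lam ^ k * ESC_l lam s := by
  induction k with
  | zero => simp
  | succ k ih => rw [Function.iterate_succ_apply', ESC_l_TT hq, ih, pow_succ]; ring

theorem ESC_diff (K : ℕ) (v s : ℤ × ℤ) (k : ℕ) :
    (TT K v)^[k + 1] s - (TT K v)^[k] s = (TT K 0)^[k] (TT K v s - s) := by
  induction k with
  | zero => simp
  | succ k ih =>
    rw [Function.iterate_succ_apply' (TT K 0), ← ih, Function.iterate_succ_apply' (TT K v) (k + 1),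
      Function.iterate_succ_apply' (TT K v) k]
    ext
    · simp only [TT, Prod.fst_sub, Prod.snd_sub, Prod.fst_zero, Prod.snd_zero, add_zero]
      ring
    · simp only [TT, Prod.fst_sub, Prod.snd_sub, Prod.fst_zero, Prod.snd_zero, add_zero]
      ring

theorem blk_ESC (hIRR : Stmt_IRR) : Stmt_ESC := by
  intro K hK v s hne n
  obtain ⟨lam, hlam, hq, hirr⟩ := hIRR K hK
  have hKr : (1 : ℝ) ≤ K := by exact_mod_cast hK
  have hl1 : 1 < lam := by linarith
  have hD : TT K v s - s ≠ 0 := sub_ne_zero.mpr hne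
  have hlD : ESC_l lam (TT K v s - s) ≠ 0 := fun h => hD (hirr _ h)
  have hinj : Function.Injective (fun k : ℕ => (TT K v)^[k] s) := by
    intro i j hij
    have hij' : (TT K v)^[i] s = (TT K v)^[j] s := hij
    have h1 : (TT K v)^[i + 1] s = (TT K v)^[j + 1] s := by
      rw [Function.iterate_succ_apply', Function.iterate_succ_apply', hij']
    have h2 := ESC_diff K v s i
    have h3 := ESC_diff K v s j
    rw [hij', h1, h3] at h2
    have h4 := congrArg (ESC_l lam) h2
    rw [ESC_l_iter hq, ESC_l_iter hq] at h4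
    have h5 : lam ^ j = lam ^ i := mul_right_cancel₀ hlD h4
    exact ((pow_right_injective₀ (by linarith) hl1.ne') h5).symm
  have ht : Tendsto (fun k : ℕ => (TT K v)^[k] s) atTop cofinite := by
    rw [← Nat.cofinite_eq_atTop]
    exact hinj.tendsto_cofinite
  have hf := (bx_finite n).compl_mem_cofinite
  exact ht.eventually hf

end Pool.AutRed
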