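import Pool.Agent.Work.MP_8d5be4_out.Interface

/-!
Row MP_8d5be4_al, block EXA: the norm of `hat K a`.
-/

set_option autoImplicit false

namespace Pool.AutRed

theorem EXA_map {J J' : Type} [DecidableEq J] [DecidableEq J'] (f : J → J') (w : FreeGroup J) :
    (FreeGroup.map f w).norm ≤ w.norm := by
  have h : FreeGroup.map f w = FreeGroup.mk (w.toWord.map fun x => (f x.1, x.2)) := by
    conv_lhs => rw [← FreeGroup.mk_toWord (x := w)]
    rw [FreeGroup.map.mk]
  rw [h]
  refine FreeGroup.norm_mk_le.trans ?_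
  rw [List.length_map, FreeGroup.norm]

theorem EXA_red {J : Type} {a b : J} (hab : a ≠ b) (n : ℕ) :
    FreeGroup.IsReduced ((a, true) :: (List.replicate n (a, true) ++ [(b, true), (a, false)])) := by
  induction n with
  | zero =>
    rw [List.replicate_zero, List.nil_append, FreeGroup.isReduced_cons_cons,
      FreeGroup.isReduced_cons_cons]
    exact ⟨fun h => absurd h hab, fun h => absurd h.symm hab, FreeGroup.IsReduced.singleton⟩
  | succ n ih =>
    rw [List.replicate_succ, List.cons_append, FreeGroup.isReduced_cons_cons]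
    exact ⟨fun _ => rfl, ih⟩

theorem EXA_x {J : Type} [DecidableEq J] {a b : J} (hab : a ≠ b) (n : ℕ) :
    (FreeGroup.of a ^ (n + 1) * FreeGroup.of b * (FreeGroup.of a)⁻¹).norm = n + 3 := by
  have h : FreeGroup.of a ^ (n + 1) * FreeGroup.of b * (FreeGroup.of a)⁻¹ =
      FreeGroup.mk ((a, true) :: (List.replicate n (a, true) ++ [(b, true), (a, false)])) := by
    have h1 : FreeGroup.of a ^ (n + 1) = FreeGroup.mk (List.replicate (n + 1) (a, true)) := by
      rw [← FreeGroup.toWord_of_pow, FreeGroup.mk_toWord]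
    rw [h1, FreeGroup.of, FreeGroup.of, FreeGroup.inv_mk, FreeGroup.mul_mk, FreeGroup.mul_mk,
      List.replicate_succ]
    simp [FreeGroup.invRev]
  rw [h, FreeGroup.norm, FreeGroup.toWord_mk, (EXA_red hab n).reduce_eq]
  simp

theorem blk_EXA : Stmt_EXA := by
  intro K A R _ _ _ _ a ha
  have hx : (hat (R := R) K a (FreeGroup.of (Sum.inr true))).norm = K + 3 := by
    have h : (FreeGroup.of (Sum.inr true) : G (A ⊕ R)) = i2 (A ⊕ R) xx := by
      rw [xx, i2_of]
    rw [h, hat_i2, psi_xx, map_mul, map_mul, map_inv, map_pow, xx, yy, i2_of, i2_of]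
    exact EXA_x (by simp) K
  have hy : (hat (R := R) K a (FreeGroup.of (Sum.inr false))).norm = 1 := by
    have h : (FreeGroup.of (Sum.inr false) : G (A ⊕ R)) = i2 (A ⊕ R) yy := by
      rw [yy, i2_of]
    rw [h, hat_i2, psi_yy, xx, i2_of]
    exact FreeGroup.norm_of _
  have hr : ∀ r : R, (hat (R := R) K a (FreeGroup.of (Sum.inl (Sum.inr r)))).norm ≤ 3 := by
    intro r
    rw [hat_r, xx, i2_of]
    refine (FreeGroup.norm_mul_le _ _).trans ?_
    have h1 := FreeGroup.norm_mul_le (FreeGroup.of (Sum.inr true) : G (A ⊕ R))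
      (FreeGroup.of (Sum.inl (Sum.inr r)))
    rw [FreeGroup.norm_of, FreeGroup.norm_of] at h1
    rw [FreeGroup.norm_inv_eq, FreeGroup.norm_of]
    omega
  have hA : ∀ i : A, (hat (R := R) K a (FreeGroup.of (Sum.inl (Sum.inl i)))).norm ≤ K := by
    intro i
    rw [← iA_of, hat_iA]
    refine (EXA_map _ _).trans ?_
    exact (Finset.le_sup (f := fun j => (FreeGroup.toWord (a (FreeGroup.of j))).length)
      (Finset.mem_univ i)).trans ha
  apply le_antisymm
  · refine Finset.sup_le ?_
    rintro ((i | r) | c) _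
    · exact (hA i).trans (by omega)
    · exact (hr r).trans (by omega)
    · cases c
      · exact (le_of_eq hy).trans (by omega)
      · exact le_of_eq hx
  · rw [← hx]
    exact Finset.le_sup (f := fun j => (FreeGroup.toWord (hat (R := R) K a (FreeGroup.of j))).length)
      (Finset.mem_univ (Sum.inr true : (A ⊕ R) ⊕ Bool))

end Pool.AutRed
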