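import Pool.Agent.Work.MP_8d5be4_out.Interface

/-! Block FIX of the project MP_8d5be4_out (typed by helper1). -/

set_option autoImplicit false

open Filter

namespace Pool.AutRed

namespace FIX

theorem keep_emb_pos {A R : Type} (P : (A ⊕ R) × F2 → Prop) (c : F2)
    (hc : ∀ a : A, P (Sum.inl a, c)) (h : FreeGroup A) :
    keep P (emb A R c h) = emb A R c h := by
  have : (keep P).comp (emb A R c) = emb A R c := by
    ext a
    simp [keep_of_pos (hc a)]
  exact DFunLike.congr_fun this h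

theorem keep_emb_neg {A R : Type} (P : (A ⊕ R) × F2 → Prop) (c : F2)
    (hc : ∀ a : A, ¬ P (Sum.inl a, c)) (h : FreeGroup A) :
    keep P (emb A R c h) = 1 := by
  have : (keep P).comp (emb A R c) = 1 := by
    ext a
    simp [keep_of_neg (hc a)]
  exact DFunLike.congr_fun this h

theorem keep_DD {A R : Type} [IsEmpty R] (K : ℕ) (b : MulAut (FreeGroup A)) (e : F2) (n k : ℕ)
    (v : N (A ⊕ R)) :
    keep (fun p : (A ⊕ R) × F2 => Reach w2 n p.2) ((DD (R := R) K b e ^ k) v) =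
      (DD (R := R) K b e ^ k)
        (keep (fun p : (A ⊕ R) × F2 => Reach w2 n ((tau K e)^[k] p.2)) v) := by
  have : (keep (fun p : (A ⊕ R) × F2 => Reach w2 n p.2)).comp
        (DD (R := R) K b e ^ k).toMonoidHom =
      (DD (R := R) K b e ^ k).toMonoidHom.comp
        (keep (fun p : (A ⊕ R) × F2 => Reach w2 n ((tau K e)^[k] p.2))) := by
    refine nAR_ext ?_ (fun _ r => isEmptyElim r)
    intro c h
    simp only [MonoidHom.comp_apply, MulEquiv.toMonoidHom_eq_coe, MonoidHom.coe_coe]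
    rw [DD_pow_emb]
    by_cases hr : Reach w2 n ((tau K e)^[k] c)
    · rw [keep_emb_pos _ _ (fun _ => hr), keep_emb_pos _ _ (fun _ => hr), DD_pow_emb]
    · rw [keep_emb_neg _ _ (fun _ => hr), keep_emb_neg _ _ (fun _ => hr), map_one]
  exact DFunLike.congr_fun this v

theorem tau_iter_diff (K : ℕ) (e : F2) (k : ℕ) : ∀ x y : F2,
    ((tau K e)^[k] x)⁻¹ * (tau K e)^[k] y = (psi K ^ k) (x⁻¹ * y) := by
  induction k with
  | zero => intro x y; simp
  | succ k ih =>
    intro x y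
    rw [Function.iterate_succ_apply, Function.iterate_succ_apply, ih, pow_succ, MulAut.mul_apply]
    congr 1
    simp [tau, mul_assoc]

theorem not_both (hLL : Stmt_LL) (hRCH : Stmt_RCH) {K : ℕ} (hK : 2 ≤ K) (e : F2) (n : ℕ)
    (hno : ∀ c : F2, tau K e c ≠ c) (c : F2) :
    ∀ᶠ k in atTop, ¬ (Reach w2 n ((tau K e)^[k] c) ∧ Reach w2 n ((tau K e)^[k + 1] c)) := by
  have hd : ¬ ((K : ℤ) ∣ 1 + ((ps w2 (1 : F2)).1 + (ps w2 (1 : F2)).2)) := by
    simp only [ps_one, Prod.fst_zero, Prod.snd_zero, add_zero]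
    intro h
    have := Int.le_of_dvd one_pos h
    omega
  have hc : c⁻¹ * tau K e c ≠ 1 := by
    intro h
    exact hno c (by rw [inv_mul_eq_one] at h; exact h.symm)
  filter_upwards [hLL K (by omega) 1 hd _ hc (2 * n)] with k hk
  rintro ⟨h1, h2⟩
  apply hk
  have h3 := (hRCH Bool w2).2.2.2.1 n _ _ h1 h2
  rw [Function.iterate_succ_apply, tau_iter_diff] at h3
  have h4 : theta K 1 = psi K := by simp [theta]
  rw [h4]
  exact h3

end FIX

open FIX in
theorem blk_FIX (hLL : Stmt_LL) (hRCH : Stmt_RCH) (hRLF : Stmt_RLF) (hKEP : Stmt_KEP)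
    (hCOC : Stmt_COC) : Stmt_FIX := by
  intro K hK A R _ b q w n hw hkw hreach
  by_contra hcon
  push_neg at hcon
  obtain ⟨kep1, kep2, kep3, kep4, kep5⟩ := hKEP (A ⊕ R)
  set e := kap (A ⊕ R) q with he
  set u := lft w with hu
  have hu1 : u ≠ 1 := by
    intro h
    apply hw
    rw [← eq_back_of_kap hkw, ← hu, h, map_one]
  -- first conjugacy
  have key : ∀ k : ℕ, ∃ g : N (A ⊕ R),
      keep (fun p : (A ⊕ R) × F2 => Reach w2 n ((tau K e)^[k] p.2)) u = g * u * g⁻¹ := by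
    intro k
    obtain ⟨l, hl⟩ := hCOC K A R b q k
    have h1 := hl w
    have h2 : kap (A ⊕ R) ((Phi K b q ^ k) w) = 1 := by
      rw [kap_Phi_pow, hkw, map_one]
    rw [h2, map_one, MulAut.one_apply, ← he, ← hu] at h1
    have h3 := kep1 _ _ (hRLF (A ⊕ R) n _ (hreach k))
    rw [h1, map_mul, map_mul, map_inv, keep_DD] at h3
    set DK := DD (R := R) K b e ^ k with hDK
    set kl := keep (fun p : (A ⊕ R) × F2 => Reach w2 n p.2) l with hkl
    refine ⟨DK⁻¹ (kl⁻¹ * l), ?_⟩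
    apply DK.injective
    rw [map_mul, map_mul, map_inv, MulAut.apply_inv_self]
    have h4 : DK (keep (fun p : (A ⊕ R) × F2 => Reach w2 n ((tau K e)^[k] p.2)) u) =
        kl⁻¹ * (l * DK u * l⁻¹) * kl := by
      rw [← h3]; group
    rw [h4]
    group
  -- second conjugacy
  have key2 : ∀ k : ℕ, ∃ g : N (A ⊕ R),
      ((keep (fun p : (A ⊕ R) × F2 => Reach w2 n ((tau K e)^[k + 1] p.2))).comp
        (keep (fun p : (A ⊕ R) × F2 => Reach w2 n ((tau K e)^[k] p.2)))) u = g * u * g⁻¹ := by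
    intro k
    obtain ⟨g0, hg0⟩ := key k
    obtain ⟨g1, hg1⟩ := key (k + 1)
    refine ⟨keep (fun p : (A ⊕ R) × F2 => Reach w2 n ((tau K e)^[k + 1] p.2)) g0 * g1, ?_⟩
    rw [MonoidHom.comp_apply, hg0, map_mul, map_mul, map_inv, hg1]
    group
  obtain ⟨s, hs⟩ := kep4 u
  have hev : ∀ᶠ k in atTop, ∀ p ∈ s,
      ¬ (Reach w2 n ((tau K e)^[k] p.2) ∧ Reach w2 n ((tau K e)^[k + 1] p.2)) := by
    rw [Filter.eventually_all_finset]
    intro p _
    exact not_both hLL hRCH hK e n hcon p.2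
  obtain ⟨k, hk⟩ := hev.exists
  obtain ⟨g, hg⟩ := key2 k
  have h0 := kep5 (N (A ⊕ R))
    ((keep (fun p : (A ⊕ R) × F2 => Reach w2 n ((tau K e)^[k + 1] p.2))).comp
        (keep (fun p : (A ⊕ R) × F2 => Reach w2 n ((tau K e)^[k] p.2)))) 1
    (fun p => p ∈ s) u hs (by
      intro p hp
      rw [MonoidHom.comp_apply, MonoidHom.one_apply]
      by_cases h1 : Reach w2 n ((tau K e)^[k] p.2)
      · rw [keep_of_pos (P := fun p : (A ⊕ R) × F2 => Reach w2 n ((tau K e)^[k] p.2)) h1]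
        have h2 : ¬ Reach w2 n ((tau K e)^[k + 1] p.2) := fun h2 => hk p hp ⟨h1, h2⟩
        rw [keep_of_neg (P := fun p : (A ⊕ R) × F2 => Reach w2 n ((tau K e)^[k + 1] p.2)) h2]
      · rw [keep_of_neg (P := fun p : (A ⊕ R) × F2 => Reach w2 n ((tau K e)^[k] p.2)) h1, map_one])
  rw [hg, MonoidHom.one_apply] at h0
  apply hu1
  have h5 : u = g⁻¹ * (g * u * g⁻¹) * g := by group
  rw [h5, h0]
  group

end Pool.AutRed
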