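import Pool.Agent.Work.MP_8d5be4_out.Interface

/-! # Block FXE (helper87) -/

set_option autoImplicit false

namespace Pool.AutRed

theorem blk_FXE (hSUP : Stmt_SUP) : Stmt_FXE := by
  intro Q c u hc hu
  obtain ⟨hfin, -, -, hact, hemp⟩ := hSUP Q
  apply hemp
  by_contra hne
  obtain ⟨x, hx⟩ := Set.nonempty_iff_ne_empty.2 hne
  have hstep : ∀ y, y ∈ Su u → c⁻¹ * y ∈ Su u := by
    intro y hy
    have h1 := (hact c u y).1
    rw [hu] at h1
    exact h1 hy
  have hpow : ∀ k : ℕ, (c⁻¹) ^ k * x ∈ Su u := by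
    intro k
    induction k with
    | zero => simpa using hx
    | succ k ih =>
      have := hstep _ ih
      rwa [← mul_assoc, ← pow_succ'] at this
  have hinj : Function.Injective (fun k : ℕ => (c⁻¹) ^ k * x) := by
    intro m n hmn
    have h1 : (c⁻¹) ^ m = (c⁻¹) ^ n := mul_right_cancel hmn
    have h2 : c⁻¹ ≠ 1 := inv_ne_one.2 hc
    exact IsMulTorsionFree.pow_right_injective h2 h1
  exact Set.infinite_range_of_injective hinj
    ((hfin u).subset (by rintro _ ⟨k, rfl⟩; exact hpow k))

end Pool.AutRed
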