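import Pool.Agent.Work.MP_8d5be4_out.Interface

/-!
Row MP_8d5be4_al, block IRR: the real number `lam` is irrational.
-/

set_option autoImplicit false

namespace Pool.AutRed

theorem IRR_int {K : ℤ} (hK : 1 ≤ K) {a b : ℤ} (h : b ^ 2 = (K ^ 2 + 4) * a ^ 2) : a = 0 := by
  by_contra ha
  have hsq : a ^ 2 ∣ b ^ 2 := ⟨K ^ 2 + 4, by rw [h]; ring⟩
  have hab : a ∣ b := (Int.pow_dvd_pow_iff (by norm_num)).mp hsq
  obtain ⟨m, rfl⟩ := hab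
  have ha2 : a ^ 2 ≠ 0 := pow_ne_zero 2 ha
  have hm : m ^ 2 = K ^ 2 + 4 := by
    apply mul_left_cancel₀ ha2
    linarith [h, mul_pow a m 2]
  have h1 : |m| ^ 2 = K ^ 2 + 4 := by rw [sq_abs]; exact hm
  have h0 : 0 ≤ |m| := abs_nonneg m
  have h2 : K < |m| := by nlinarith
  have h3 : |m| < K + 2 := by nlinarith
  have h4 : |m| = K + 1 := by omega
  rw [h4] at h1
  have h5 : 2 * K + 1 = 4 := by nlinarith
  omega

theorem blk_IRR : Stmt_IRR := by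
  intro K hK
  have hKr : (1 : ℝ) ≤ K := by exact_mod_cast hK
  have hs0 : 0 ≤ Real.sqrt ((K : ℝ) ^ 2 + 4) := Real.sqrt_nonneg _
  have hs : Real.sqrt ((K : ℝ) ^ 2 + 4) ^ 2 = (K : ℝ) ^ 2 + 4 := Real.sq_sqrt (by positivity)
  have hlt : (K : ℝ) < Real.sqrt ((K : ℝ) ^ 2 + 4) := by
    rw [Real.lt_sqrt (by positivity)]; linarith
  have hq : (((K : ℝ) + Real.sqrt ((K : ℝ) ^ 2 + 4)) / 2) ^ 2 =
      K * (((K : ℝ) + Real.sqrt ((K : ℝ) ^ 2 + 4)) / 2) + 1 := by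
    nlinarith
  refine ⟨((K : ℝ) + Real.sqrt ((K : ℝ) ^ 2 + 4)) / 2, by linarith, hq, ?_⟩
  intro s h
  generalize ((K : ℝ) + Real.sqrt ((K : ℝ) ^ 2 + 4)) / 2 = lam at h hq
  have e1 : ((s.2 : ℝ)) = - (lam * s.1) := by linarith
  have e2 : ((2 * s.2 + K * s.1 : ℤ) : ℝ) ^ 2 = (((K : ℤ) ^ 2 + 4) * s.1 ^ 2 : ℤ) := by
    push_cast
    rw [e1]
    have : (2 * -(lam * (s.1 : ℝ)) + K * s.1) ^ 2 =
      (4 * (lam ^ 2 - K * lam) + K ^ 2) * (s.1 : ℝ) ^ 2 := by ring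
    rw [this, hq]
    ring
  have e3 : (2 * s.2 + K * s.1 : ℤ) ^ 2 = ((K : ℤ) ^ 2 + 4) * s.1 ^ 2 := by exact_mod_cast e2
  have hs1 : s.1 = 0 := IRR_int (by exact_mod_cast hK) e3
  have hs2 : (s.2 : ℝ) = 0 := by rw [e1, hs1]; simp
  ext
  · exact hs1
  · exact_mod_cast hs2

end Pool.AutRed
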