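import Pool.Agent.Work.MP_8d5be4_out.Interface

/-!
Row MP_8d5be4_al, block KEP: the projections `keep P`.
-/

set_option autoImplicit false

namespace Pool.AutRed

theorem KEP_agree {Q : Type} {H : Type} [Group H] (f g : N Q →* H) (P : Q × F2 → Prop) (u : N Q)
    (hu : u ∈ sub P) (h : ∀ p, P p → f (FreeGroup.of p) = g (FreeGroup.of p)) : f u = g u := by
  have hle : sub P ≤ f.eqLocus g := by
    rw [sub, Subgroup.closure_le]
    rintro _ ⟨p, hp, rfl⟩
    exact h p hp
  exact hle hu

theorem KEP_hom {Q : Type} {f g : N Q →* N Q} (h : ∀ p, f (FreeGroup.of p) = g (FreeGroup.of p))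
    (u : N Q) : f u = g u := by
  have : f = g := FreeGroup.ext_hom _ _ h
  rw [this]

theorem KEP_mono {Q : Type} {P P' : Q × F2 → Prop} (h : ∀ p, P p → P' p) : sub P ≤ sub P' := by
  rw [sub, sub]
  exact Subgroup.closure_mono (Set.image_mono (fun p hp => h p hp))

theorem KEP_of {Q : Type} {P : Q × F2 → Prop} {p : Q × F2} (hp : P p) :
    FreeGroup.of p ∈ sub P := Subgroup.subset_closure ⟨p, hp, rfl⟩

theorem blk_KEP : Stmt_KEP := by
  intro Q
  refine ⟨?_, ?_, ?_, ?_, ?_⟩
  · intro P u hu
    exact KEP_agree (keep P) (MonoidHom.id _) P u hu (fun p hp => keep_of_pos hp)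
  · intro P u
    induction u using snoc_ind with
    | h1 => rw [map_one]; exact one_mem _
    | hs g p ih =>
      rw [map_mul]
      refine mul_mem ih ?_
      by_cases hp : P p
      · rw [keep_of_pos hp]; exact KEP_of hp
      · rw [keep_of_neg hp]; exact one_mem _
    | hi g p ih =>
      rw [map_mul, map_inv]
      refine mul_mem ih (inv_mem ?_)
      by_cases hp : P p
      · rw [keep_of_pos hp]; exact KEP_of hp
      · rw [keep_of_neg hp]; exact one_mem _
  · intro P c u
    refine KEP_hom (f := (keep P).comp (act Q c).toMonoidHom)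
      (g := (act Q c).toMonoidHom.comp (keep (fun p => P (p.1, c * p.2)))) ?_ u
    rintro ⟨q, d⟩
    simp only [MonoidHom.comp_apply, MulEquiv.toMonoidHom_eq_coe, MonoidHom.coe_coe, act_of]
    by_cases hp : P (q, c * d)
    · rw [keep_of_pos hp, keep_of_pos (P := fun p => P (p.1, c * p.2)) (p := (q, d)) hp, act_of]
    · rw [keep_of_neg hp, keep_of_neg (P := fun p => P (p.1, c * p.2)) (p := (q, d)) hp, map_one]
  · intro u
    classical
    induction u using snoc_ind with
    | h1 => exact ⟨∅, one_mem _⟩
    | hs g p ih =>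
      obtain ⟨s, hs⟩ := ih
      refine ⟨insert p s, mul_mem (KEP_mono (fun q hq => Finset.mem_insert_of_mem hq) hs)
        (KEP_of (Finset.mem_insert_self p s))⟩
    | hi g p ih =>
      obtain ⟨s, hs⟩ := ih
      refine ⟨insert p s, mul_mem (KEP_mono (fun q hq => Finset.mem_insert_of_mem hq) hs)
        (inv_mem (KEP_of (Finset.mem_insert_self p s)))⟩
  · intro H _ f g P u hu h
    exact KEP_agree f g P u hu h

end Pool.AutRed
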