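import Pool.Agent.Work.MP_8d5be4_out.Interface

set_option autoImplicit false

open Filter

namespace Pool.AutRed

theorem KW_pow {A R : Type} {K : ℕ} {a b : MulAut (FreeGroup A)} {γ : MulAut (G (A ⊕ R))}
    {g : G (A ⊕ R)} (hγ : γ⁻¹ * hat K a * γ = Phi K b g) (h : FreeGroup A) (k : ℕ) :
    (Phi K b g ^ k) (γ⁻¹ (iA A R h)) = γ⁻¹ (iA A R ((a ^ k) h)) := by
  induction k with
  | zero => simp
  | succ k ih =>
    rw [pow_succ', MulAut.mul_apply, ih, ← hγ, MulAut.mul_apply, MulAut.mul_apply,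
      MulAut.apply_inv_self, hat_iA, pow_succ' a, MulAut.mul_apply]

open Classical in
/-- the exponent sum of one letter -/
noncomputable def KW_lam {A R : Type} (i : A) : G (A ⊕ R) →* Multiplicative ℤ :=
  FreeGroup.lift (fun j => if j = Sum.inl (Sum.inl i) then Multiplicative.ofAdd 1 else 1)

theorem KW_lam_of {A R : Type} (i : A) :
    KW_lam i (iA A R (FreeGroup.of i)) = Multiplicative.ofAdd 1 := by
  simp [KW_lam]

theorem blk_KW (hWH : Stmt_WH) (hCNJ : Stmt_CNJ) (hABL : Stmt_ABL) (hLL : Stmt_LL)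
    (hRKA : Stmt_RKA) : Stmt_KW := by
  intro K hK A R _ _ _ _ a b ha γ g hγ h
  obtain ⟨hps, n, hn⟩ := hWH K (by omega) A R a b ha γ g hγ
  have hnd : ¬ ((K : ℤ) ∣ 1 + ((ps w2 (kap (A ⊕ R) g)).1 + (ps w2 (kap (A ⊕ R) g)).2)) := by
    intro hdvd
    rw [ps_kap] at hdvd
    have hnd' : ¬ ((K : ℤ) ∣ (ps (wG (A ⊕ R)) g).1 + (ps (wG (A ⊕ R)) g).2) := by
      intro h2
      have h1 : (K : ℤ) ∣ 1 := (dvd_add_left h2).1 hdvd
      have := Int.le_of_dvd one_pos h1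
      omega
    obtain ⟨i⟩ := (inferInstance : Nonempty A)
    have hw0 : ps (wG (A ⊕ R)) (γ⁻¹ (iA A R (FreeGroup.of i))) = 0 := hps _
    obtain ⟨k, hk⟩ := (hCNJ K (by omega) A R b g hnd' _ hw0 n).exists
    have hPk := KW_pow hγ (FreeGroup.of i) k
    obtain ⟨z, hz⟩ := hk (by rw [hPk]; exact hn _)
    have he : ps w2 (kap (A ⊕ R) ((Phi K b g ^ k) (γ⁻¹ (iA A R (FreeGroup.of i))))) = 0 := by
      rw [ps_kap, hPk]
      exact hps _
    set mu : G (A ⊕ R) →* Multiplicative ℤ :=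
      ((KW_lam i).comp γ.toMonoidHom).comp ((Phi K b g ^ k)⁻¹ : MulAut (G (A ⊕ R))).toMonoidHom
      with hmu
    have h1 : mu ((Phi K b g ^ k) (γ⁻¹ (iA A R (FreeGroup.of i)))) = Multiplicative.ofAdd 1 := by
      rw [← KW_lam_of (R := R) i]
      simp only [hmu, MonoidHom.comp_apply]
      congr 1
      have e1 : ((Phi K b g ^ k)⁻¹ : MulAut (G (A ⊕ R))).toMonoidHom
          ((Phi K b g ^ k) (γ⁻¹ (iA A R (FreeGroup.of i)))) = γ⁻¹ (iA A R (FreeGroup.of i)) :=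
        MulAut.inv_apply_self _ _ _
      rw [e1]
      exact MulAut.apply_inv_self _ _ _
    have h2 := hABL (Multiplicative ℤ) (mu.comp (i2 (A ⊕ R))) _ he
    rw [hz, map_mul, map_mul, map_inv, mul_comm (mu (back (A ⊕ R) z)), mul_assoc,
      mul_inv_cancel, mul_one] at h1
    rw [MonoidHom.comp_apply] at h2
    rw [h2] at h1
    exact absurd (congrArg Multiplicative.toAdd h1) (by simp)
  by_contra hne
  obtain ⟨k, hk⟩ := (hLL K (by omega) (kap (A ⊕ R) g) hnd _ hne n).exists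
  apply hk
  rw [← kap_Phi_pow, KW_pow hγ]
  exact hRKA _ _ _ (hn _)

end Pool.AutRed
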