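import Pool.Agent.Work.MP_8d5be4_out.Interface

/-! # Block LEN (helper96) -/

set_option autoImplicit false

namespace Pool.AutRed

theorem LEN_lt (b e : Bool) : lt b e = FreeGroup.mk [(b, e)] := by
  unfold lt
  cases e
  · simp [FreeGroup.of, FreeGroup.inv_mk, FreeGroup.invRev]
  · rfl

theorem LEN_word (b e : Bool) (c : F2) : (lt b e * c).toWord =
    List.casesOn c.toWord [(b, e)] fun hd tl =>
      if b = hd.1 ∧ e = !hd.2 then tl else (b, e) :: hd :: tl := by
  rw [LEN_lt]
  conv_lhs => rw [← FreeGroup.mk_toWord (x := c)]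
  rw [FreeGroup.mul_mk, FreeGroup.toWord_mk, List.singleton_append, FreeGroup.reduce.cons,
    FreeGroup.reduce_toWord]

theorem blk_LEN : Stmt_LEN := by
  intro b e c
  have h1 := LEN_word b e c
  unfold FreeGroup.norm
  rcases hc : c.toWord with _ | ⟨hd, tl⟩
  · rw [hc] at h1
    simp only at h1
    rw [h1]
    refine ⟨Or.inr rfl, ?_⟩
    intro b' e' _ h
    simp at h
  · rw [hc] at h1
    simp only at h1
    by_cases hh : b = hd.1 ∧ e = !hd.2
    · rw [if_pos hh] at h1
      rw [h1]
      refine ⟨Or.inl rfl, ?_⟩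
      intro b' e' hne _
      have h2 := LEN_word b' e' c
      rw [hc] at h2
      simp only at h2
      have h3 : ¬ (b' = hd.1 ∧ e' = !hd.2) := by
        rintro ⟨h4, h5⟩
        exact hne (by rw [h4, h5, hh.1, hh.2])
      rw [if_neg h3] at h2
      rw [h2]
      rfl
    · rw [if_neg hh] at h1
      rw [h1]
      refine ⟨Or.inr rfl, ?_⟩
      intro b' e' _ h
      simp at h

end Pool.AutRed
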