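import Pool.Agent.Work.MP_8d5be4_out.Interface

/-! Block LL: Lemma L. -/

set_option autoImplicit false

open Filter

namespace Pool.AutRed

theorem blk_LL (hE : Stmt_ESC) (hR : Stmt_RCH) (hRCL : Stmt_RCL) (hP : Stmt_PUL)
    (hD : Stmt_DET) : Stmt_LL := by
  intro K hK d hd c hc n
  by_contra hcon
  rw [not_eventually] at hcon
  have hcon' : ∃ᶠ k in atTop, Reach w2 n ((theta K d ^ k) c) :=
    hcon.mono fun k hk => not_not.mp hk
  have hps : ps w2 c = 0 := by
    by_contra h0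
    have h1 : TT K 0 (ps w2 c) ≠ ps w2 c := fun h => h0 (fix0 hK h)
    have h2 := hE K hK 0 (ps w2 c) h1 n
    obtain ⟨k, hk1, hk2⟩ := (hcon'.and_eventually h2).exists
    exact hk2 (by rw [← ps_theta_pow K d]; exact (hR Bool w2).1 n _ hk1)
  have hTT0 : ∀ k, (TT K 0)^[k] (0 : ℤ × ℤ) = 0 := by
    intro k
    induction k with
    | zero => rfl
    | succ k ih =>
      rw [Function.iterate_succ_apply', ih]
      ext <;> simp [TT]
  have hpsk : ∀ k, ps w2 ((theta K d ^ k) c) = 0 := by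
    intro k
    rw [ps_theta_pow, hps, hTT0]
  obtain ⟨m, hm⟩ := hD c hps hc
  have hnofix : ∀ s, TT K (ps w2 d + ((K : ℤ) + 1, 0)) s ≠ s := by
    intro s hs
    apply hd
    have h := nofix hs
    simp only [Prod.fst_add, Prod.snd_add, add_zero] at h
    have h2 : (1 + ((ps w2 d).1 + (ps w2 d).2) : ℤ) =
        ((ps w2 d).1 + ((K : ℤ) + 1) + (ps w2 d).2) - K := by ring
    rw [h2]
    exact dvd_sub h (dvd_refl _)
  have hev : ∀ᶠ k in atTop, ∀ s ∈ {s : ℤ × ℤ | Bx m s},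
      ¬ Bx n ((TT K (ps w2 d + ((K : ℤ) + 1, 0)))^[k] s) := by
    rw [Filter.eventually_all_finite (bx_finite m)]
    intro s _
    exact hE K hK _ s (hnofix s) n
  obtain ⟨k, hk1, hk2⟩ := (hcon'.and_eventually hev).exists
  refine hm (fun s => Bx n ((TT K (ps w2 d + ((K : ℤ) + 1, 0)))^[k] s))
    (fun s hs hb => hk2 s hb hs) ?_
  exact hP K d (Bx n) k c (hRCL n _ hk1 (hpsk k))

end Pool.AutRed
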