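import Pool.Agent.Work.MP_8d5be4_out.Interface

set_option autoImplicit false

open Filter

namespace Pool.AutRed

namespace Mai

theorem hat_pow_kap {A R : Type} (K : ℕ) (b : MulAut (FreeGroup A)) (g : G (A ⊕ R)) (k : ℕ) :
    kap (A ⊕ R) ((hat K b ^ k) g) = (psi K ^ k) (kap (A ⊕ R) g) := by
  induction k with
  | zero => simp
  | succ k ih => rw [pow_succ', MulAut.mul_apply, kap_hat, ih, pow_succ', MulAut.mul_apply]

theorem lft_hat_pow {A R : Type} (K : ℕ) (b : MulAut (FreeGroup A)) (g : G (A ⊕ R)) (k : ℕ) :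
    lft ((hat K b ^ k) g) = (star K b ^ k) (lft g) := by
  induction k with
  | zero => simp
  | succ k ih => rw [pow_succ', MulAut.mul_apply, lft_hat, ih, pow_succ', MulAut.mul_apply]

theorem star_pow_emb {A R : Type} (K : ℕ) (b : MulAut (FreeGroup A)) (c : F2) (h : FreeGroup A)
    (k : ℕ) : (star (R := R) K b ^ k) (emb A R c h) = emb A R ((psi K ^ k) c) ((b ^ k) h) := by
  induction k with
  | zero => simp
  | succ k ih =>
    rw [pow_succ', MulAut.mul_apply, ih, star_emb, pow_succ', MulAut.mul_apply, pow_succ' b,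
      MulAut.mul_apply]

/-- the recursion for the letters of `R` -/
def nx (K : ℕ) (c : F2) : F2 := psi K c * xx

theorem star_pow_r {A R : Type} (K : ℕ) (b : MulAut (FreeGroup A)) (c : F2) (r : R) (k : ℕ) :
    (star K b ^ k) (FreeGroup.of (Sum.inr r, c) : N (A ⊕ R)) =
      FreeGroup.of (Sum.inr r, (nx K)^[k] c) := by
  induction k with
  | zero => simp
  | succ k ih =>
    rw [pow_succ', MulAut.mul_apply, ih, star_r, Function.iterate_succ_apply']
    rfl

theorem ps_nx (K : ℕ) (c : F2) (k : ℕ) :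
    ps w2 ((nx K)^[k] c) = (TT K (1, 0))^[k] (ps w2 c) := by
  induction k with
  | zero => simp
  | succ k ih =>
    rw [Function.iterate_succ_apply', Function.iterate_succ_apply', ← ih, nx, ps_mul, ps_psi]
    ext <;> simp [TT]

theorem keep_emb_pos {A R : Type} {P : (A ⊕ R) × F2 → Prop} {c : F2} (h : ∀ a, P (Sum.inl a, c))
    (x : FreeGroup A) : keep P (emb A R c x) = emb A R c x := by
  have : (keep P).comp (emb A R c) = emb A R c := by
    ext a
    simp [keep_of_pos (h a)]
  exact DFunLike.congr_fun this x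

theorem keep_emb_neg {A R : Type} {P : (A ⊕ R) × F2 → Prop} {c : F2} (h : ∀ a, ¬ P (Sum.inl a, c))
    (x : FreeGroup A) : keep P (emb A R c x) = 1 := by
  have : (keep P).comp (emb A R c) = 1 := by
    ext a
    simp [keep_of_neg (h a)]
  exact DFunLike.congr_fun this x

theorem not_dvd_one {K : ℕ} (hK : 2 ≤ K) : ¬ ((K : ℤ) ∣ 1) := by
  intro h
  have h1 : K ∣ 1 := by exact_mod_cast h
  have := Nat.le_of_dvd one_pos h1
  omega

end Mai

open Mai in
theorem blk_MAI (hLL : Stmt_LL) (hESC : Stmt_ESC) (hRCH : Stmt_RCH) (hRKA : Stmt_RKA)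
    (hRLF : Stmt_RLF) (hKEP : Stmt_KEP) : Stmt_MAI := by
  intro K hK A R b g n hr
  have hK1 : 1 ≤ K := by omega
  have hLL1 : ∀ c : F2, c ≠ 1 → ∀ᶠ k in atTop, ¬ Reach w2 n ((psi K ^ k) c) := by
    intro c hc
    have h := hLL K hK1 1 (by simpa using not_dvd_one hK) c hc n
    simpa [theta] using h
  -- the projection is trivial
  have hkap : kap (A ⊕ R) g = 1 := by
    by_contra hne
    obtain ⟨k, hk⟩ := (hLL1 _ hne).exists
    apply hk
    rw [← hat_pow_kap]
    exact hRKA _ _ _ (hr k)
  obtain ⟨s, hs⟩ := (hKEP (A ⊕ R)).2.2.2.1 (lft g)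
  set u := lft g with hu
  let P0 : (A ⊕ R) × F2 → Prop := fun p => ∃ a, p = (Sum.inl a, 1)
  let PR : (A ⊕ R) × F2 → Prop := fun p => Reach w2 n p.2
  have hgen : ∀ p ∈ s, ∀ᶠ k in atTop,
      keep PR ((star K b ^ k) (FreeGroup.of p)) = (star K b ^ k) (keep P0 (FreeGroup.of p)) := by
    rintro ⟨a | r, c⟩ -
    · by_cases hc : c = 1
      · subst hc
        refine Eventually.of_forall (fun k => ?_)
        rw [keep_of_pos (P := P0) ⟨a, rfl⟩, ← emb_of, star_pow_emb, map_one]
        exact keep_emb_pos (fun a => Relation.ReflTransGen.refl) _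
      · filter_upwards [hLL1 c hc] with k hk
        have : ¬ P0 (Sum.inl a, c) := by
          rintro ⟨a', ha'⟩
          exact hc (congrArg Prod.snd ha')
        rw [keep_of_neg this, map_one, ← emb_of, star_pow_emb]
        exact keep_emb_neg (fun a => hk) _
    · have hT : TT K (1, 0) (ps w2 c) ≠ ps w2 c := by
        intro h
        have := nofix h
        simp only [add_zero] at this
        exact not_dvd_one hK this
      filter_upwards [hESC K hK1 (1, 0) (ps w2 c) hT n] with k hk
      have : ¬ P0 (Sum.inr r, c) := by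
        rintro ⟨a', ha'⟩
        have := congrArg Prod.fst ha'
        simp at this
      rw [keep_of_neg this, map_one, star_pow_r]
      apply keep_of_neg
      intro hreach
      apply hk
      rw [← ps_nx]
      exact (hRCH Bool w2).1 _ _ hreach
  obtain ⟨k, hk⟩ := ((Filter.eventually_all_finset s).mpr hgen).exists
  have h1 : keep PR ((star K b ^ k) u) = (star K b ^ k) u := by
    apply (hKEP (A ⊕ R)).1
    rw [hu, ← lft_hat_pow]
    exact hRLF _ _ _ (hr k)
  have h2 : keep PR ((star K b ^ k) u) = (star K b ^ k) (keep P0 u) :=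
    (hKEP (A ⊕ R)).2.2.2.2 _ ((keep PR).comp (star K b ^ k).toMonoidHom)
      ((star K b ^ k).toMonoidHom.comp (keep P0)) _ u hs hk
  have h3 : u = keep P0 u := (star K b ^ k).injective (h1.symm.trans h2)
  have h4 : u ∈ sub P0 := by
    rw [h3]
    exact (hKEP (A ⊕ R)).2.1 _ _
  have h5 : back (A ⊕ R) u = g := eq_back_of_kap hkap
  have h6 : sub P0 ≤ Subgroup.comap (back (A ⊕ R)) (iA A R).range := by
    refine (Subgroup.closure_le _).mpr ?_
    rintro _ ⟨p, ⟨a, rfl⟩, rfl⟩
    refine ⟨FreeGroup.of a, ?_⟩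
    simp
  obtain ⟨h, hh⟩ := h6 h4
  exact ⟨h, by rw [hh, h5]⟩

end Pool.AutRed
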