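import Pool.Agent.Work.MP_8d5be4_out.Interface

/-! Block POS: growth (helper46). -/

set_option autoImplicit false
set_option linter.unusedSectionVars false

namespace Pool.AutRed

section POS
variable {A : Type} [Fintype A] [DecidableEq A]

theorem POS_letter (b : MulAut (FreeGroup A)) (K : ℕ) (hb : ∀ a, (b (FreeGroup.of a)).norm ≤ K)
    (x : A × Bool) : (b (FreeGroup.mk [x])).norm ≤ K := by
  obtain ⟨a, c⟩ := x
  cases c
  · have : (FreeGroup.mk [(a, false)] : FreeGroup A) = (FreeGroup.of a)⁻¹ := by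
      simp [FreeGroup.of, FreeGroup.inv_mk, FreeGroup.invRev]
    rw [this, map_inv, FreeGroup.norm_inv_eq]
    exact hb a
  · exact hb a

theorem POS_list (b : MulAut (FreeGroup A)) (K : ℕ) (hb : ∀ a, (b (FreeGroup.of a)).norm ≤ K)
    (L : List (A × Bool)) : (b (FreeGroup.mk L)).norm ≤ K * L.length := by
  induction L with
  | nil =>
    have : (FreeGroup.mk [] : FreeGroup A) = 1 := rfl
    rw [this, map_one, FreeGroup.norm_one]
    exact Nat.zero_le _
  | cons x L ih =>
    have : (FreeGroup.mk (x :: L) : FreeGroup A) = FreeGroup.mk [x] * FreeGroup.mk L := by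
      rw [FreeGroup.mul_mk]; rfl
    rw [this, map_mul, List.length_cons]
    refine (FreeGroup.norm_mul_le _ _).trans ?_
    have := POS_letter b K hb x
    rw [Nat.mul_add, Nat.mul_one]
    omega

theorem POS_norm (b : MulAut (FreeGroup A)) (K : ℕ) (hb : ∀ a, (b (FreeGroup.of a)).norm ≤ K)
    (h : FreeGroup A) : (b h).norm ≤ K * h.norm := by
  have := POS_list b K hb h.toWord
  rwa [FreeGroup.mk_toWord] at this

theorem POS_pow (b : MulAut (FreeGroup A)) (K : ℕ) (hb : ∀ a, (b (FreeGroup.of a)).norm ≤ K)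
    (h : FreeGroup A) (k : ℕ) : ((b ^ k) h).norm ≤ K ^ k * h.norm := by
  induction k with
  | zero => simp
  | succ k ih =>
    rw [pow_succ', MulAut.mul_apply]
    refine (POS_norm b K hb _).trans ?_
    rw [pow_succ', Nat.mul_assoc]
    exact Nat.mul_le_mul_left _ ih

/-- the linear form -/
def POS_l (lam : ℝ) (s : ℤ × ℤ) : ℝ := lam * s.1 + s.2

theorem POS_add (lam : ℝ) (s t : ℤ × ℤ) : POS_l lam (s + t) = POS_l lam s + POS_l lam t := by
  unfold POS_l
  rw [Prod.fst_add, Prod.snd_add]
  push_cast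
  ring

theorem POS_neg (lam : ℝ) (s : ℤ × ℤ) : POS_l lam (-s) = - POS_l lam s := by
  unfold POS_l
  rw [Prod.fst_neg, Prod.snd_neg]
  push_cast
  ring

theorem POS_zero (lam : ℝ) : POS_l lam 0 = 0 := by
  unfold POS_l
  simp

theorem POS_bd (lam : ℝ) (P : FreeGroup A →* Multiplicative (ℤ × ℤ)) (L : List (A × Bool)) :
    |POS_l lam (Multiplicative.toAdd (P (FreeGroup.mk L)))| ≤
      (∑ a, |POS_l lam (Multiplicative.toAdd (P (FreeGroup.of a)))|) * L.length := by
  induction L with
  | nil =>
    have : (FreeGroup.mk [] : FreeGroup A) = 1 := rfl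
    rw [this, map_one, toAdd_one, POS_zero, abs_zero, List.length_nil, Nat.cast_zero, mul_zero]
  | cons x L ih =>
    have e : (FreeGroup.mk (x :: L) : FreeGroup A) = FreeGroup.mk [x] * FreeGroup.mk L := by
      rw [FreeGroup.mul_mk]; rfl
    rw [e, map_mul, toAdd_mul, POS_add, List.length_cons]
    have h1 : |POS_l lam (Multiplicative.toAdd (P (FreeGroup.mk [x])))| ≤
        ∑ a, |POS_l lam (Multiplicative.toAdd (P (FreeGroup.of a)))| := by
      obtain ⟨a, c⟩ := x
      have h2 : |POS_l lam (Multiplicative.toAdd (P (FreeGroup.of a)))| ≤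
          ∑ a, |POS_l lam (Multiplicative.toAdd (P (FreeGroup.of a)))| :=
        Finset.single_le_sum
          (f := fun a => |POS_l lam (Multiplicative.toAdd (P (FreeGroup.of a)))|)
          (fun _ _ => abs_nonneg _) (Finset.mem_univ a)
      cases c
      · have : (FreeGroup.mk [(a, false)] : FreeGroup A) = (FreeGroup.of a)⁻¹ := by
          simp [FreeGroup.of, FreeGroup.inv_mk, FreeGroup.invRev]
        rw [this, map_inv, toAdd_inv, POS_neg, abs_neg]
        exact h2
      · exact h2
    refine (abs_add_le _ _).trans ?_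
    push_cast
    linarith

end POS

theorem blk_POS (hI : Stmt_IRR) : Stmt_POS := by
  intro K hK A _ _ b hb P hP h
  obtain ⟨lam, hlam, hlam2, hirr⟩ := hI K hK
  have hKR : (1 : ℝ) ≤ K := by exact_mod_cast hK
  have hK0 : (0 : ℝ) < K := by linarith
  have hl0 : 0 < lam := by linarith
  have hT : ∀ s : ℤ × ℤ, POS_l lam (TT K 0 s) = lam * POS_l lam s := by
    intro s
    unfold POS_l TT
    push_cast
    simp only [Prod.fst_zero, Prod.snd_zero, Int.cast_zero, add_zero]
    linear_combination (-(s.1 : ℝ)) * hlam2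
  have hk : ∀ k : ℕ, POS_l lam (Multiplicative.toAdd (P ((b ^ k) h))) =
      lam ^ k * POS_l lam (Multiplicative.toAdd (P h)) := by
    intro k
    induction k with
    | zero => simp
    | succ k ih =>
      rw [pow_succ', MulAut.mul_apply, hP, hT, ih, pow_succ']
      ring
  set C := ∑ a, |POS_l lam (Multiplicative.toAdd (P (FreeGroup.of a)))| with hC
  have hC0 : 0 ≤ C := Finset.sum_nonneg fun _ _ => abs_nonneg _
  have hb2 : ∀ k : ℕ, lam ^ k * |POS_l lam (Multiplicative.toAdd (P h))| ≤
      C * ((K : ℝ) ^ k * h.norm) := by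
    intro k
    have h1 := POS_bd lam P ((b ^ k) h).toWord
    rw [FreeGroup.mk_toWord, hk, abs_mul, abs_of_pos (pow_pos hl0 k)] at h1
    refine h1.trans (mul_le_mul_of_nonneg_left ?_ hC0)
    exact_mod_cast POS_pow b K hb h k
  have hz : POS_l lam (Multiplicative.toAdd (P h)) = 0 := by
    by_contra hne
    have hpos : 0 < |POS_l lam (Multiplicative.toAdd (P h))| := abs_pos.2 hne
    have hr : 1 < lam / K := by rw [one_lt_div hK0]; exact hlam
    obtain ⟨k, hk'⟩ := pow_unbounded_of_one_lt
      (C * h.norm / |POS_l lam (Multiplicative.toAdd (P h))|) hr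
    rw [div_pow, div_lt_div_iff₀ hpos (pow_pos hK0 k)] at hk'
    have := hb2 k
    nlinarith
  have hq := hirr _ hz
  apply Multiplicative.toAdd.injective
  rw [hq]
  rfl

end Pool.AutRed
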