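import Pool.Agent.Work.MP_8d5be4_out.Interface

/-! Block PUL: pull back of the subgroups `Cl U` under `theta` (typed by helper62). -/

set_option autoImplicit false

namespace Pool.AutRed

theorem PUL_step (K : ℕ) (d : F2) (U : ℤ × ℤ → Prop) (c : F2)
    (h : theta K d c ∈ Cl U) :
    c ∈ Cl (fun s => U (TT K (ps w2 d + ((K : ℤ) + 1, 0)) s)) := by
  have hle : Cl U ≤ (Cl (fun s => U (TT K (ps w2 d + ((K : ℤ) + 1, 0)) s))).map
      (theta K d).toMonoidHom := by
    unfold Cl
    rw [Subgroup.closure_le]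
    rintro _ ⟨g, hg, rfl⟩
    obtain ⟨g', h1⟩ : ∃ g' : F2, psi K g' = d⁻¹ * g * (xx ^ (K + 1))⁻¹ :=
      (psi K).surjective _
    refine ⟨g' * eps⁻¹ * g'⁻¹, ?_, ?_⟩
    · have hps : ps w2 g = TT K (ps w2 d + ((K : ℤ) + 1, 0)) (ps w2 g') := by
        have h2 := ps_psi K g'
        rw [h1] at h2
        simp only [ps_mul, ps_inv, ps_pow, ps_xx] at h2
        have h3 := congrArg Prod.fst h2
        have h4 := congrArg Prod.snd h2
        simp [TT] at h3 h4
        ext
        · simp [TT]
          linarith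
        · simp [TT]
          linarith
      have hmem : g' * eps * g'⁻¹ ∈ Subgroup.closure
          {c | ∃ g : F2, U (TT K (ps w2 d + ((K : ℤ) + 1, 0)) (ps w2 g)) ∧
            c = g * eps * g⁻¹} :=
        Subgroup.subset_closure ⟨g', by rw [← hps]; exact hg, rfl⟩
      have := Subgroup.inv_mem _ hmem
      have e : (g' * eps * g'⁻¹)⁻¹ = g' * eps⁻¹ * g'⁻¹ := by group
      rw [e] at this
      exact this
    · have h2 : (theta K d).toMonoidHom (g' * eps⁻¹ * g'⁻¹) =
          d * (psi K g' * (psi K eps)⁻¹ * (psi K g')⁻¹) * d⁻¹ := by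
        have : (theta K d).toMonoidHom (g' * eps⁻¹ * g'⁻¹) =
            d * psi K (g' * eps⁻¹ * g'⁻¹) * d⁻¹ := rfl
        rw [this, map_mul, map_mul, map_inv, map_inv]
      rw [h2, h1, psi_eps]
      group
  obtain ⟨c', hc', he⟩ := hle h
  have : c' = c := (theta K d).injective he
  rw [← this]
  exact hc'

theorem blk_PUL : Stmt_PUL := by
  intro K d U k
  induction k with
  | zero =>
    intro c h
    simpa using h
  | succ k ih =>
    intro c h
    rw [pow_succ, MulAut.mul_apply] at h
    have h1 := PUL_step K d _ c (ih _ h)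
    simpa only [Function.iterate_succ_apply] using h1

end Pool.AutRed
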