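import Pool.Agent.Work.MP_8d5be4_out.Interface

/-! Block RBD: uniform reach (typed by helper62). -/

set_option autoImplicit false

namespace Pool.AutRed

theorem blk_RBD (hRCH : Stmt_RCH) : Stmt_RBD := by
  intro A _ J w f hf
  obtain ⟨h1, h2, h3, h4, h5, h6⟩ := hRCH J w
  have hn : ∀ a : A, ∃ n, Reach w n (f (FreeGroup.of a)) := fun a => h5 _
  choose m hm using hn
  refine ⟨Finset.univ.sup m, ?_⟩
  have hle : ∀ j, Reach w (Finset.univ.sup m) (f (FreeGroup.of j)) := fun j =>
    h6 _ _ _ (Finset.le_sup (Finset.mem_univ j)) (hm j)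
  intro g
  induction g using snoc_ind with
  | h1 =>
    rw [map_one]
    exact Relation.ReflTransGen.refl
  | hs g j ih =>
    rw [map_mul]
    exact h2 _ _ _ ih (hf g) (hle j)
  | hi g j ih =>
    rw [map_mul, map_inv]
    exact h2 _ _ _ ih (hf g) (h3 _ _ (hle j) (hf _))

end Pool.AutRed
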