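import Pool.Agent.Work.MP_8d5be4_out.Interface

set_option autoImplicit false

namespace Pool.AutRed

namespace Rch

variable {J : Type} {w : J → ℤ × ℤ}

theorem step_symm {n : ℕ} {g h : FreeGroup J} (H : Step w n g h) : Step w n h g := by
  obtain ⟨h1, h2, j, h3⟩ := H
  exact ⟨h2, h1, j, h3.symm⟩

theorem path_symm {n : ℕ} {g h : FreeGroup J} (H : Relation.ReflTransGen (Step w n) g h) :
    Relation.ReflTransGen (Step w n) h g := by
  induction H with
  | refl => exact Relation.ReflTransGen.refl
  | tail _ hs ih => exact Relation.ReflTransGen.head (step_symm hs) ih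

theorem step_trans {m n : ℕ} {z g h : FreeGroup J} (hz : Bx m (ps w z)) (H : Step w n g h) :
    Step w (m + n) (z * g) (z * h) := by
  obtain ⟨h1, h2, j, h3⟩ := H
  refine ⟨?_, ?_, j, ?_⟩
  · rw [ps_mul]; exact bx_add hz h1
  · rw [ps_mul]; exact bx_add hz h2
  · rcases h3 with h3 | h3
    · left; rw [h3, mul_assoc]
    · right; rw [h3, mul_assoc]

theorem path_trans {m n : ℕ} {z g h : FreeGroup J} (hz : Bx m (ps w z))
    (H : Relation.ReflTransGen (Step w n) g h) :
    Relation.ReflTransGen (Step w (m + n)) (z * g) (z * h) := by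
  induction H with
  | refl => exact Relation.ReflTransGen.refl
  | tail _ hs ih => exact ih.tail (step_trans hz hs)

theorem path_mono {m n : ℕ} (hmn : m ≤ n) {g h : FreeGroup J}
    (H : Relation.ReflTransGen (Step w m) g h) : Relation.ReflTransGen (Step w n) g h := by
  induction H with
  | refl => exact Relation.ReflTransGen.refl
  | tail _ hs ih => exact ih.tail ⟨bx_mono hmn hs.1, bx_mono hmn hs.2.1, hs.2.2⟩

theorem reach_bx {n : ℕ} {g : FreeGroup J} (H : Reach w n g) : Bx n (ps w g) := by
  unfold Reach at H
  cases H with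
  | refl => rw [ps_one]; exact bx_zero n
  | tail _ hs => exact hs.2.1

theorem path_trans0 {n : ℕ} {z g h : FreeGroup J} (hz : ps w z = 0)
    (H : Relation.ReflTransGen (Step w n) g h) :
    Relation.ReflTransGen (Step w n) (z * g) (z * h) := by
  have := path_trans (m := 0) (z := z) (by rw [hz]; exact bx_zero 0) H
  rwa [Nat.zero_add] at this

end Rch

open Rch in
theorem blk_RCH : Stmt_RCH := by
  intro J w
  refine ⟨fun n g => reach_bx, ?_, ?_, ?_, ?_, fun m n g h H => path_mono h H⟩
  · intro n u v hu h0 hv
    have := path_trans0 h0 hv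
    rw [mul_one] at this
    exact Relation.ReflTransGen.trans hu this
  · intro n u hu h0
    have := path_trans0 (z := u⁻¹) (by rw [ps_inv, h0, neg_zero]) hu
    rw [mul_one, inv_mul_cancel] at this
    exact path_symm this
  · intro n u v hu hv
    have hz : Bx n (ps w u⁻¹) := by rw [ps_inv]; exact bx_neg (reach_bx hu)
    have h1 := path_trans hz hu
    have h2 := path_trans hz hv
    rw [mul_one, inv_mul_cancel] at h1
    rw [mul_one] at h2
    have := (path_symm h1).trans h2
    rwa [← two_mul] at this
  · intro g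
    have hstep : ∀ (g h : FreeGroup J) (j : J), (h = g * FreeGroup.of j ∨ g = h * FreeGroup.of j) →
        (∃ n, Reach w n g) → ∃ n, Reach w n h := by
      intro g h j hj ⟨n, hn⟩
      obtain ⟨m, hm⟩ := bx_exists (ps w h)
      refine ⟨max m n, (path_mono (le_max_right _ _) hn).tail
        ⟨bx_mono (le_max_right _ _) (reach_bx hn), bx_mono (le_max_left _ _) hm, j, hj⟩⟩
    induction g using snoc_ind with
    | h1 => exact ⟨0, Relation.ReflTransGen.refl⟩
    | hs g j ih => exact hstep g _ j (Or.inl rfl) ih
    | hi g j ih => exact hstep g _ j (Or.inr (by simp)) ih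

end Pool.AutRed
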