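import Pool.Agent.Work.MP_8d5be4_out.Interface

set_option autoImplicit false

namespace Pool.AutRed

theorem RCL_gen {n : ℕ} {g : F2} (h : Bx n (ps w2 g)) : g * eps * g⁻¹ ∈ Cl (Bx n) :=
  Subgroup.subset_closure ⟨g, h, rfl⟩

theorem RCL_ps (i j : ℤ) : ps w2 (xx ^ i * yy ^ j) = (i, j) := by
  simp

theorem RCL_e (n : ℕ) (i : ℤ) (hi : |i| ≤ (n : ℤ)) (j : ℤ) : |j| ≤ (n : ℤ) →
    xx ^ i * (yy ^ j * xx * (yy ^ j)⁻¹ * xx⁻¹) * (xx ^ i)⁻¹ ∈ Cl (Bx n) := by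
  induction j using Int.induction_on with
  | zero =>
    intro _
    have : xx ^ i * (yy ^ (0 : ℤ) * xx * (yy ^ (0 : ℤ))⁻¹ * xx⁻¹) * (xx ^ i)⁻¹ = 1 := by group
    rw [this]
    exact Subgroup.one_mem _
  | succ k ih =>
    intro hj
    have hk : |(k : ℤ)| ≤ n := by
      rw [abs_le] at hj ⊢
      omega
    have e : xx ^ i * (yy ^ ((k : ℤ) + 1) * xx * (yy ^ ((k : ℤ) + 1))⁻¹ * xx⁻¹) * (xx ^ i)⁻¹ =
        ((xx ^ i * yy ^ (k : ℤ)) * eps * (xx ^ i * yy ^ (k : ℤ))⁻¹)⁻¹ *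
          (xx ^ i * (yy ^ (k : ℤ) * xx * (yy ^ (k : ℤ))⁻¹ * xx⁻¹) * (xx ^ i)⁻¹) := by
      rw [eps, zpow_add_one]
      simp only [mul_inv_rev, inv_inv, mul_assoc, inv_mul_cancel_left]
    rw [e]
    refine Subgroup.mul_mem _ (Subgroup.inv_mem _ (RCL_gen ?_)) (ih hk)
    rw [RCL_ps]
    exact ⟨hi, hk⟩
  | pred k ih =>
    intro hj
    have hk : |(-(k : ℤ))| ≤ n := by
      rw [abs_le] at hj ⊢
      omega
    have e : xx ^ i * (yy ^ (-(k : ℤ) - 1) * xx * (yy ^ (-(k : ℤ) - 1))⁻¹ * xx⁻¹) * (xx ^ i)⁻¹ =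
        ((xx ^ i * yy ^ (-(k : ℤ) - 1)) * eps * (xx ^ i * yy ^ (-(k : ℤ) - 1))⁻¹) *
          (xx ^ i * (yy ^ (-(k : ℤ)) * xx * (yy ^ (-(k : ℤ)))⁻¹ * xx⁻¹) * (xx ^ i)⁻¹) := by
      rw [eps, zpow_sub_one]
      simp only [mul_inv_rev, inv_inv, mul_assoc, inv_mul_cancel_left]
    rw [e]
    refine Subgroup.mul_mem _ (RCL_gen ?_) (ih hk)
    rw [RCL_ps]
    exact ⟨hi, hj⟩

theorem RCL_let (n : ℕ) (s : ℤ × ℤ) (hs : Bx n s) (j : Bool) :
    pt s * FreeGroup.of j * (pt (s + w2 j))⁻¹ ∈ Cl (Bx n) := by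
  cases j
  · have : pt s * FreeGroup.of false * (pt (s + w2 false))⁻¹ = 1 := by
      have h1 : (FreeGroup.of false : F2) = yy := rfl
      have h2 : s + w2 false = (s.1, s.2 + 1) := by ext <;> simp [w2]
      rw [h1, h2, pt, pt]
      simp only [zpow_add_one]
      simp [mul_assoc]
    rw [this]
    exact Subgroup.one_mem _
  · have : pt s * FreeGroup.of true * (pt (s + w2 true))⁻¹ =
        xx ^ s.1 * (yy ^ s.2 * xx * (yy ^ s.2)⁻¹ * xx⁻¹) * (xx ^ s.1)⁻¹ := by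
      have h1 : (FreeGroup.of true : F2) = xx := rfl
      have h2 : s + w2 true = (s.1 + 1, s.2) := by ext <;> simp [w2]
      rw [h1, h2, pt, pt]
      simp only [zpow_add_one]
      simp [mul_assoc]
    rw [this]
    exact RCL_e n s.1 hs.1 s.2 hs.2

theorem RCL_step (n : ℕ) (g h : F2) (hgh : Step w2 n g h) :
    (g * (pt (ps w2 g))⁻¹)⁻¹ * (h * (pt (ps w2 h))⁻¹) ∈ Cl (Bx n) := by
  obtain ⟨hg, hh, j, hj | hj⟩ := hgh
  · have := RCL_let n (ps w2 g) hg j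
    rw [hj, ps_mul, ps_of]
    have e : (g * (pt (ps w2 g))⁻¹)⁻¹ * (g * FreeGroup.of j * (pt (ps w2 g + w2 j))⁻¹) =
        pt (ps w2 g) * FreeGroup.of j * (pt (ps w2 g + w2 j))⁻¹ := by
      simp [mul_assoc]
    rw [e]
    exact this
  · have := RCL_let n (ps w2 h) hh j
    rw [hj, ps_mul, ps_of]
    have e : (h * FreeGroup.of j * (pt (ps w2 h + w2 j))⁻¹)⁻¹ * (h * (pt (ps w2 h))⁻¹) =
        (pt (ps w2 h) * FreeGroup.of j * (pt (ps w2 h + w2 j))⁻¹)⁻¹ := by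
      simp [mul_assoc]
    rw [e]
    exact Subgroup.inv_mem _ this

theorem blk_RCL : Stmt_RCL := by
  intro n c hc h0
  have key : ∀ c, Reach w2 n c → c * (pt (ps w2 c))⁻¹ ∈ Cl (Bx n) := by
    intro c hc
    induction hc with
    | refl => simp [pt]
    | tail _ hbc ih =>
      have := Subgroup.mul_mem _ ih (RCL_step n _ _ hbc)
      rwa [mul_inv_cancel_left] at this
  have := key c hc
  rw [h0] at this
  simpa [pt] using this

end Pool.AutRed
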