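import Pool.Agent.Work.MP_8d5be4_out.Interface

set_option autoImplicit false

namespace Pool.AutRed

namespace Rig

theorem lt_false (b : Bool) : lt b false = (lt b true)⁻¹ := by simp [lt]

theorem mem_three {Q : Type} (hSUP : Stmt_SUP) {u v w : N Q} {c : F2}
    (h : c ∈ Su (u * v * w)) : c ∈ Su u ∨ c ∈ Su v ∨ c ∈ Su w := by
  rcases (hSUP Q).2.1 _ _ h with h | h
  · rcases (hSUP Q).2.1 _ _ h with h | h
    · exact Or.inl h
    · exact Or.inr (Or.inl h)
  · exact Or.inr (Or.inr h)

theorem stepA {Q : Type} (hSUP : Stmt_SUP) (hLEN : Stmt_LEN) (p q : Bool) (hne : p ≠ q)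
    (X Y : N Q) (L : ℕ) (hX : ∀ c ∈ Su X, c.norm ≤ L) (hY : ∀ c ∈ Su Y, c.norm ≤ L)
    (hrel : act Q (lt q true)⁻¹ X * Y = act Q (lt p true)⁻¹ Y * X) (c : F2) (hc : c ∈ Su X)
    (hL : c.norm = L) : (lt q false * c).norm < c.norm := by
  by_contra hcon
  have h1 : (lt q false * c).norm = c.norm + 1 := by
    rcases (hLEN q false c).1 with h | h
    · omega
    · exact h
  have h2 : lt q false * c ∈ Su (act Q (lt q true)⁻¹ X) := by
    rw [(hSUP Q).2.2.2.1, lt_false]
    simpa using hc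
  have h3 : act Q (lt q true)⁻¹ X = act Q (lt p true)⁻¹ Y * X * Y⁻¹ := by
    rw [← hrel]; group
  rw [h3] at h2
  rcases mem_three hSUP h2 with h | h | h
  · rw [(hSUP Q).2.2.2.1, inv_inv] at h
    have h4 := hY _ h
    have h5 : (lt q true * (lt q false * c)).norm < (lt q false * c).norm := by
      rw [lt_false, mul_inv_cancel_left, ← lt_false, h1]; omega
    have h6 := (hLEN q true (lt q false * c)).2 p true (by simp [hne]) h5
    omega
  · have := hX _ h
    omega
  · rw [(hSUP Q).2.2.1] at h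
    have := hY _ h
    omega

theorem stepC {Q : Type} (hSUP : Stmt_SUP) (hLEN : Stmt_LEN) (p q : Bool) (hne : p ≠ q)
    (X Y : N Q) (L : ℕ) (hX : ∀ c ∈ Su X, c.norm ≤ L) (hY : ∀ c ∈ Su Y, c.norm ≤ L)
    (hrel : act Q (lt q true)⁻¹ X * Y = act Q (lt p true)⁻¹ Y * X) (c : F2) (hc : c ∈ Su X)
    (hL : c.norm = L) : False := by
  have hA := stepA hSUP hLEN p q hne X Y L hX hY hrel c hc hL
  have h3 : X = (act Q (lt p true)⁻¹ Y)⁻¹ * act Q (lt q true)⁻¹ X * Y := by
    rw [mul_assoc, hrel]; group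
  rw [h3] at hc
  rcases mem_three hSUP hc with h | h | h
  · rw [(hSUP Q).2.2.1, (hSUP Q).2.2.2.1, inv_inv] at h
    have h4 := hY _ h
    have h6 := (hLEN q false c).2 p true (by simp) hA
    omega
  · rw [(hSUP Q).2.2.2.1, inv_inv] at h
    have h4 := hX _ h
    have h6 := (hLEN q false c).2 q true (by simp) hA
    omega
  · have hB := stepA hSUP hLEN q p (Ne.symm hne) Y X L hY hX hrel.symm c h hL
    have h6 := (hLEN q false c).2 p false (by simp [hne]) hA
    omega

end Rig

open Rig in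
theorem blk_RIG (hSUP : Stmt_SUP) (hLEN : Stmt_LEN) : Stmt_RIG := by
  intro Q s hk he
  set X : N Q := act Q xx⁻¹ (lft (s xx)) with hX
  set Y : N Q := act Q yy⁻¹ (lft (s yy)) with hY
  have hcomp : ∀ (c d : F2) (u : N Q), act Q c (act Q d u) = act Q (c * d) u := by
    intro c d u
    rw [map_mul, MulAut.mul_apply]
  have e1 : lft (s (xx * yy)) = lft (s xx) * act Q xx (lft (s yy)) := by
    rw [map_mul, lft_mul, hk]
  have e2 : lft (s (eps * yy * xx)) =
      act Q eps (lft (s yy)) * act Q (eps * yy) (lft (s xx)) := by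
    rw [map_mul, lft_mul, map_mul, lft_mul, he, lft_i2, kap_i2, one_mul, map_mul, kap_i2, hk]
  have e3 : eps * yy * xx = xx * yy := by simp [eps]
  rw [e3, e1] at e2
  have hrel : act Q (lt false true)⁻¹ X * Y = act Q (lt true true)⁻¹ Y * X := by
    have h := congrArg (act Q (xx * yy)⁻¹) e2
    rw [map_mul, map_mul, hcomp, hcomp, hcomp] at h
    have a1 : (xx * yy)⁻¹ * xx = yy⁻¹ := by simp
    have a2 : (xx * yy)⁻¹ * eps = xx⁻¹ * yy⁻¹ := by simp [eps, mul_assoc]
    have a3 : (xx * yy)⁻¹ * (eps * yy) = xx⁻¹ := by simp [eps, mul_assoc]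
    rw [a1, a2, a3] at h
    have b1 : (lt false true : F2) = yy := rfl
    have b2 : (lt true true : F2) = xx := rfl
    rw [b1, b2, hX, hY, hcomp, hcomp, ← h]
    simp
  have hempty : Su X ∪ Su Y = ∅ := by
    by_contra hne
    have hne' : (Su X ∪ Su Y).Nonempty := Set.nonempty_iff_ne_empty.mpr hne
    obtain ⟨c, hc, hmax⟩ := Set.exists_max_image (Su X ∪ Su Y) (fun c => c.norm)
      (((hSUP Q).1 X).union ((hSUP Q).1 Y)) hne'
    have hX' : ∀ d ∈ Su X, d.norm ≤ c.norm := fun d hd => hmax d (Or.inl hd)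
    have hY' : ∀ d ∈ Su Y, d.norm ≤ c.norm := fun d hd => hmax d (Or.inr hd)
    rcases hc with hc | hc
    · exact stepC hSUP hLEN true false (by simp) X Y c.norm hX' hY' hrel c hc rfl
    · exact stepC hSUP hLEN false true (by simp) Y X c.norm hY' hX' hrel.symm c hc rfl
  have hX1 : X = 1 := (hSUP Q).2.2.2.2 X (by
    apply Set.subset_eq_empty _ hempty; exact Set.subset_union_left)
  have hY1 : Y = 1 := (hSUP Q).2.2.2.2 Y (by
    apply Set.subset_eq_empty _ hempty; exact Set.subset_union_right)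
  have hx : lft (s xx) = 1 := by
    have := congrArg (act Q xx) hX1
    rw [hX, hcomp] at this
    simpa using this
  have hy : lft (s yy) = 1 := by
    have := congrArg (act Q yy) hY1
    rw [hY, hcomp] at this
    simpa using this
  have hfin : s = i2 Q := by
    apply f2_ext
    · exact g_ext (by rw [hx, lft_i2]) (by rw [hk, kap_i2])
    · exact g_ext (by rw [hy, lft_i2]) (by rw [hk, kap_i2])
  intro d
  rw [hfin]

end Pool.AutRed
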