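import Pool.Agent.Work.MP_8d5be4_out.Interface

/-! Block RKA: `kap` of a path (MP_8d5be4_al, helper65). -/

set_option autoImplicit false

open Filter

namespace Pool.AutRed

theorem RKA_step {Q : Type} {n : ℕ} {g h : G Q} (hs : Step (wG Q) n g h) :
    Step w2 n (kap Q g) (kap Q h) ∨ kap Q g = kap Q h := by
  obtain ⟨h1, h2, j, hj⟩ := hs
  rw [← ps_kap] at h1 h2
  rcases j with q | b
  · right
    rcases hj with hj | hj
    · rw [hj, map_mul, kap_of_inl, mul_one]
    · rw [hj, map_mul, kap_of_inl, mul_one]
  · left
    refine ⟨h1, h2, b, ?_⟩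
    rcases hj with hj | hj
    · left
      rw [hj, map_mul, kap_of_inr]
    · right
      rw [hj, map_mul, kap_of_inr]

theorem blk_RKA : Stmt_RKA := by
  intro Q n g hg
  unfold Reach at hg ⊢
  induction hg with
  | refl =>
    rw [map_one]
  | tail _ hs ih =>
    rcases RKA_step hs with h | h
    · exact ih.tail h
    · rw [← h]
      exact ih

end Pool.AutRed
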