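import Pool.Agent.Work.MP_8d5be4_out.Interface

/-! Block RLF: the left part along a path (MP_8d5be4_al, helper65). -/

set_option autoImplicit false

open Filter

namespace Pool.AutRed

theorem RLF_mem {Q : Type} (n : ℕ) (q : Q) (c : F2) (hc : Reach w2 n c) :
    (FreeGroup.of (q, c) : N Q) ∈ sub (fun p : Q × F2 => Reach w2 n p.2) :=
  Subgroup.subset_closure ⟨(q, c), hc, rfl⟩

theorem RLF_of {Q : Type} (g : G Q) (q : Q) :
    lft (g * FreeGroup.of (Sum.inl q)) = lft g * FreeGroup.of (q, kap Q g) := by
  rw [lft_mul, lft_of_inl, act_of, mul_one]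

theorem RLF_of' {Q : Type} (g : G Q) (b : Bool) :
    lft (g * FreeGroup.of (Sum.inr b)) = lft g := by
  rw [lft_mul, lft_of_inr, map_one, mul_one]

theorem blk_RLF (hR : Stmt_RKA) : Stmt_RLF := by
  intro Q n g hg
  have key : Reach (wG Q) n g ∧ lft g ∈ sub (fun p : Q × F2 => Reach w2 n p.2) := by
    unfold Reach at hg
    induction hg with
    | refl =>
      refine ⟨Relation.ReflTransGen.refl, ?_⟩
      rw [lft_one]
      exact Subgroup.one_mem _
    | @tail b c _ hs ih =>
      have hc : Reach (wG Q) n c := ih.1.tail hs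
      refine ⟨hc, ?_⟩
      obtain ⟨-, -, j, hj⟩ := hs
      rcases j with q | e
      · rcases hj with hj | hj
        · rw [hj, RLF_of]
          exact Subgroup.mul_mem _ ih.2 (RLF_mem n q _ (hR Q n b ih.1))
        · have h1 := ih.2
          rw [hj, RLF_of] at h1
          have h2 := RLF_mem n q _ (hR Q n c hc)
          have h3 := Subgroup.mul_mem _ h1 (Subgroup.inv_mem _ h2)
          rwa [mul_inv_cancel_right] at h3
      · rcases hj with hj | hj
        · rw [hj, RLF_of']
          exact ih.2
        · have h1 := ih.2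
          rw [hj, RLF_of'] at h1
          exact h1
  exact key.2

end Pool.AutRed
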