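import Pool.Agent.Work.MP_8d5be4_out.Interface

set_option autoImplicit false

open Filter

namespace Pool.AutRed

namespace Sig

theorem xx_ne_one : xx ≠ 1 := by
  intro h
  have := congrArg (ps w2) h
  simp at this

theorem Phi_apply {A R : Type} (K : ℕ) (b : MulAut (FreeGroup A)) (q w : G (A ⊕ R)) :
    Phi K b q w = q * hat K b w * q⁻¹ := by
  simp [Phi, MulAut.conj_apply]

end Sig

open Sig in
theorem blk_SIG (hCNJ : Stmt_CNJ) (hRCH : Stmt_RCH) (hRIG : Stmt_RIG) (hFXE : Stmt_FXE) :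
    Stmt_SIG := by
  intro K hK A R _ a b γ g hrel hg hγ hγ'
  have hR1 : ∀ w, hat K a (γ w) = γ (Phi K b g w) := by
    intro w
    rw [← hrel]
    simp [MulAut.mul_apply]
  have hR2 : ∀ w, Phi K b g (γ⁻¹ w) = γ⁻¹ (hat K a w) := by
    intro w
    rw [← hrel]
    simp [MulAut.mul_apply]
  let ρ0 : F2 →* F2 := ((kap (A ⊕ R)).comp γ.toMonoidHom).comp (i2 (A ⊕ R))
  let ρ1 : F2 →* F2 := ((kap (A ⊕ R)).comp (γ⁻¹).toMonoidHom).comp (i2 (A ⊕ R))
  have h0 : ∀ w, kap (A ⊕ R) (γ w) = ρ0 (kap (A ⊕ R) w) := by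
    have : (kap (A ⊕ R)).comp γ.toMonoidHom = ρ0.comp (kap (A ⊕ R)) := by
      refine gAR_ext ?_ ?_ ?_
      · intro h
        have := hγ h
        simpa using this
      · intro r
        exact isEmptyElim r
      · intro c
        simp [ρ0]
    intro w
    exact DFunLike.congr_fun this w
  have h1 : ∀ w, kap (A ⊕ R) (γ⁻¹ w) = ρ1 (kap (A ⊕ R) w) := by
    have : (kap (A ⊕ R)).comp (γ⁻¹).toMonoidHom = ρ1.comp (kap (A ⊕ R)) := by
      refine gAR_ext ?_ ?_ ?_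
      · intro h
        have := hγ' h
        simpa using this
      · intro r
        exact isEmptyElim r
      · intro c
        simp [ρ1]
    intro w
    exact DFunLike.congr_fun this w
  have h10 : ∀ d, ρ1 (ρ0 d) = d := by
    intro d
    have : ρ0 d = kap (A ⊕ R) (γ (i2 (A ⊕ R) d)) := rfl
    rw [this, ← h1]
    simp
  have h01 : ∀ d, ρ0 (ρ1 d) = d := by
    intro d
    have : ρ1 d = kap (A ⊕ R) (γ⁻¹ (i2 (A ⊕ R) d)) := rfl
    rw [this, ← h0]
    simp
  let ρ : MulAut F2 := MonoidHom.toMulEquiv ρ0 ρ1 (MonoidHom.ext h10) (MonoidHom.ext h01)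
  have hρ : ∀ d, ρ d = ρ0 d := fun d => rfl
  have hcomm : ∀ c, psi K (ρ c) = ρ (psi K c) := by
    intro c
    have e := congrArg (kap (A ⊕ R)) (hR1 (i2 (A ⊕ R) c))
    rw [kap_hat, h0, h0, Phi_apply] at e
    simp only [hat_i2, map_mul, map_inv, hg, kap_i2, map_one, one_mul, inv_one, mul_one] at e
    exact e
  let s : F2 →* G (A ⊕ R) := ((γ⁻¹).toMonoidHom.comp (i2 (A ⊕ R))).comp ρ.toMonoidHom
  have hs : ∀ d, s d = γ⁻¹ (i2 (A ⊕ R) (ρ d)) := fun d => rfl
  have hks : ∀ d, kap (A ⊕ R) (s d) = d := by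
    intro d
    rw [hs, h1, kap_i2, hρ, h10]
  have hPs : ∀ d, Phi K b g (s d) = s (psi K d) := by
    intro d
    rw [hs, hR2, hat_i2, hcomm, hs]
  set q : G (A ⊕ R) := (s (xx ^ (K + 1)))⁻¹ * g with hq
  have hPq : Phi K b q (s eps) = (s eps)⁻¹ := by
    have e1 : Phi K b q (s eps) =
        (s (xx ^ (K + 1)))⁻¹ * Phi K b g (s eps) * s (xx ^ (K + 1)) := by
      rw [Phi_apply, Phi_apply, hq]; group
    rw [e1, hPs, psi_eps, ← map_inv, ← map_mul, ← map_mul, ← map_inv]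
    congr 1
    group
  have hP2 : ∀ k : ℕ, (Phi K b q ^ (2 * k)) (s eps) = s eps := by
    intro k
    rw [pow_mul]
    induction k with
    | zero => simp
    | succ k ih =>
      rw [pow_succ', MulAut.mul_apply, ih, pow_two, MulAut.mul_apply, hPq, map_inv, hPq, inv_inv]
  have hps : ps (wG (A ⊕ R)) (s eps) = 0 := by
    rw [← ps_kap, hks, ps_eps]
  have hpq : ps (wG (A ⊕ R)) q = -((K : ℤ) + 1, 0) := by
    rw [← ps_kap, hq, map_mul, map_inv, hks, hg, mul_one, ps_inv, ps_pow, ps_xx]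
    ext <;> simp
  obtain ⟨n, hn⟩ := (hRCH _ (wG (A ⊕ R))).2.2.2.2.1 (s eps)
  have hdvd : ¬ ((K : ℤ) ∣ (ps (wG (A ⊕ R)) q).1 + (ps (wG (A ⊕ R)) q).2) := by
    rw [hpq]
    rintro ⟨t, ht⟩
    simp only [Prod.fst_neg, Prod.snd_neg, neg_zero, add_zero] at ht
    have h1 : (K : ℤ) ∣ 1 := ⟨-1 - t, by linarith⟩
    have h2 : K ∣ 1 := by exact_mod_cast h1
    have := Nat.le_of_dvd one_pos h2
    omega
  have hev := hCNJ K (by omega) A R b q hdvd (s eps) hps n
  obtain ⟨N0, hN0⟩ := eventually_atTop.mp hev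
  obtain ⟨z, hz⟩ := hN0 (2 * N0) (by omega) (by rw [hP2]; exact hn)
  rw [hP2, hks] at hz
  set v := back (A ⊕ R) z with hv
  have hkv : kap (A ⊕ R) v = 1 := kap_back z
  have hsd : ∀ d, s d = v * i2 (A ⊕ R) d * v⁻¹ := by
    have hr := hRIG (A ⊕ R) ((MulAut.conj v⁻¹).toMonoidHom.comp s) (by
      intro d
      simp [MulAut.conj_apply, hks, hkv]) (by
      simp only [MonoidHom.comp_apply, MulEquiv.coe_toMonoidHom, MulAut.conj_apply, inv_inv]
      rw [hz]; group)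
    intro d
    have h := hr d
    simp only [MonoidHom.comp_apply, MulEquiv.coe_toMonoidHom, MulAut.conj_apply, inv_inv] at h
    rw [← h]; group
  refine ⟨z, ρ, ?_, fun d => by rw [← hsd, hs]⟩
  -- the element `m`
  set m : G (A ⊕ R) := v⁻¹ * g * hat K b v with hm
  have hkm : kap (A ⊕ R) m = 1 := by
    simp [hm, hkv, hg]
  have hmc : i2 (A ⊕ R) xx * m * (i2 (A ⊕ R) xx)⁻¹ = m := by
    have h := hPs yy
    rw [psi_yy, hsd, hsd, Phi_apply, map_mul, map_mul, hat_i2, psi_yy, map_inv] at h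
    have h' : m * i2 (A ⊕ R) xx * m⁻¹ = i2 (A ⊕ R) xx := by
      have : m * i2 (A ⊕ R) xx * m⁻¹ =
          v⁻¹ * (g * (hat K b v * i2 (A ⊕ R) xx * (hat K b v)⁻¹) * g⁻¹) * v := by
        rw [hm]; group
      rw [this, h]; group
    have h'' : m * i2 (A ⊕ R) xx = i2 (A ⊕ R) xx * m := by
      calc m * i2 (A ⊕ R) xx = (m * i2 (A ⊕ R) xx * m⁻¹) * m := by group
        _ = _ := by rw [h']
    rw [← h'']; group
  have hm1 : m = 1 := by
    have h2 : act (A ⊕ R) xx (lft m) = lft m := by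
      apply back_injective
      rw [back_act, eq_back_of_kap hkm, hmc]
    have h3 := hFXE _ _ _ xx_ne_one h2
    rw [← eq_back_of_kap hkm, h3, map_one]
  have : g = v * m * (hat K b v)⁻¹ := by rw [hm]; group
  rw [this, hm1, mul_one]

end Pool.AutRed
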