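import Pool.Agent.Work.MP_8d5be4_out.Interface

/-!
Row MP_8d5be4_al, block SUP: the support of an element of `N`.
-/

set_option autoImplicit false

namespace Pool.AutRed

theorem SUP_comp {Q : Type} (P P' : Q × F2 → Prop) (u : N Q) :
    keep P (keep P' u) = keep (fun p => P p ∧ P' p) u := by
  have h : (keep P).comp (keep P') = keep (fun p => P p ∧ P' p) := by
    refine FreeGroup.ext_hom _ _ ?_
    intro p
    rw [MonoidHom.comp_apply]
    by_cases hp' : P' p
    · rw [keep_of_pos hp']
      by_cases hp : P p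
      · rw [keep_of_pos hp, keep_of_pos (P := fun p => P p ∧ P' p) ⟨hp, hp'⟩]
      · rw [keep_of_neg hp, keep_of_neg (P := fun p => P p ∧ P' p) (fun h => hp h.1)]
    · rw [keep_of_neg hp', map_one, keep_of_neg (P := fun p => P p ∧ P' p) (fun h => hp' h.2)]
  rw [← h]; rfl

theorem SUP_fin {Q : Type} (hK : Stmt_KEP) (u : N Q) : (Su u).Finite := by
  classical
  obtain ⟨h1, _, _, h4, _⟩ := hK Q
  obtain ⟨s, hs⟩ := h4 u
  refine Set.Finite.subset (s.image Prod.snd).finite_toSet ?_
  intro c hc
  by_contra hcs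
  apply hc
  apply h1
  refine (Subgroup.closure_mono (Set.image_mono ?_)) hs
  intro p hp hpc
  apply hcs
  rw [Finset.mem_coe, Finset.mem_image]
  exact ⟨p, hp, hpc⟩

theorem SUP_inv_sub {Q : Type} (u : N Q) : Su u⁻¹ ⊆ Su u := by
  intro c hc h
  apply hc
  rw [map_inv, h]

theorem SUP_one {Q : Type} (hK : Stmt_KEP) (u : N Q) (hu : Su u = ∅) : u = 1 := by
  classical
  obtain ⟨h1, _, _, h4, h5⟩ := hK Q
  obtain ⟨s, hs⟩ := h4 u
  have hall : ∀ c, keep (fun p : Q × F2 => p.2 ≠ c) u = u := by
    intro c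
    by_contra h
    have : c ∈ Su u := h
    rw [hu] at this
    exact this
  have key : ∀ T : Finset F2, keep (fun p : Q × F2 => p.2 ∉ T) u = u := by
    intro T
    induction T using Finset.induction_on with
    | empty =>
      refine h5 _ (keep (fun p : Q × F2 => p.2 ∉ (∅ : Finset F2))) (MonoidHom.id _)
        (fun p => p ∈ s) u hs ?_
      intro p _
      exact keep_of_pos (by simp)
    | insert c T _ ih =>
      have e : (fun p : Q × F2 => p.2 ∉ insert c T) = fun p => p.2 ≠ c ∧ p.2 ∉ T := by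
        funext p
        simp [Finset.mem_insert]
      rw [e, ← SUP_comp (fun p : Q × F2 => p.2 ≠ c) (fun p => p.2 ∉ T) u, ih, hall]
  rw [← key (s.image Prod.snd)]
  refine h5 _ (keep (fun p : Q × F2 => p.2 ∉ s.image Prod.snd)) (1 : N Q →* N Q)
    (fun p => p ∈ s) u hs ?_
  intro p hp
  rw [MonoidHom.one_apply]
  refine keep_of_neg ?_
  intro h
  exact h (Finset.mem_image_of_mem Prod.snd hp)

theorem blk_SUP (hK : Stmt_KEP) : Stmt_SUP := by
  intro Q
  refine ⟨SUP_fin hK, ?_, ?_, ?_, SUP_one hK⟩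
  · intro u v c hc
    by_contra h
    rw [Set.mem_union, not_or] at h
    obtain ⟨h1, h2⟩ := h
    have h1' : keep (fun p : Q × F2 => p.2 ≠ c) u = u := by
      by_contra h; exact h1 h
    have h2' : keep (fun p : Q × F2 => p.2 ≠ c) v = v := by
      by_contra h; exact h2 h
    apply hc
    rw [map_mul, h1', h2']
  · intro u
    refine Set.Subset.antisymm (SUP_inv_sub u) ?_
    have := SUP_inv_sub u⁻¹
    rwa [inv_inv] at this
  · intro d u c
    obtain ⟨_, _, h3, _, _⟩ := hK Q
    have e : (fun p : Q × F2 => d * p.2 ≠ c) = fun p => p.2 ≠ d⁻¹ * c := by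
      funext p
      apply propext
      constructor
      · intro h h'; apply h; rw [h']; group
      · intro h h'; apply h; rw [← h']; group
    have key : keep (fun p : Q × F2 => p.2 ≠ c) (act Q d u) =
        act Q d (keep (fun p : Q × F2 => p.2 ≠ d⁻¹ * c) u) := by
      rw [h3 (fun p : Q × F2 => p.2 ≠ c) d u]
      simp only []
      rw [e]
    show keep (fun p : Q × F2 => p.2 ≠ c) (act Q d u) ≠ act Q d u ↔
      keep (fun p : Q × F2 => p.2 ≠ d⁻¹ * c) u ≠ u
    rw [key]
    exact not_congr (EmbeddingLike.apply_eq_iff_eq (act Q d))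

end Pool.AutRed
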