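import Pool.Agent.Work.MP_8d5be4_out.Interface

set_option autoImplicit false

namespace Pool.AutRed

theorem TH1_pow {A R : Type} {K : ℕ} {a b : MulAut (FreeGroup A)} {γ : MulAut (G (A ⊕ R))}
    (hγ : γ⁻¹ * hat K a * γ = hat K b) (h : FreeGroup A) (k : ℕ) :
    (hat K b ^ k) (γ⁻¹ (iA A R h)) = γ⁻¹ (iA A R ((a ^ k) h)) := by
  induction k with
  | zero => simp
  | succ k ih =>
    rw [pow_succ', MulAut.mul_apply, ih, ← hγ, MulAut.mul_apply, MulAut.mul_apply,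
      MulAut.apply_inv_self, hat_iA, pow_succ' a, MulAut.mul_apply]

theorem TH1_half (hWH : Stmt_WH) (hMAI : Stmt_MAI) {K : ℕ} (hK : 2 ≤ K) {A R : Type} [Fintype A]
    [DecidableEq A] {a b : MulAut (FreeGroup A)} (ha : ∀ i, (a (FreeGroup.of i)).norm ≤ K)
    {γ : MulAut (G (A ⊕ R))} (hγ : γ⁻¹ * hat K a * γ = hat K b) (h : FreeGroup A) :
    ∃ h', γ⁻¹ (iA A R h) = iA A R h' := by
  obtain ⟨_, n, hn⟩ := hWH K (by omega) A R a b ha γ 1 (by rw [hγ]; simp)
  refine hMAI K hK A R b (γ⁻¹ (iA A R h)) n fun k => ?_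
  rw [TH1_pow hγ]
  exact hn _

theorem TH1_hom {A R : Type} (γ : MulAut (G (A ⊕ R)))
    (H : ∀ h, ∃ h', γ (iA A R h) = iA A R h') :
    ∃ f : FreeGroup A →* FreeGroup A, ∀ h, γ (iA A R h) = iA A R (f h) := by
  refine ⟨FreeGroup.lift fun i => (H (FreeGroup.of i)).choose, fun h => ?_⟩
  have : γ.toMonoidHom.comp (iA A R) =
      (iA A R).comp (FreeGroup.lift fun i => (H (FreeGroup.of i)).choose) := by
    refine FreeGroup.ext_hom _ _ fun i => ?_
    simp only [MonoidHom.comp_apply, FreeGroup.lift_apply_of]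
    exact (H (FreeGroup.of i)).choose_spec
  exact DFunLike.congr_fun this h

theorem blk_TH1 (hWH : Stmt_WH) (hMAI : Stmt_MAI) : Stmt_TH1 := by
  intro K hK A R _ _ a b ha hb γ hγ
  have H1 : ∀ h, ∃ h', γ⁻¹ (iA A R h) = iA A R h' := TH1_half hWH hMAI hK ha hγ
  have hγ' : (γ⁻¹)⁻¹ * hat K b * γ⁻¹ = hat K a := by rw [← hγ]; group
  have H2 : ∀ h, ∃ h', γ (iA A R h) = iA A R h' := by
    have := TH1_half hWH hMAI hK hb hγ' (R := R)
    rwa [inv_inv] at this
  obtain ⟨f, hf⟩ := TH1_hom γ H2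
  obtain ⟨f', hf'⟩ := TH1_hom γ⁻¹ H1
  have e1 : f'.comp f = MonoidHom.id _ := by
    refine MonoidHom.ext fun h => iA_injective A R ?_
    rw [MonoidHom.comp_apply, ← hf', ← hf, MulAut.inv_apply_self, MonoidHom.id_apply]
  have e2 : f.comp f' = MonoidHom.id _ := by
    refine MonoidHom.ext fun h => iA_injective A R ?_
    rw [MonoidHom.comp_apply, ← hf, ← hf', MulAut.apply_inv_self, MonoidHom.id_apply]
  refine ⟨MonoidHom.toMulEquiv f f' e1 e2, ?_, hf⟩
  rw [mul_assoc, inv_mul_eq_iff_eq_mul]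
  ext h
  apply iA_injective A R
  have e3 : hat K a * γ = γ * hat K b := by rw [← hγ]; group
  have e4 := DFunLike.congr_fun e3 (iA A R h)
  rw [MulAut.mul_apply, MulAut.mul_apply, hat_iA, hf, hat_iA, hf] at e4
  exact e4

end Pool.AutRed
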