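import Pool.Agent.Work.MP_8d5be4_out.Interface

/-! # Block TH2: Theorem II (helper47) -/

set_option autoImplicit false

open Filter

namespace Pool.AutRed

theorem TH2_mul_conj {H : Type} [Group H] (φ : MulAut H) (x : H) :
    φ * MulAut.conj x = MulAut.conj (φ x) * φ := by
  ext y
  simp [MulAut.conj_apply]

theorem TH2_conj_mul {H : Type} [Group H] (x y : H) :
    (MulAut.conj (x * y) : MulAut H) = MulAut.conj x * MulAut.conj y := map_mul _ _ _

theorem TH2_conj_inv {H : Type} [Group H] (x : H) :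
    (MulAut.conj x⁻¹ : MulAut H) = (MulAut.conj x)⁻¹ := map_inv _ _

/-- change of the conjugator by an inner automorphism -/
theorem TH2_change {H : Type} [Group H] (α β γ : MulAut H) (g v : H)
    (h : γ⁻¹ * α * γ = MulAut.conj g * β) :
    (γ * MulAut.conj v)⁻¹ * α * (γ * MulAut.conj v) = MulAut.conj (v⁻¹ * g * β v) * β := by
  rw [TH2_conj_mul, TH2_conj_mul, TH2_conj_inv]
  calc (γ * MulAut.conj v)⁻¹ * α * (γ * MulAut.conj v)
      = (MulAut.conj v)⁻¹ * (γ⁻¹ * α * γ) * MulAut.conj v := by group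
    _ = (MulAut.conj v)⁻¹ * MulAut.conj g * (β * MulAut.conj v) := by rw [h]; group
    _ = (MulAut.conj v)⁻¹ * MulAut.conj g * (MulAut.conj (β v) * β) := by rw [TH2_mul_conj β v]
    _ = _ := by group

/-- the inverse relation -/
theorem TH2_inverse {H : Type} [Group H] (α β γ : MulAut H) (g : H)
    (h : γ⁻¹ * α * γ = MulAut.conj g * β) :
    (γ⁻¹)⁻¹ * β * γ⁻¹ = MulAut.conj (γ g)⁻¹ * α := by
  have h1 : β = (MulAut.conj g)⁻¹ * (γ⁻¹ * α * γ) := by rw [h]; group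
  have h2 : γ * (MulAut.conj g)⁻¹ = (MulAut.conj (γ g))⁻¹ * γ := by
    have := TH2_mul_conj γ g⁻¹
    rwa [TH2_conj_inv, map_inv, TH2_conj_inv] at this
  rw [TH2_conj_inv]
  calc (γ⁻¹)⁻¹ * β * γ⁻¹ = (γ * (MulAut.conj g)⁻¹) * γ⁻¹ * α := by rw [h1]; group
    _ = (MulAut.conj (γ g))⁻¹ * α := by rw [h2]; group

theorem TH2_pow {H : Type} [Group H] (α β γ : MulAut H) (h : γ⁻¹ * α * γ = β) (k : ℕ) (x : H) :
    (β ^ k) (γ⁻¹ x) = γ⁻¹ ((α ^ k) x) := by
  have h1 : β ^ k = γ⁻¹ * α ^ k * γ := by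
    rw [← h]
    induction k with
    | zero => simp
    | succ k ih => rw [pow_succ, ih, pow_succ]; group
  rw [h1]
  simp [MulAut.mul_apply]

theorem TH2_hat_pow {A R : Type} (K : ℕ) (a : MulAut (FreeGroup A)) (k : ℕ) (h : FreeGroup A) :
    (hat (R := R) K a ^ k) (iA A R h) = iA A R ((a ^ k) h) := by
  induction k with
  | zero => simp
  | succ k ih => rw [pow_succ', MulAut.mul_apply, ih, hat_iA, pow_succ', MulAut.mul_apply]

theorem blk_TH2 (hKW : Stmt_KW) (hWH : Stmt_WH) (hFIX : Stmt_FIX) (hSIG : Stmt_SIG)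
    (hTH1 : Stmt_TH1) : Stmt_TH2 := by
  intro K hK A R _ _ _ _ a b ha hb γ g hrel
  have hK1 : 1 ≤ K := by omega
  -- the fixed point
  obtain ⟨i⟩ := (inferInstance : Nonempty A)
  obtain ⟨n, hn⟩ := (hWH K hK1 A R a b ha γ g hrel).2
  have hkap := hKW K hK A R a b ha γ g hrel
  obtain ⟨c0, hc0⟩ := hFIX K hK A R b g (γ⁻¹ (iA A R (FreeGroup.of i))) n (by
      intro h
      have h1 : iA A R (FreeGroup.of i) = 1 := by
        have := congrArg γ h
        simpa using this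
      have h2 : iA A R (FreeGroup.of i) = iA A R 1 := by rw [h1, map_one]
      exact FreeGroup.of_ne_one i (iA_injective A R h2)) (hkap _) (by
      intro k
      rw [TH2_pow (hat K a) (Phi K b g) γ hrel k, TH2_hat_pow]
      exact hn _)
  have hc0' : kap (A ⊕ R) g * psi K c0 = c0 := hc0
  -- first change
  set γ1 := γ * MulAut.conj (i2 (A ⊕ R) c0) with hγ1
  set g1 := (i2 (A ⊕ R) c0)⁻¹ * g * hat K b (i2 (A ⊕ R) c0) with hg1
  have hrel1 : γ1⁻¹ * hat K a * γ1 = Phi K b g1 :=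
    TH2_change (hat K a) (hat K b) γ g _ hrel
  have hkg1 : kap (A ⊕ R) g1 = 1 := by
    rw [hg1, map_mul, map_mul, map_inv, kap_hat, kap_i2, mul_assoc, hc0', inv_mul_cancel]
  have hk1 := hKW K hK A R a b ha γ1 g1 hrel1
  have hrel1' : (γ1⁻¹)⁻¹ * hat K b * γ1⁻¹ = Phi K a (γ1 g1)⁻¹ :=
    TH2_inverse (hat K a) (hat K b) γ1 g1 hrel1
  have hk2 := hKW K hK A R b a hb γ1⁻¹ _ hrel1'
  rw [inv_inv] at hk2
  obtain ⟨z, ρ, hz, hρ⟩ := hSIG K hK A R a b γ1 g1 hrel1 hkg1 hk2 hk1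
  -- second change
  set v := back (A ⊕ R) z with hv
  set γ3 := γ1 * MulAut.conj v with hγ3
  have hrel3 : γ3⁻¹ * hat K a * γ3 = hat K b := by
    have h1 := TH2_change (hat K a) (hat K b) γ1 g1 v hrel1
    rw [h1]
    have h2 : v⁻¹ * g1 * hat K b v = 1 := by rw [hz]; group
    rw [h2, map_one, one_mul]
  have hγ3i : ∀ d, γ3 (i2 (A ⊕ R) d) = i2 (A ⊕ R) (ρ d) := by
    intro d
    rw [hγ3, MulAut.mul_apply, MulAut.conj_apply, ← hρ d]
    simp
  obtain ⟨c, hc, hcc⟩ := hTH1 K hK A R a b ha hb γ3 hrel3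
  have hγ : ∀ x, γ x = γ3 ((i2 (A ⊕ R) c0 * v)⁻¹) * γ3 x * (γ3 ((i2 (A ⊕ R) c0 * v)⁻¹))⁻¹ := by
    intro x
    rw [← map_mul, ← map_inv, ← map_mul, hγ3, hγ1, MulAut.mul_apply, MulAut.mul_apply,
      MulAut.conj_apply, MulAut.conj_apply]
    congr 1
    group
  refine ⟨γ3 ((i2 (A ⊕ R) c0 * v)⁻¹), c, ρ, hc, ?_, ?_⟩
  · intro h
    rw [hγ, hcc]
  · intro d
    rw [hγ, hγ3i]

end Pool.AutRed
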