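import Pool.Agent.Work.MP_8d5be4_out.Interface

/-!
Row MP_8d5be4_al, block TRA: transport along a bijection of the letters.
-/

set_option autoImplicit false

namespace Pool.AutRed

theorem TRA_map {J J' : Type} [DecidableEq J] [DecidableEq J'] (e : J ≃ J') (w : FreeGroup J) :
    (FreeGroup.freeGroupCongr e w).norm ≤ w.norm := by
  have h : FreeGroup.freeGroupCongr e w = FreeGroup.mk (w.toWord.map fun x => (e x.1, x.2)) := by
    conv_lhs => rw [← FreeGroup.mk_toWord (x := w)]
    rw [FreeGroup.freeGroupCongr_apply, FreeGroup.map.mk]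
  rw [h]
  refine FreeGroup.norm_mk_le.trans ?_
  rw [List.length_map, FreeGroup.norm]

theorem TRA_norm {J J' : Type} [DecidableEq J] [DecidableEq J'] (e : J ≃ J') (w : FreeGroup J) :
    (FreeGroup.freeGroupCongr e w).norm = w.norm := by
  apply le_antisymm (TRA_map e w)
  have h := TRA_map e.symm (FreeGroup.freeGroupCongr e w)
  rwa [← FreeGroup.freeGroupCongr_symm, MulEquiv.symm_apply_apply] at h

theorem TRA_of {J J' : Type} (e : J ≃ J') (a : MulAut (FreeGroup J)) (j : J') :
    MulAut.congr (FreeGroup.freeGroupCongr e) a (FreeGroup.of j) =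
      FreeGroup.freeGroupCongr e (a (FreeGroup.of (e.symm j))) := by
  show FreeGroup.freeGroupCongr e (a ((FreeGroup.freeGroupCongr e).symm (FreeGroup.of j))) = _
  rw [FreeGroup.freeGroupCongr_symm, FreeGroup.freeGroupCongr_apply e.symm, FreeGroup.map.of]

theorem blk_TRA : Stmt_TRA := by
  intro J J' _ _ _ _ e
  refine ⟨?_, ?_⟩
  · intro a
    apply le_antisymm
    · refine Finset.sup_le ?_
      intro j _
      have h := TRA_norm e (a (FreeGroup.of (e.symm j)))
      rw [← TRA_of] at h
      refine (le_of_eq h).trans ?_
      exact Finset.le_sup (f := fun j => (FreeGroup.toWord (a (FreeGroup.of j))).length)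
        (Finset.mem_univ (e.symm j))
    · refine Finset.sup_le ?_
      intro j _
      have h := TRA_norm e (a (FreeGroup.of j))
      have h2 := TRA_of e a (e j)
      rw [Equiv.symm_apply_apply] at h2
      rw [← h2] at h
      refine (le_of_eq h.symm).trans ?_
      exact Finset.le_sup (f := fun j => (FreeGroup.toWord
        (MulAut.congr (FreeGroup.freeGroupCongr e) a (FreeGroup.of j))).length)
        (Finset.mem_univ (e j))
  · intro g
    ext w
    show FreeGroup.freeGroupCongr e (MulAut.conj g ((FreeGroup.freeGroupCongr e).symm w)) = _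
    rw [MulAut.conj_apply, MulAut.conj_apply, map_mul, map_mul, map_inv,
      MulEquiv.apply_symm_apply]

end Pool.AutRed
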