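import Pool.Agent.Work.MP_8d5be4_out.Interface

set_option autoImplicit false

namespace Pool.AutRed

theorem blk_WH (hPOS : Stmt_POS) (hRBD : Stmt_RBD) : Stmt_WH := by
  intro K hK A R _ _ a b ha γ g hγ
  have h0 : ∀ h, ps (wG (A ⊕ R)) (γ⁻¹ (iA A R h)) = 0 := by
    intro h
    have := hPOS K hK A a ha
      (((posHom (wG (A ⊕ R))).comp (γ⁻¹ : MulAut (G (A ⊕ R))).toMonoidHom).comp (iA A R)) ?_ h
    · exact congrArg Multiplicative.toAdd this
    · intro h
      have e : γ⁻¹ (iA A R (a h)) = Phi K b g (γ⁻¹ (iA A R h)) := by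
        rw [← hγ, MulAut.mul_apply, MulAut.mul_apply, MulAut.apply_inv_self, hat_iA]
      have e2 := congrArg (ps (wG (A ⊕ R))) e
      rw [ps_Phi] at e2
      exact e2
  refine ⟨h0, ?_⟩
  exact hRBD A _ (wG (A ⊕ R)) ((γ⁻¹ : MulAut (G (A ⊕ R))).toMonoidHom.comp (iA A R)) h0

end Pool.AutRed
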