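import Mathlib

/-!
Row MP_8d5be4_al: conjugators in Aut(F_n).  Definitions and the basic interface.
-/

set_option autoImplicit false

namespace Pool.AutRed

/-- The free group of rank two; `true` is the letter `x`, `false` the letter `y`. -/
abbrev F2 : Type := FreeGroup Bool

def xx : F2 := FreeGroup.of true
def yy : F2 := FreeGroup.of false

/-- The commutator of the two letters. -/
def eps : F2 := xx * yy * xx⁻¹ * yy⁻¹

/-! ### positions -/

def posHom {J : Type} (w : J → ℤ × ℤ) : FreeGroup J →* Multiplicative (ℤ × ℤ) :=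
  FreeGroup.lift (fun j => Multiplicative.ofAdd (w j))

/-- The position of a group element for a weight on the letters. -/
def ps {J : Type} (w : J → ℤ × ℤ) (g : FreeGroup J) : ℤ × ℤ := Multiplicative.toAdd (posHom w g)

section
variable {J : Type} (w : J → ℤ × ℤ)

@[simp] theorem ps_one : ps w 1 = 0 := by simp [ps]

@[simp] theorem ps_mul (g h : FreeGroup J) : ps w (g * h) = ps w g + ps w h := by simp [ps]

@[simp] theorem ps_inv (g : FreeGroup J) : ps w g⁻¹ = - ps w g := by simp [ps]

@[simp] theorem ps_of (j : J) : ps w (FreeGroup.of j) = w j := by simp [ps, posHom]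

@[simp] theorem ps_pow (g : FreeGroup J) (n : ℕ) : ps w (g ^ n) = n • ps w g := by simp [ps]

@[simp] theorem ps_zpow (g : FreeGroup J) (n : ℤ) : ps w (g ^ n) = n • ps w g := by simp [ps]

theorem ps_conj (g h : FreeGroup J) : ps w (MulAut.conj g h) = ps w h := by
  simp [MulAut.conj_apply]

end

/-- The weight on `F2`: `x` has position `(1,0)` and `y` has position `(0,1)`. -/
def w2 : Bool → ℤ × ℤ := fun b => if b then (1, 0) else (0, 1)

@[simp] theorem ps_xx : ps w2 xx = (1, 0) := by simp [xx, w2]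
@[simp] theorem ps_yy : ps w2 yy = (0, 1) := by simp [yy, w2]
@[simp] theorem ps_eps : ps w2 eps = 0 := by simp [eps]

/-- The box of size `n`. -/
def Bx (n : ℕ) (s : ℤ × ℤ) : Prop := |s.1| ≤ (n : ℤ) ∧ |s.2| ≤ (n : ℤ)

theorem bx_zero (n : ℕ) : Bx n 0 := by simp [Bx]

theorem bx_mono {m n : ℕ} (h : m ≤ n) {s : ℤ × ℤ} (hs : Bx m s) : Bx n s :=
  ⟨hs.1.trans (by exact_mod_cast h), hs.2.trans (by exact_mod_cast h)⟩

theorem bx_neg {n : ℕ} {s : ℤ × ℤ} (hs : Bx n s) : Bx n (-s) := by
  simpa [Bx] using hs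

theorem bx_add {m n : ℕ} {s t : ℤ × ℤ} (hs : Bx m s) (ht : Bx n t) : Bx (m + n) (s + t) := by
  refine ⟨?_, ?_⟩
  · have := abs_add_le s.1 t.1
    have h1 := hs.1; have h2 := ht.1
    simp only [Prod.fst_add]; push_cast; linarith
  · have := abs_add_le s.2 t.2
    have h1 := hs.2; have h2 := ht.2
    simp only [Prod.snd_add]; push_cast; linarith

theorem bx_finite (n : ℕ) : {s : ℤ × ℤ | Bx n s}.Finite := by
  apply Set.Finite.subset ((Set.finite_Icc (-(n : ℤ)) n).prod (Set.finite_Icc (-(n : ℤ)) n))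
  rintro ⟨a, b⟩ ⟨h1, h2⟩
  exact ⟨abs_le.mp h1, abs_le.mp h2⟩

theorem bx_exists (s : ℤ × ℤ) : ∃ n : ℕ, Bx n s :=
  ⟨s.1.natAbs + s.2.natAbs, by
    refine ⟨?_, ?_⟩ <;> push_cast <;> (try simp only [Int.natCast_natAbs]) <;>
      [have := abs_nonneg s.2; have := abs_nonneg s.1] <;> linarith⟩

/-- One step in the Cayley graph, both ends with position in the box. -/
def Step {J : Type} (w : J → ℤ × ℤ) (n : ℕ) (g h : FreeGroup J) : Prop :=
  Bx n (ps w g) ∧ Bx n (ps w h) ∧ ∃ j : J, h = g * FreeGroup.of j ∨ g = h * FreeGroup.of j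

/-- `g` is joined to `1` by a path all of whose vertices have position in the box. -/
def Reach {J : Type} (w : J → ℤ × ℤ) (n : ℕ) (g : FreeGroup J) : Prop :=
  Relation.ReflTransGen (Step w n) 1 g

/-- Induction by adding one letter at the end. -/
theorem snoc_ind {J : Type} {P : FreeGroup J → Prop} (h1 : P 1)
    (hs : ∀ g j, P g → P (g * FreeGroup.of j))
    (hi : ∀ g j, P g → P (g * (FreeGroup.of j)⁻¹)) (g : FreeGroup J) : P g := by
  have key : ∀ L : List (J × Bool), P (FreeGroup.mk L) := by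
    intro L
    induction L using List.reverseRecOn with
    | nil => exact h1
    | append_singleton L a ih =>
      obtain ⟨j, b⟩ := a
      rw [← FreeGroup.mul_mk]
      cases b
      · have : FreeGroup.mk [(j, false)] = (FreeGroup.of j)⁻¹ := by
          simp [FreeGroup.of, FreeGroup.inv_mk, FreeGroup.invRev]
        rw [this]; exact hi _ _ ih
      · exact hs _ _ ih
  classical
  rw [← FreeGroup.mk_toWord (x := g)]
  exact key _

/-! ### the automorphism `psi` -/

def psiHom (K : ℕ) : F2 →* F2 :=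
  FreeGroup.lift (fun b => if b then xx ^ (K + 1) * yy * xx⁻¹ else xx)

def psiInv (K : ℕ) : F2 →* F2 :=
  FreeGroup.lift (fun b => if b then yy else (yy ^ (K + 1))⁻¹ * xx * yy)

theorem psiHom_xx (K : ℕ) : psiHom K xx = xx ^ (K + 1) * yy * xx⁻¹ := by
  simp [psiHom, xx]

theorem psiHom_yy (K : ℕ) : psiHom K yy = xx := by
  simp [psiHom, yy]

theorem psiInv_xx (K : ℕ) : psiInv K xx = yy := by
  simp [psiInv, xx]

theorem psiInv_yy (K : ℕ) : psiInv K yy = (yy ^ (K + 1))⁻¹ * xx * yy := by
  simp [psiInv, yy]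

theorem f2_ext {H : Type*} [Group H] {f g : F2 →* H} (hx : f xx = g xx) (hy : f yy = g yy) :
    f = g := by
  ext b
  cases b
  · exact hy
  · exact hx

/-- `x ↦ x^(K+1) y x⁻¹`, `y ↦ x`. -/
def psi (K : ℕ) : MulAut F2 :=
  MonoidHom.toMulEquiv (psiHom K) (psiInv K)
    (f2_ext (by simp [psiHom_xx, psiInv_xx, psiInv_yy]; group)
      (by simp [psiHom_yy, psiInv_xx]))
    (f2_ext (by simp [psiInv_xx, psiHom_yy])
      (by simp [psiInv_yy, psiHom_xx, psiHom_yy]; group))

@[simp] theorem psi_xx (K : ℕ) : psi K xx = xx ^ (K + 1) * yy * xx⁻¹ := psiHom_xx K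
@[simp] theorem psi_yy (K : ℕ) : psi K yy = xx := psiHom_yy K
@[simp] theorem psi_inv_xx (K : ℕ) : (psi K)⁻¹ xx = yy := psiInv_xx K

/-- The affine map on positions. -/
def TT (K : ℕ) (v s : ℤ × ℤ) : ℤ × ℤ := ((K : ℤ) * s.1 + s.2 + v.1, s.1 + v.2)

theorem ps_psi (K : ℕ) (c : F2) : ps w2 (psi K c) = TT K 0 (ps w2 c) := by
  induction c using snoc_ind with
  | h1 => ext <;> simp [TT]
  | hs g j ih =>
    rw [map_mul, ps_mul, ih, ps_mul]
    cases j
    · have : psi K (FreeGroup.of false) = xx := psi_yy K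
      rw [this]; ext <;> simp [TT, w2]
      ring
    · have : psi K (FreeGroup.of true) = xx ^ (K + 1) * yy * xx⁻¹ := psi_xx K
      rw [this]; ext <;> simp [TT, w2]
      ring
  | hi g j ih =>
    rw [map_mul, ps_mul, ih, ps_mul]
    cases j
    · have : psi K (FreeGroup.of false) = xx := psi_yy K
      rw [map_inv, this]; ext <;> simp [TT, w2]
      ring
    · have : psi K (FreeGroup.of true) = xx ^ (K + 1) * yy * xx⁻¹ := psi_xx K
      rw [map_inv, this]; ext <;> simp [TT, w2]
      ring

theorem psi_eps (K : ℕ) : psi K eps = xx ^ (K + 1) * eps⁻¹ * (xx ^ (K + 1))⁻¹ := by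
  simp only [eps, map_mul, map_inv, psi_xx, psi_yy]
  group

/-! ### the big group `G = F_Q * F2` and its structure `N ⋊ F2` -/

abbrev G (Q : Type) : Type := FreeGroup (Q ⊕ Bool)

/-- The weight on `G`. -/
def wG (Q : Type) : Q ⊕ Bool → ℤ × ℤ := Sum.elim (fun _ => 0) w2

/-- The projection `G → F2` killing the letters in `Q`. -/
def kap (Q : Type) : G Q →* F2 := FreeGroup.lift (Sum.elim (fun _ => 1) FreeGroup.of)

/-- The inclusion `F2 → G`. -/
def i2 (Q : Type) : F2 →* G Q := FreeGroup.map Sum.inr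

@[simp] theorem kap_of_inl {Q : Type} (q : Q) : kap Q (FreeGroup.of (Sum.inl q)) = 1 := by
  simp [kap]

@[simp] theorem kap_of_inr {Q : Type} (b : Bool) :
    kap Q (FreeGroup.of (Sum.inr b)) = FreeGroup.of b := by
  simp [kap]

@[simp] theorem i2_of {Q : Type} (b : Bool) : i2 Q (FreeGroup.of b) = FreeGroup.of (Sum.inr b) := by
  simp [i2]

@[simp] theorem kap_i2 {Q : Type} (c : F2) : kap Q (i2 Q c) = c := by
  have : (kap Q).comp (i2 Q) = MonoidHom.id _ := by ext b; simp
  exact DFunLike.congr_fun this c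

theorem i2_injective (Q : Type) : Function.Injective (i2 Q) := by
  intro a b h
  have := congrArg (kap Q) h
  simpa using this

theorem ps_kap {Q : Type} (g : G Q) : ps w2 (kap Q g) = ps (wG Q) g := by
  have : (posHom w2).comp (kap Q) = posHom (wG Q) := by
    refine FreeGroup.ext_hom _ _ ?_
    intro j
    rcases j with q | b <;> simp [posHom, wG]
  have h := DFunLike.congr_fun this g
  simp only [MonoidHom.comp_apply] at h
  simp [ps, h]

/-- The index group: free on pairs (letter, element of `F2`); `(q,c)` stands for `c q c⁻¹`. -/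
abbrev N (Q : Type) : Type := FreeGroup (Q × F2)

/-- `F2` acts on `N` by left translation of the index. -/
def act (Q : Type) : F2 →* MulAut (N Q) where
  toFun c := FreeGroup.freeGroupCongr (Equiv.prodCongr (Equiv.refl Q) (Equiv.mulLeft c))
  map_one' := by
    ext p
    simp
  map_mul' a b := by
    apply MulEquiv.toMonoidHom_injective
    ext p
    obtain ⟨q, c⟩ := p
    simp [mul_assoc]

@[simp] theorem act_of {Q : Type} (c : F2) (q : Q) (d : F2) :
    act Q c (FreeGroup.of (q, d)) = FreeGroup.of (q, c * d) := by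
  simp [act]

/-- The structure map. -/
def W (Q : Type) : G Q →* N Q ⋊[act Q] F2 :=
  FreeGroup.lift (Sum.elim (fun q => SemidirectProduct.inl (FreeGroup.of (q, 1)))
    (fun b => SemidirectProduct.inr (FreeGroup.of b)))

/-- The left part of an element of `G`. -/
def lft {Q : Type} (g : G Q) : N Q := (W Q g).left

theorem W_right {Q : Type} (g : G Q) : (W Q g).right = kap Q g := by
  have : (SemidirectProduct.rightHom (φ := act Q)).comp (W Q) = kap Q := by
    ext j
    rcases j with q | b <;> simp [W]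
  exact DFunLike.congr_fun this g

@[simp] theorem lft_one {Q : Type} : lft (1 : G Q) = 1 := by simp [lft]

theorem lft_mul {Q : Type} (g h : G Q) : lft (g * h) = lft g * act Q (kap Q g) (lft h) := by
  simp [lft, W_right]

theorem lft_inv {Q : Type} (g : G Q) : lft g⁻¹ = act Q (kap Q g)⁻¹ (lft g)⁻¹ := by
  simp [lft, W_right]

@[simp] theorem lft_i2 {Q : Type} (c : F2) : lft (i2 Q c) = 1 := by
  have : (W Q).comp (i2 Q) = SemidirectProduct.inr := by
    ext b <;> simp [W]
  have h := DFunLike.congr_fun this c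
  simp only [MonoidHom.comp_apply] at h
  simp [lft, h]

@[simp] theorem lft_of_inl {Q : Type} (q : Q) : lft (FreeGroup.of (Sum.inl q) : G Q) = FreeGroup.of (q, 1) := by
  simp [lft, W]

@[simp] theorem lft_of_inr {Q : Type} (b : Bool) : lft (FreeGroup.of (Sum.inr b) : G Q) = 1 := by
  simp [lft, W]

/-- `N → G`, `(q,c) ↦ c q c⁻¹`. -/
def back (Q : Type) : N Q →* G Q :=
  FreeGroup.lift (fun p => i2 Q p.2 * FreeGroup.of (Sum.inl p.1) * (i2 Q p.2)⁻¹)

@[simp] theorem back_of {Q : Type} (q : Q) (c : F2) :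
    back Q (FreeGroup.of (q, c)) = i2 Q c * FreeGroup.of (Sum.inl q) * (i2 Q c)⁻¹ := by
  simp [back]

@[simp] theorem kap_back {Q : Type} (u : N Q) : kap Q (back Q u) = 1 := by
  have : (kap Q).comp (back Q) = 1 := by
    ext p
    obtain ⟨q, c⟩ := p
    simp
  exact DFunLike.congr_fun this u

@[simp] theorem lft_back {Q : Type} (u : N Q) : lft (back Q u) = u := by
  have : (W Q).comp (back Q) = SemidirectProduct.inl := by
    ext p
    · obtain ⟨q, c⟩ := p
      have h2 : (W Q).comp (i2 Q) = SemidirectProduct.inr := by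
        ext b <;> simp [W]
      have h := DFunLike.congr_fun h2 c
      simp only [MonoidHom.comp_apply] at h
      have h3 : W Q (FreeGroup.of (Sum.inl q)) = SemidirectProduct.inl (FreeGroup.of (q, 1)) := by
        simp [W]
      simp only [MonoidHom.comp_apply, back_of, map_mul, map_inv, h, h3]
      simp
    · obtain ⟨q, c⟩ := p
      simp [W_right]
  have h := DFunLike.congr_fun this u
  simp only [MonoidHom.comp_apply] at h
  simp [lft, h]

theorem back_injective (Q : Type) : Function.Injective (back Q) := by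
  intro a b h
  simpa using congrArg lft h

theorem back_act {Q : Type} (c : F2) (u : N Q) :
    back Q (act Q c u) = i2 Q c * back Q u * (i2 Q c)⁻¹ := by
  have : (back Q).comp (act Q c).toMonoidHom = (MulAut.conj (i2 Q c)).toMonoidHom.comp (back Q) := by
    ext p
    obtain ⟨q, d⟩ := p
    simp [MulAut.conj_apply, mul_assoc]
  have h := DFunLike.congr_fun this u
  simpa [MulAut.conj_apply] using h

theorem back_lft {Q : Type} (g : G Q) : back Q (lft g) * i2 Q (kap Q g) = g := by
  induction g using snoc_ind with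
  | h1 => simp
  | hs g j ih =>
    rcases j with q | b
    · rw [lft_mul, map_mul, back_act, lft_of_inl, back_of]
      simp only [map_mul, kap_of_inl, map_one, mul_one, inv_one, one_mul]
      conv_rhs => rw [← ih]
      group
    · rw [lft_mul, lft_of_inr, map_one, mul_one, map_mul, kap_of_inr, map_mul, ← mul_assoc, ih, i2_of]
  | hi g j ih =>
    rcases j with q | b
    · rw [lft_mul, lft_inv, map_mul, back_act, kap_of_inl, lft_of_inl]
      simp only [inv_one, map_one, MulAut.one_apply, map_inv, back_of, map_mul, kap_of_inl,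
        mul_one, one_mul, inv_one]
      conv_rhs => rw [← ih]
      group
    · rw [lft_mul, lft_inv, lft_of_inr, inv_one, map_one, map_one, mul_one, map_mul, map_inv,
        kap_of_inr, map_mul, map_inv, ← mul_assoc, ih, i2_of]

theorem eq_back_of_kap {Q : Type} {g : G Q} (h : kap Q g = 1) : back Q (lft g) = g := by
  have := back_lft g
  rw [h] at this
  simpa using this

theorem g_ext {Q : Type} {g h : G Q} (h1 : lft g = lft h) (h2 : kap Q g = kap Q h) : g = h := by
  rw [← back_lft g, ← back_lft h, h1, h2]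

open Classical in
/-- Keep the generators satisfying `P`, kill the others. -/
noncomputable def keep {Q : Type} (P : Q × F2 → Prop) : N Q →* N Q :=
  FreeGroup.lift (fun p => if P p then FreeGroup.of p else 1)

theorem keep_of_pos {Q : Type} {P : Q × F2 → Prop} {p : Q × F2} (h : P p) :
    keep P (FreeGroup.of p) = FreeGroup.of p := by
  simp [keep, h]

theorem keep_of_neg {Q : Type} {P : Q × F2 → Prop} {p : Q × F2} (h : ¬ P p) :
    keep P (FreeGroup.of p) = 1 := by
  simp [keep, h]

/-- The subgroup of `N` generated by the generators satisfying `P`. -/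
def sub {Q : Type} (P : Q × F2 → Prop) : Subgroup (N Q) :=
  Subgroup.closure (FreeGroup.of '' {p | P p})

/-! ### the automorphisms `hat` of `G (A ⊕ R)` and `star` of `N (A ⊕ R)` -/

section
variable {A R : Type}

/-- The inclusion `F_A → G`. -/
def iA (A R : Type) : FreeGroup A →* G (A ⊕ R) := FreeGroup.map (Sum.inl ∘ Sum.inl)

@[simp] theorem iA_of (a : A) : iA A R (FreeGroup.of a) = FreeGroup.of (Sum.inl (Sum.inl a)) := by
  simp [iA]

theorem iA_injective (A R : Type) : Function.Injective (iA A R) :=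
  FreeGroup.map_injective (Sum.inl_injective.comp Sum.inl_injective)

@[simp] theorem kap_iA (h : FreeGroup A) : kap (A ⊕ R) (iA A R h) = 1 := by
  have : (kap (A ⊕ R)).comp (iA A R) = 1 := by ext a; simp
  exact DFunLike.congr_fun this h

def hatHom (b : FreeGroup A →* FreeGroup A) (f : F2 →* F2) (t : F2) : G (A ⊕ R) →* G (A ⊕ R) :=
  FreeGroup.lift (Sum.elim
    (Sum.elim (fun a => iA A R (b (FreeGroup.of a)))
      (fun r => i2 (A ⊕ R) t * FreeGroup.of (Sum.inl (Sum.inr r)) * (i2 (A ⊕ R) t)⁻¹))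
    (fun c => i2 (A ⊕ R) (f (FreeGroup.of c))))

@[simp] theorem hatHom_iA (b : FreeGroup A →* FreeGroup A) (f : F2 →* F2) (t : F2)
    (h : FreeGroup A) : hatHom (R := R) b f t (iA A R h) = iA A R (b h) := by
  have : (hatHom (R := R) b f t).comp (iA A R) = (iA A R).comp b := by
    ext a; simp [hatHom]
  exact DFunLike.congr_fun this h

@[simp] theorem hatHom_i2 (b : FreeGroup A →* FreeGroup A) (f : F2 →* F2) (t : F2)
    (c : F2) : hatHom (R := R) b f t (i2 (A ⊕ R) c) = i2 (A ⊕ R) (f c) := by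
  have : (hatHom (R := R) b f t).comp (i2 (A ⊕ R)) = (i2 (A ⊕ R)).comp f := by
    ext a; simp [hatHom]
  exact DFunLike.congr_fun this c

@[simp] theorem hatHom_r (b : FreeGroup A →* FreeGroup A) (f : F2 →* F2) (t : F2)
    (r : R) : hatHom b f t (FreeGroup.of (Sum.inl (Sum.inr r)) : G (A ⊕ R)) =
      i2 (A ⊕ R) t * FreeGroup.of (Sum.inl (Sum.inr r)) * (i2 (A ⊕ R) t)⁻¹ := by
  simp [hatHom]

theorem gAR_ext {H : Type*} [Group H] {f g : G (A ⊕ R) →* H}
    (h1 : ∀ h, f (iA A R h) = g (iA A R h))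
    (h2 : ∀ r, f (FreeGroup.of (Sum.inl (Sum.inr r))) = g (FreeGroup.of (Sum.inl (Sum.inr r))))
    (h3 : ∀ c, f (i2 (A ⊕ R) c) = g (i2 (A ⊕ R) c)) : f = g := by
  ext j
  rcases j with (a | r) | b
  · simpa using h1 (FreeGroup.of a)
  · exact h2 r
  · simpa using h3 (FreeGroup.of b)

/-- `b` on `F_A`, `psi` on `F2`, and `t ↦ x t x⁻¹` for the letters `t` in `R`. -/
def hat (K : ℕ) (b : MulAut (FreeGroup A)) : MulAut (G (A ⊕ R)) :=
  MonoidHom.toMulEquiv (hatHom b.toMonoidHom (psi K).toMonoidHom xx)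
    (hatHom (b⁻¹).toMonoidHom ((psi K)⁻¹).toMonoidHom yy⁻¹)
    (gAR_ext (by intro h; simp) (by
      intro r
      have : ((psi K)⁻¹ : MulAut F2).toMonoidHom xx = yy := psi_inv_xx K
      simp only [MonoidHom.comp_apply, hatHom_r, map_mul, map_inv, hatHom_i2, this, MonoidHom.id_apply]
      group) (by intro c; simp))
    (gAR_ext (by intro h; simp) (by
      intro r
      have : (psi K : MulAut F2).toMonoidHom yy = xx := psi_yy K
      simp only [MonoidHom.comp_apply, hatHom_r, map_mul, map_inv, hatHom_i2, this, MonoidHom.id_apply]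
      group) (by intro c; simp))

@[simp] theorem hat_iA (K : ℕ) (b : MulAut (FreeGroup A)) (h : FreeGroup A) :
    hat (R := R) K b (iA A R h) = iA A R (b h) :=
  hatHom_iA b.toMonoidHom (psi K).toMonoidHom xx h

@[simp] theorem hat_i2 (K : ℕ) (b : MulAut (FreeGroup A)) (c : F2) :
    hat (R := R) K b (i2 (A ⊕ R) c) = i2 (A ⊕ R) (psi K c) :=
  hatHom_i2 b.toMonoidHom (psi K).toMonoidHom xx c

@[simp] theorem hat_r (K : ℕ) (b : MulAut (FreeGroup A)) (r : R) :
    hat K b (FreeGroup.of (Sum.inl (Sum.inr r)) : G (A ⊕ R)) =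
      i2 (A ⊕ R) xx * FreeGroup.of (Sum.inl (Sum.inr r)) * (i2 (A ⊕ R) xx)⁻¹ :=
  hatHom_r b.toMonoidHom (psi K).toMonoidHom xx r

/-- `F_A → N`, placing everything at the index `c`. -/
def emb (A R : Type) (c : F2) : FreeGroup A →* N (A ⊕ R) :=
  FreeGroup.map (fun a => (Sum.inl a, c))

@[simp] theorem emb_of (c : F2) (a : A) : emb A R c (FreeGroup.of a) = FreeGroup.of (Sum.inl a, c) := by
  simp [emb]

def starHom (b : FreeGroup A →* FreeGroup A) (f : F2 →* F2) (t : F2) : N (A ⊕ R) →* N (A ⊕ R) :=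
  FreeGroup.lift (fun p => Sum.elim (fun a => emb A R (f p.2) (b (FreeGroup.of a)))
      (fun r => FreeGroup.of (Sum.inr r, f p.2 * t)) p.1)

@[simp] theorem starHom_emb (b : FreeGroup A →* FreeGroup A) (f : F2 →* F2) (t : F2)
    (c : F2) (h : FreeGroup A) :
    starHom (R := R) b f t (emb A R c h) = emb A R (f c) (b h) := by
  have : (starHom (R := R) b f t).comp (emb A R c) = (emb A R (f c)).comp b := by
    ext a; simp [starHom]
  exact DFunLike.congr_fun this h

@[simp] theorem starHom_r (b : FreeGroup A →* FreeGroup A) (f : F2 →* F2) (t : F2)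
    (c : F2) (r : R) :
    starHom b f t (FreeGroup.of (Sum.inr r, c) : N (A ⊕ R)) = FreeGroup.of (Sum.inr r, f c * t) := by
  simp [starHom]

theorem nAR_ext {H : Type*} [Group H] {f g : N (A ⊕ R) →* H}
    (h1 : ∀ c h, f (emb A R c h) = g (emb A R c h))
    (h2 : ∀ c r, f (FreeGroup.of (Sum.inr r, c)) = g (FreeGroup.of (Sum.inr r, c))) : f = g := by
  ext p
  obtain ⟨a | r, c⟩ := p
  · simpa using h1 c (FreeGroup.of a)
  · exact h2 c r

/-- The action of `hat` on `N`. -/
def star (K : ℕ) (b : MulAut (FreeGroup A)) : MulAut (N (A ⊕ R)) :=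
  MonoidHom.toMulEquiv (starHom b.toMonoidHom (psi K).toMonoidHom xx)
    (starHom (b⁻¹).toMonoidHom ((psi K)⁻¹).toMonoidHom yy⁻¹)
    (nAR_ext (by intro c h; simp) (by
      intro c r
      have : ((psi K)⁻¹ : MulAut F2).toMonoidHom xx = yy := psi_inv_xx K
      simp only [MonoidHom.comp_apply, starHom_r, map_mul, this, MonoidHom.id_apply]
      simp))
    (nAR_ext (by intro c h; simp) (by
      intro c r
      have : (psi K : MulAut F2).toMonoidHom yy = xx := psi_yy K
      simp only [MonoidHom.comp_apply, starHom_r, map_mul, map_inv, this, MonoidHom.id_apply]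
      simp))

@[simp] theorem star_emb (K : ℕ) (b : MulAut (FreeGroup A)) (c : F2) (h : FreeGroup A) :
    star (R := R) K b (emb A R c h) = emb A R (psi K c) (b h) :=
  starHom_emb b.toMonoidHom (psi K).toMonoidHom xx c h

@[simp] theorem star_r (K : ℕ) (b : MulAut (FreeGroup A)) (c : F2) (r : R) :
    star K b (FreeGroup.of (Sum.inr r, c) : N (A ⊕ R)) = FreeGroup.of (Sum.inr r, psi K c * xx) :=
  starHom_r b.toMonoidHom (psi K).toMonoidHom xx c r

@[simp] theorem act_emb (d c : F2) (h : FreeGroup A) :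
    act (A ⊕ R) d (emb A R c h) = emb A R (d * c) h := by
  have : (act (A ⊕ R) d).toMonoidHom.comp (emb A R c) = emb A R (d * c) := by
    ext a; simp
  exact DFunLike.congr_fun this h

@[simp] theorem back_emb (c : F2) (h : FreeGroup A) :
    back (A ⊕ R) (emb A R c h) = i2 (A ⊕ R) c * iA A R h * (i2 (A ⊕ R) c)⁻¹ := by
  have : (back (A ⊕ R)).comp (emb A R c) =
      (MulAut.conj (i2 (A ⊕ R) c)).toMonoidHom.comp (iA A R) := by
    ext a; simp [MulAut.conj_apply]
  have h' := DFunLike.congr_fun this h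
  simpa [MulAut.conj_apply] using h'

theorem star_act (K : ℕ) (b : MulAut (FreeGroup A)) (c : F2) (u : N (A ⊕ R)) :
    star K b (act (A ⊕ R) c u) = act (A ⊕ R) (psi K c) (star K b u) := by
  have : (star K b).toMonoidHom.comp (act (A ⊕ R) c).toMonoidHom =
      (act (A ⊕ R) (psi K c)).toMonoidHom.comp (star K b).toMonoidHom := by
    refine nAR_ext ?_ ?_
    · intro d h; simp
    · intro d r; simp [mul_assoc]
  exact DFunLike.congr_fun this u

theorem hat_back (K : ℕ) (b : MulAut (FreeGroup A)) (u : N (A ⊕ R)) :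
    hat K b (back (A ⊕ R) u) = back (A ⊕ R) (star K b u) := by
  have : (hat K b).toMonoidHom.comp (back (A ⊕ R)) =
      (back (A ⊕ R)).comp (star K b).toMonoidHom := by
    refine nAR_ext ?_ ?_
    · intro d h; simp
    · intro d r; simp [mul_assoc]
  exact DFunLike.congr_fun this u

@[simp] theorem kap_hat (K : ℕ) (b : MulAut (FreeGroup A)) (g : G (A ⊕ R)) :
    kap (A ⊕ R) (hat K b g) = psi K (kap (A ⊕ R) g) := by
  have : (kap (A ⊕ R)).comp (hat K b).toMonoidHom = (psi K).toMonoidHom.comp (kap (A ⊕ R)) := by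
    refine gAR_ext ?_ ?_ ?_
    · intro h; simp
    · intro r; simp
    · intro c; simp
  exact DFunLike.congr_fun this g

theorem lft_hat (K : ℕ) (b : MulAut (FreeGroup A)) (g : G (A ⊕ R)) :
    lft (hat K b g) = star K b (lft g) := by
  conv_lhs => rw [← back_lft g]
  rw [map_mul, hat_back, hat_i2, lft_mul, lft_back, lft_i2, map_one, mul_one]

theorem ps_hat (K : ℕ) (b : MulAut (FreeGroup A)) (g : G (A ⊕ R)) :
    ps (wG (A ⊕ R)) (hat K b g) = TT K 0 (ps (wG (A ⊕ R)) g) := by
  rw [← ps_kap, kap_hat, ps_psi, ps_kap]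

end

end Pool.AutRed
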