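import Pool.Agent.Work.MP_8d5be4_out.B_EXA
import Pool.Agent.Work.MP_8d5be4_out.B_NRM
import Pool.Agent.Work.MP_8d5be4_out.B_TRA
import Pool.Agent.Work.MP_8d5be4_out.B_TH2

/-!
Row MP_8d5be4_al: the final assembly (block FIN).
-/

set_option autoImplicit false

namespace Pool.AutRed

/-! ### bounds for arbitrary finite bases -/

/-- conjugate automorphisms have a conjugator of norm at most `f (‖a‖, ‖b‖)` -/
def AB (J : Type) [Fintype J] [DecidableEq J] (f : ℕ × ℕ → ℕ) : Prop :=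
  ∀ a b : MulAut (FreeGroup J), (∃ d : MulAut (FreeGroup J), d⁻¹ * a * d = b) →
    ∃ c : MulAut (FreeGroup J), c⁻¹ * a * c = b ∧ nrm c ≤ f (nrm a, nrm b)

/-- the same for conjugacy modulo inner automorphisms -/
def OB (J : Type) [Fintype J] [DecidableEq J] (f : ℕ × ℕ → ℕ) : Prop :=
  ∀ a b : MulAut (FreeGroup J),
    (∃ (d : MulAut (FreeGroup J)) (g : FreeGroup J), d⁻¹ * a * d = MulAut.conj g * b) →
    ∃ (c : MulAut (FreeGroup J)) (g : FreeGroup J), c⁻¹ * a * c = MulAut.conj g * b ∧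
      nrm c ≤ f (nrm a, nrm b)

theorem AB_transport (hT : Stmt_TRA) {J J' : Type} [Fintype J] [DecidableEq J] [Fintype J']
    [DecidableEq J'] (e : J ≃ J') {f : ℕ × ℕ → ℕ} (h : AB J f) : AB J' f := by
  obtain ⟨h1, -⟩ := hT J J' e
  set T := MulAut.congr (FreeGroup.freeGroupCongr e) with hTdef
  intro a b ⟨d, hd⟩
  obtain ⟨c, hc, hn⟩ := h (T.symm a) (T.symm b) ⟨T.symm d, by rw [← hd]; simp⟩
  refine ⟨T c, ?_, ?_⟩
  · apply T.symm.injective
    rw [map_mul, map_mul, map_inv, T.symm_apply_apply, hc]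
  · rw [h1 c]
    have e1 := h1 (T.symm a)
    have e2 := h1 (T.symm b)
    rw [T.apply_symm_apply] at e1 e2
    rw [e1, e2]
    exact hn

theorem OB_transport (hT : Stmt_TRA) {J J' : Type} [Fintype J] [DecidableEq J] [Fintype J']
    [DecidableEq J'] (e : J ≃ J') {f : ℕ × ℕ → ℕ} (h : OB J f) : OB J' f := by
  obtain ⟨h1, h2⟩ := hT J J' e
  set T := MulAut.congr (FreeGroup.freeGroupCongr e) with hTdef
  intro a b ⟨d, g, hd⟩
  have hg : T.symm (MulAut.conj g) = MulAut.conj ((FreeGroup.freeGroupCongr e).symm g) := by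
    apply T.injective
    rw [T.apply_symm_apply, h2, MulEquiv.apply_symm_apply]
  obtain ⟨c, g', hc, hn⟩ := h (T.symm a) (T.symm b)
    ⟨T.symm d, (FreeGroup.freeGroupCongr e).symm g, by
      rw [← hg, ← map_inv, ← map_mul, ← map_mul, hd, map_mul]⟩
  refine ⟨T c, FreeGroup.freeGroupCongr e g', ?_, ?_⟩
  · apply T.symm.injective
    rw [map_mul, map_mul, map_inv, T.symm_apply_apply, hc, ← h2, map_mul, T.symm_apply_apply]
  · rw [h1 c]
    have e1 := h1 (T.symm a)
    have e2 := h1 (T.symm b)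
    rw [T.apply_symm_apply] at e1 e2
    rw [e1, e2]
    exact hn

/-! ### extending conjugators -/

section
variable {A R : Type}

/-- the extension of `d` by the identity -/
def ext1 (d : MulAut (FreeGroup A)) : MulAut (G (A ⊕ R)) :=
  MonoidHom.toMulEquiv (hatHom d.toMonoidHom (MonoidHom.id F2) 1)
    (hatHom (d⁻¹).toMonoidHom (MonoidHom.id F2) 1)
    (gAR_ext (by intro h; simp) (by intro r; simp) (by intro c; simp))
    (gAR_ext (by intro h; simp) (by intro r; simp) (by intro c; simp))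

theorem ext1_iA (d : MulAut (FreeGroup A)) (h : FreeGroup A) :
    ext1 (R := R) d (iA A R h) = iA A R (d h) :=
  hatHom_iA d.toMonoidHom (MonoidHom.id F2) 1 h

theorem ext1_i2 (d : MulAut (FreeGroup A)) (c : F2) :
    ext1 (R := R) d (i2 (A ⊕ R) c) = i2 (A ⊕ R) c :=
  hatHom_i2 d.toMonoidHom (MonoidHom.id F2) 1 c

theorem ext1_r (d : MulAut (FreeGroup A)) (r : R) :
    ext1 d (FreeGroup.of (Sum.inl (Sum.inr r)) : G (A ⊕ R)) =
      FreeGroup.of (Sum.inl (Sum.inr r)) := by
  have := hatHom_r (A := A) (R := R) d.toMonoidHom (MonoidHom.id F2) 1 r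
  simpa [ext1] using this

theorem ext1_conj (K : ℕ) {a b d : MulAut (FreeGroup A)} (h : d⁻¹ * a * d = b) :
    (ext1 (R := R) d)⁻¹ * hat K a * ext1 d = hat K b := by
  have h' : a * d = d * b := by rw [← h]; group
  have key : hat K a * ext1 d = ext1 (R := R) d * hat K b := by
    apply MulEquiv.toMonoidHom_injective
    refine gAR_ext ?_ ?_ ?_
    · intro x
      have := congrArg (fun t : MulAut (FreeGroup A) => t x) h'
      simp only [MulAut.mul_apply] at this
      simp [MulAut.mul_apply, ext1_iA, this]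
    · intro r
      simp [MulAut.mul_apply, ext1_i2, ext1_r]
    · intro c
      simp [MulAut.mul_apply, ext1_i2]
  rw [mul_assoc, key]; group

end

theorem norm_le_nrm {J : Type} [Fintype J] [DecidableEq J] (a : MulAut (FreeGroup J)) (j : J) :
    (a (FreeGroup.of j)).norm ≤ nrm a :=
  Finset.le_sup (f := fun j => (FreeGroup.toWord (a (FreeGroup.of j))).length) (Finset.mem_univ j)

theorem norm_iA {A R : Type} [DecidableEq A] [DecidableEq R] (h : FreeGroup A) :
    (iA A R h).norm = h.norm := by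
  have := NRM_map (Sum.inl ∘ Sum.inl : A → (A ⊕ R) ⊕ Bool) (Sum.inl_injective.comp Sum.inl_injective) h
  show (FreeGroup.toWord (iA A R h)).length = (FreeGroup.toWord h).length
  rw [iA, this, List.length_map]

section
variable {A R : Type} [Fintype A] [DecidableEq A] [Fintype R] [DecidableEq R]

theorem AB_down (hTH1 : Stmt_TH1) (hEXA : Stmt_EXA) {f : ℕ × ℕ → ℕ} (h : AB ((A ⊕ R) ⊕ Bool) f) :
    AB A (fun p => f (max p.1 p.2 + 5, max p.1 p.2 + 5)) := by
  intro a b ⟨d, hd⟩
  set K := max (nrm a) (nrm b) + 2 with hK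
  have ha : nrm a ≤ K := by have := le_max_left (nrm a) (nrm b); omega
  have hb : nrm b ≤ K := by have := le_max_right (nrm a) (nrm b); omega
  obtain ⟨γ, hγ, hn⟩ := h (hat K a) (hat K b) ⟨ext1 d, ext1_conj K hd⟩
  obtain ⟨c, hc, hcγ⟩ := hTH1 K (by omega) A R a b (fun i => (norm_le_nrm a i).trans ha)
    (fun i => (norm_le_nrm b i).trans hb) γ hγ
  refine ⟨c, hc, ?_⟩
  have e1 : nrm (hat (R := R) K a) = max (nrm a) (nrm b) + 5 := hEXA K A R a ha
  have e2 : nrm (hat (R := R) K b) = max (nrm a) (nrm b) + 5 := hEXA K A R b hb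
  rw [e1, e2] at hn
  refine le_trans (Finset.sup_le fun i _ => ?_) hn
  have h1 : (FreeGroup.toWord (c (FreeGroup.of i))).length = (γ (iA A R (FreeGroup.of i))).norm := by
    rw [hcγ, norm_iA]; rfl
  rw [h1, iA_of]
  exact norm_le_nrm γ _

theorem OB_down (hTH2 : Stmt_TH2) (hEXA : Stmt_EXA) (hNRM : Stmt_NRM) [IsEmpty R]
    {F : ℕ × ℕ → ℕ} (h : OB ((A ⊕ R) ⊕ Bool) F) :
    AB A (fun p => 2 * F (max p.1 p.2 + 5, max p.1 p.2 + 5)) := by
  intro a b ⟨d, hd⟩
  rcases isEmpty_or_nonempty A with hA | hA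
  · refine ⟨d, hd, ?_⟩
    have : nrm d = 0 := by simp [nrm]
    rw [this]; exact Nat.zero_le _
  set K := max (nrm a) (nrm b) + 2 with hK
  have ha : nrm a ≤ K := by have := le_max_left (nrm a) (nrm b); omega
  have hb : nrm b ≤ K := by have := le_max_right (nrm a) (nrm b); omega
  obtain ⟨γ, g, hγ, hn⟩ := h (hat K a) (hat K b) ⟨ext1 d, 1, by
    rw [ext1_conj K hd, map_one, one_mul]⟩
  obtain ⟨u, c, ρ, hc, hu1, hu2⟩ := hTH2 K (by omega) A R a b
    (fun i => (norm_le_nrm a i).trans ha) (fun i => (norm_le_nrm b i).trans hb) γ g hγ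
  refine ⟨c, hc, ?_⟩
  have e1 : nrm (hat (R := R) K a) = max (nrm a) (nrm b) + 5 := hEXA K A R a ha
  have e2 : nrm (hat (R := R) K b) = max (nrm a) (nrm b) + 5 := hEXA K A R b hb
  rw [e1, e2] at hn
  have key := hNRM A R u c ρ (nrm γ) (by
      intro i
      rw [← hu1, iA_of]
      exact norm_le_nrm γ _) (by
      intro j
      rw [← hu2, i2_of]
      exact norm_le_nrm γ _)
  refine (Finset.sup_le fun i _ => key i).trans ?_
  exact Nat.mul_le_mul_left 2 hn

end

end Pool.AutRed
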