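import Pool.Agent.Work.MP_8d5be4_out.Final
import Pool.Agent.Work.MP_8d5be4_out.B_ABL
import Pool.Agent.Work.MP_8d5be4_out.B_CNJ
import Pool.Agent.Work.MP_8d5be4_out.B_COC
import Pool.Agent.Work.MP_8d5be4_out.B_DET
import Pool.Agent.Work.MP_8d5be4_out.B_ESC
import Pool.Agent.Work.MP_8d5be4_out.B_FIX
import Pool.Agent.Work.MP_8d5be4_out.B_FXE
import Pool.Agent.Work.MP_8d5be4_out.B_IRR
import Pool.Agent.Work.MP_8d5be4_out.B_KEP
import Pool.Agent.Work.MP_8d5be4_out.B_KW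
import Pool.Agent.Work.MP_8d5be4_out.B_LEN
import Pool.Agent.Work.MP_8d5be4_out.B_LL
import Pool.Agent.Work.MP_8d5be4_out.B_MAI
import Pool.Agent.Work.MP_8d5be4_out.B_POS
import Pool.Agent.Work.MP_8d5be4_out.B_PUL
import Pool.Agent.Work.MP_8d5be4_out.B_RBD
import Pool.Agent.Work.MP_8d5be4_out.B_RCH
import Pool.Agent.Work.MP_8d5be4_out.B_RCL
import Pool.Agent.Work.MP_8d5be4_out.B_RIG
import Pool.Agent.Work.MP_8d5be4_out.B_RKA
import Pool.Agent.Work.MP_8d5be4_out.B_RLF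
import Pool.Agent.Work.MP_8d5be4_out.B_SIG
import Pool.Agent.Work.MP_8d5be4_out.B_SUP
import Pool.Agent.Work.MP_8d5be4_out.B_TH1
import Pool.Agent.Work.MP_8d5be4_out.B_WH

/-!
Row MP_8d5be4_al: all blocks together.
-/

set_option autoImplicit false

namespace Pool.AutRed

theorem all_LL : Stmt_LL := blk_LL (blk_ESC blk_IRR) blk_RCH blk_RCL blk_PUL blk_DET
theorem all_RLF : Stmt_RLF := blk_RLF blk_RKA
theorem all_SUP : Stmt_SUP := blk_SUP blk_KEP
theorem all_FXE : Stmt_FXE := blk_FXE all_SUP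
theorem all_MAI : Stmt_MAI := blk_MAI all_LL (blk_ESC blk_IRR) blk_RCH blk_RKA all_RLF blk_KEP
theorem all_WH : Stmt_WH := blk_WH (blk_POS blk_IRR) (blk_RBD blk_RCH)
theorem all_TH1 : Stmt_TH1 := blk_TH1 all_WH all_MAI
theorem all_CNJ : Stmt_CNJ := blk_CNJ (blk_ESC blk_IRR) blk_RCH all_RLF blk_KEP blk_COC
theorem all_KW : Stmt_KW := blk_KW all_WH all_CNJ blk_ABL all_LL blk_RKA
theorem all_FIX : Stmt_FIX := blk_FIX all_LL blk_RCH all_RLF blk_KEP blk_COC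
theorem all_RIG : Stmt_RIG := blk_RIG all_SUP blk_LEN
theorem all_SIG : Stmt_SIG := blk_SIG all_CNJ blk_RCH all_RIG all_FXE
theorem all_TH2 : Stmt_TH2 := blk_TH2 all_KW all_WH all_FIX all_SIG all_TH1

/-- Rank `N` gives rank `n` for `n + 2 ≤ N`. -/
theorem aut_down {n N : ℕ} (h : n + 2 ≤ N) {f : ℕ × ℕ → ℕ} (hf : AB (Fin N) f) :
    AB (Fin n) (fun p => f (max p.1 p.2 + 5, max p.1 p.2 + 5)) := by
  have e : Fin N ≃ (Fin n ⊕ Fin (N - n - 2)) ⊕ Bool := by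
    apply Fintype.equivOfCardEq
    simp
    omega
  exact AB_down all_TH1 blk_EXA (AB_transport blk_TRA e hf)

/-- `Out` in rank `n + 2` gives `Aut` in rank `n`. -/
theorem out_down {n : ℕ} {F : ℕ × ℕ → ℕ} (hF : OB (Fin (n + 2)) F) :
    AB (Fin n) (fun p => 2 * F (max p.1 p.2 + 5, max p.1 p.2 + 5)) := by
  have e : Fin (n + 2) ≃ (Fin n ⊕ Fin 0) ⊕ Bool := by
    apply Fintype.equivOfCardEq
    simp
  exact OB_down all_TH2 blk_EXA blk_NRM (OB_transport blk_TRA e hF)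

theorem comp_max {f : ℕ × ℕ → ℕ} (hf : Computable f) :
    Computable (fun p : ℕ × ℕ => f (max p.1 p.2 + 5, max p.1 p.2 + 5)) := by
  have h1 : Primrec (fun p : ℕ × ℕ => max p.1 p.2 + 5) :=
    Primrec.nat_add.comp (Primrec.nat_max.comp Primrec.fst Primrec.snd) (Primrec.const 5)
  exact hf.comp (Primrec.pair h1 h1).to_comp

theorem comp_two {f : ℕ × ℕ → ℕ} (hf : Computable f) :
    Computable (fun p : ℕ × ℕ => 2 * f (max p.1 p.2 + 5, max p.1 p.2 + 5)) := by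
  have h1 : Primrec (fun m : ℕ => 2 * m) := Primrec.nat_mul.comp (Primrec.const 2) Primrec.id
  exact h1.to_comp.comp (comp_max hf)

end Pool.AutRed
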