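import Pool.Agent.Work.MP_8d5be4_out.Defs

/-!
Row MP_8d5be4_al: statements of the blocks.  Every docstring is the full proof of its block.
The whole proof is in note 2937.  `theta = i_d psi`, `Phi = i_q hat(b)`.
-/

set_option autoImplicit false

open Filter

namespace Pool.AutRed

/-! ### iterates (proved here) -/

/-- `theta = i_d psi`. -/
abbrev theta (K : ℕ) (d : F2) : MulAut F2 := MulAut.conj d * psi K

/-- `Phi = i_q hat(b)`. -/
abbrev Phi {A R : Type} (K : ℕ) (b : MulAut (FreeGroup A)) (q : G (A ⊕ R)) : MulAut (G (A ⊕ R)) :=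
  MulAut.conj q * hat K b

theorem ps_theta (K : ℕ) (d c : F2) :
    ps w2 (theta K d c) = TT K 0 (ps w2 c) := by
  rw [MulAut.mul_apply, ps_conj, ps_psi]

theorem ps_theta_pow (K : ℕ) (d c : F2) (k : ℕ) :
    ps w2 ((theta K d ^ k) c) = (TT K 0)^[k] (ps w2 c) := by
  induction k with
  | zero => simp
  | succ k ih => rw [pow_succ', MulAut.mul_apply, ps_theta, ih, Function.iterate_succ_apply']

section
variable {A R : Type}

theorem ps_Phi (K : ℕ) (b : MulAut (FreeGroup A)) (q w : G (A ⊕ R)) :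
    ps (wG (A ⊕ R)) (Phi K b q w) = TT K 0 (ps (wG (A ⊕ R)) w) := by
  rw [MulAut.mul_apply, ps_conj, ps_hat]

theorem ps_Phi_pow (K : ℕ) (b : MulAut (FreeGroup A)) (q w : G (A ⊕ R)) (k : ℕ) :
    ps (wG (A ⊕ R)) ((Phi K b q ^ k) w) = (TT K 0)^[k] (ps (wG (A ⊕ R)) w) := by
  induction k with
  | zero => simp
  | succ k ih => rw [pow_succ', MulAut.mul_apply, ps_Phi, ih, Function.iterate_succ_apply']

theorem kap_Phi (K : ℕ) (b : MulAut (FreeGroup A)) (q w : G (A ⊕ R)) :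
    kap (A ⊕ R) (Phi K b q w) =
      theta K (kap (A ⊕ R) q) (kap (A ⊕ R) w) := by
  simp [MulAut.conj_apply]

theorem kap_Phi_pow (K : ℕ) (b : MulAut (FreeGroup A)) (q w : G (A ⊕ R)) (k : ℕ) :
    kap (A ⊕ R) ((Phi K b q ^ k) w) =
      (theta K (kap (A ⊕ R) q) ^ k) (kap (A ⊕ R) w) := by
  induction k with
  | zero => simp
  | succ k ih =>
    rw [pow_succ', MulAut.mul_apply, kap_Phi, ih, pow_succ']
    rfl

/-- `tau(c) = e psi(c)`. -/
def tau (K : ℕ) (e c : F2) : F2 := e * psi K c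

/-- `D = act(e) star`. -/
def DD (K : ℕ) (b : MulAut (FreeGroup A)) (e : F2) : MulAut (N (A ⊕ R)) :=
  act (A ⊕ R) e * star K b

theorem DD_emb (K : ℕ) (b : MulAut (FreeGroup A)) (e c : F2) (h : FreeGroup A) :
    DD (R := R) K b e (emb A R c h) = emb A R (tau K e c) (b h) := by
  simp [DD, tau]

theorem DD_pow_emb (K : ℕ) (b : MulAut (FreeGroup A)) (e c : F2) (h : FreeGroup A) (k : ℕ) :
    (DD (R := R) K b e ^ k) (emb A R c h) = emb A R ((tau K e)^[k] c) ((b ^ k) h) := by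
  induction k with
  | zero => simp
  | succ k ih =>
    rw [pow_succ', MulAut.mul_apply, ih, DD_emb, Function.iterate_succ_apply', pow_succ' b,
      MulAut.mul_apply]

theorem ps_tau_iter (K : ℕ) (e c : F2) (k : ℕ) :
    ps w2 ((tau K e)^[k] c) = (TT K (ps w2 e))^[k] (ps w2 c) := by
  induction k with
  | zero => simp
  | succ k ih =>
    rw [Function.iterate_succ_apply', Function.iterate_succ_apply', ← ih, tau, ps_mul, ps_psi]
    ext <;> simp [TT] <;> ring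

end

/-! ### arithmetic -/

/-- IRR (20 lines). `lam = (K + sqrt(K^2+4))/2`.  `lam > K` since `K^2+4 > K^2`.  If `lam s1 + s2 = 0`
with `s ≠ 0` then `s1 ≠ 0` and `r = -s2/s1` is a rational root of `X^2 - K X - 1`:
`s2^2 + K s1 s2 - s1^2 = 0`, i.e. `(2 s2 + K s1)^2 = (K^2+4) s1^2`, so `K^2+4` is a square of a
rational, hence of an integer `m`, `K < m < K + 2`, `m = K+1`, `2K+1 = 4`, impossible.
(For instance: `irrational_sqrt_natCast_iff` and `IsSquare`.) -/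
def Stmt_IRR : Prop := ∀ K : ℕ, 1 ≤ K → ∃ lam : ℝ, (K : ℝ) < lam ∧ lam ^ 2 = K * lam + 1 ∧
  ∀ s : ℤ × ℤ, lam * s.1 + s.2 = 0 → s = 0

/-- ESC (50 lines, uses IRR). Put `l(s) = lam s1 + s2`; `l(TT K 0 s) = lam l(s)`, and
`TT K v s - TT K v t = TT K 0 (s - t)`.  The map `TT K v` is injective.
Let `D = TT K v s - s ≠ 0`, `s_k = (TT K v)^[k] s`; then `s_{k+1} - s_k = (TT K 0)^[k] D`.
The sequence `s_k` is injective: `s_i = s_j` with `i < j` gives (same orbit afterwards)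
`s_{i+1} = s_{j+1}`, so `(TT K 0)^[i] D = (TT K 0)^[j] D`, `lam^i l(D) = lam^j l(D)`, `l(D) = 0`,
`D = 0`.  An injective sequence leaves the finite set `{s | Bx n s}` (`bx_finite`):
`Function.Injective.tendsto_cofinite`, `Nat.cofinite_eq_atTop`. -/
def Stmt_ESC : Prop := ∀ K : ℕ, 1 ≤ K → ∀ v s : ℤ × ℤ, TT K v s ≠ s →
  ∀ n : ℕ, ∀ᶠ k in atTop, ¬ Bx n ((TT K v)^[k] s)

/-- NOF (proved here). -/
theorem nofix {K : ℕ} {v s : ℤ × ℤ} (h : TT K v s = s) : (K : ℤ) ∣ v.1 + v.2 := by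
  have h1 := congrArg Prod.fst h
  have h2 := congrArg Prod.snd h
  simp only [TT] at h1 h2
  exact ⟨-s.1, by linarith⟩

theorem fix0 {K : ℕ} (hK : 1 ≤ K) {s : ℤ × ℤ} (h : TT K 0 s = s) : s = 0 := by
  have h1 := congrArg Prod.fst h
  have h2 := congrArg Prod.snd h
  simp only [TT, Prod.fst_zero, Prod.snd_zero, add_zero] at h1 h2
  have hK' : (0 : ℤ) < K := by exact_mod_cast hK
  have h3 : (K : ℤ) * s.1 = 0 := by linarith
  have h4 : s.1 = 0 := by
    rcases mul_eq_zero.mp h3 with h | h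
    · omega
    · exact h
  ext
  · exact h4
  · simp; omega

/-- POS (60 lines, uses IRR). Let `l(s) = lam s1 + s2` and `q = toAdd (P h)`.  With
`C = sum over the letters a of |l(P a)|` we have `|l(P h')| ≤ C * norm h'` for every `h'`
(snoc_ind on words or on `toWord`), and `norm (b^k h) ≤ K^k * norm h` (the image of a word of length
`m` under `b` has length at most `K m`).  `l(TT K 0 s) = lam l(s)` gives
`lam^k |l(q)| = |l(P (b^k h))| ≤ C K^k norm h` for all `k`; as `lam > K ≥ 1` this forces `l(q) = 0`,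
so `q = 0` by IRR. -/
def Stmt_POS : Prop := ∀ K : ℕ, 1 ≤ K → ∀ (A : Type) [Fintype A] [DecidableEq A]
  (b : MulAut (FreeGroup A)), (∀ a, (b (FreeGroup.of a)).norm ≤ K) →
  ∀ P : FreeGroup A →* Multiplicative (ℤ × ℤ),
    (∀ h, Multiplicative.toAdd (P (b h)) = TT K 0 (Multiplicative.toAdd (P h))) → ∀ h, P h = 1

/-! ### paths in boxes -/

/-- RCH (80 lines). `Step` is symmetric, `Step w n g h → Step w n (z g) (z h)` if `ps w z = 0`, and
`Step w n g h → Step w (m+n) (z g) (z h)` if `Bx m (ps w z)`; the same for `ReflTransGen`.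
(1) last vertex (or `bx_zero`).  (2) `1 → u`, then the path of `v` translated by `u`.
(3) translate the path `1 → u` by `u⁻¹` and reverse it.  (4) `Reach w n u`, `Reach w n v`: the path
`1 → u` translated by `u⁻¹` joins `u⁻¹` to `1` inside the box `2n`; the path of `v` translated by
`u⁻¹` joins `u⁻¹` to `u⁻¹ v` inside the box `2n`.  (5) `snoc_ind` with `bx_exists`, `bx_mono`.
(6) monotone. -/
def Stmt_RCH : Prop := ∀ (J : Type) (w : J → ℤ × ℤ),
  (∀ n g, Reach w n g → Bx n (ps w g)) ∧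
  (∀ n u v, Reach w n u → ps w u = 0 → Reach w n v → Reach w n (u * v)) ∧
  (∀ n u, Reach w n u → ps w u = 0 → Reach w n u⁻¹) ∧
  (∀ n u v, Reach w n u → Reach w n v → Reach w (2 * n) (u⁻¹ * v)) ∧
  (∀ g, ∃ n, Reach w n g) ∧
  (∀ m n g, m ≤ n → Reach w m g → Reach w n g)

/-- RKA (25 lines). A step of `G` is mapped by `kap` to a step of `F2` (letter in `Bool`) or to an
equality (letter in `Q`); use `ps_kap`. -/
def Stmt_RKA : Prop := ∀ (Q : Type) (n : ℕ) (g : G Q), Reach (wG Q) n g → Reach w2 n (kap Q g)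

/-- RBD (30 lines, uses RCH). `n` = maximum over the letters `a` (finite type) of numbers given by
RCH (5) for `f (of a)`; then `snoc_ind` with RCH (2), (3), (6). -/
def Stmt_RBD : Prop := ∀ (A : Type) [Fintype A] (J : Type) (w : J → ℤ × ℤ)
  (f : FreeGroup A →* FreeGroup J), (∀ h, ps w (f h) = 0) → ∃ n, ∀ h, Reach w n (f h)

/-! ### Lemma L -/

/-- Generated by the conjugates `g eps g⁻¹` with position of `g` in `U`. -/
def Cl (U : ℤ × ℤ → Prop) : Subgroup F2 :=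
  Subgroup.closure {c | ∃ g : F2, U (ps w2 g) ∧ c = g * eps * g⁻¹}

/-- `p_s = x^s1 y^s2`. -/
def pt (s : ℤ × ℤ) : F2 := xx ^ s.1 * yy ^ s.2

/-- RCL (90 lines). For `Bx n s` and `Bx n (s + (1,0))`:
`pt s * xx * (pt (s + (1,0)))⁻¹ = x^s1 * (y^s2 x y^-s2 x⁻¹) * x^-s1` lies in `Cl (Bx n)`: put
`e_j = y^j x y^-j x⁻¹`, `e_0 = 1`, `e_{j+1} = y^j (y x y⁻¹ x⁻¹) y^-j * e_j = (y^j eps⁻¹ y^-j) e_j` and
`e_{j-1} = (y^(j-1) eps y^-(j-1)) e_j`; the positions used are `(s1, j)` with `j` between `0` and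
`s2`, so `e_{s2}` conjugated by `x^s1` is in `Cl (Bx n)` (induction on `s2 : ℤ`, two directions, `Int.induction_on`
with the hypothesis `|s2| ≤ n`).
`pt s * yy * (pt (s + (0,1)))⁻¹ = 1`.  Hence for a step `g → h` in the box,
`(g * (pt (ps g))⁻¹)⁻¹ * (h * (pt (ps h))⁻¹) ∈ Cl (Bx n)` (for `h = g * of j` this is
`pt (ps g) * of j * (pt (ps h))⁻¹`), and so for a path from `1` to `c`,
`c * (pt (ps c))⁻¹ ∈ Cl (Bx n)`; `pt 0 = 1`. -/
def Stmt_RCL : Prop := ∀ (n : ℕ) (c : F2), Reach w2 n c → ps w2 c = 0 → c ∈ Cl (Bx n)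

/-- PUL (50 lines). `theta = i_d psi`.  `theta (g eps g⁻¹) = k eps⁻¹ k⁻¹`, `k = d psi(g) x^(K+1)`
(`psi_eps`), `ps k = TT K (ps d + (K+1,0)) (ps g)` (`ps_psi`).  So if `theta c ∈ Cl U` then
`c ∈ Cl (fun s => U (TT K v s))`, `v = ps d + (K+1,0)`: the subgroup `Cl U` is contained in the
image of `Cl (fun s => U (TT K v s))` under `theta`, since a generator `k eps k⁻¹`, `U (ps k)`, is
`theta (g eps⁻¹ g⁻¹)` with `g = psi⁻¹ (d⁻¹ k x^-(K+1))`.  Iterate. -/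
def Stmt_PUL : Prop := ∀ (K : ℕ) (d : F2) (U : ℤ × ℤ → Prop) (k : ℕ) (c : F2),
  (theta K d ^ k) c ∈ Cl U →
    c ∈ Cl (fun s => U ((TT K (ps w2 d + ((K : ℤ) + 1, 0)))^[k] s))

/-- DET (120 lines). Let `H = FreeGroup (ℤ × ℤ) ⋊ Multiplicative (ℤ × ℤ)` (shift action
`t • f_s = f_(t+s)`, defined like `act`) and `Th : F2 →* H`, `x ↦ (f_0, (1,0))`, `y ↦ (1, (0,1))`.
`(Th g).right = ps g`.  `bk : FreeGroup (ℤ×ℤ) →* F2`, `f_s ↦ pt s * xx * (pt (s + (1,0)))⁻¹`.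
(a) `g = bk (Th g).left * pt (ps g)` (`snoc_ind`), so `ps c = 0` and `(Th c).left = 1` imply
`c = 1`.
(b) For `ps g = s`: `(Th (g eps g⁻¹)).left = l * f_s * f_(s+(0,1))⁻¹ * l⁻¹`, `l = (Th g).left`.
(c) `c ↦ (Th c).left` is multiplicative on the kernel of `ps`.
(d) `(Th c).left` involves finitely many `f_s`, all with `Bx m s` for some `m`.
`ev m : f_(i,j) ↦ f_(i, max (-m) (min (m+1) j))` if `|i| ≤ m` and `f_(i,0)` otherwise.
It fixes `f_s` for `Bx m s`, and `ev (f_s) = ev (f_(s+(0,1)))` if not `Bx m s`.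
So `ev` fixes `(Th c).left` and kills `(Th c').left` for `c' ∈ Cl U` when `U` is disjoint from
the box `m` (closure induction, (b), (c)). -/
def Stmt_DET : Prop := ∀ c : F2, ps w2 c = 0 → c ≠ 1 →
  ∃ m : ℕ, ∀ U : ℤ × ℤ → Prop, (∀ s, U s → ¬ Bx m s) → c ∉ Cl U

/-- LL (50 lines, uses ESC, RCH (1), RCL, PUL, DET). Suppose `Reach w2 n (theta^k c)` for infinitely
many `k` (`Filter.Frequently`).  `ps (theta^k c) = (TT K 0)^[k] (ps c)` (`ps_theta_pow`), so by ESC and `fix0`,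
`ps c = 0` and so `ps (theta^k c) = 0` for all `k`.  Let `m` be given by DET for `c`.
`v = ps d + (K+1,0)`, `TT K v` has no fixed point (`nofix`: `K ∣ v1 + v2` iff `K ∣ 1 + d1 + d2`).
By ESC, for each of the finitely many `s` in the box `m`, `(TT K v)^[k] s` is outside the box `n` for
all large `k`; take such a `k` with `Reach w2 n (theta^k c)`: RCL, PUL contradict DET with
`U = fun s => Bx n ((TT K v)^[k] s)`. -/
def Stmt_LL : Prop := ∀ K : ℕ, 1 ≤ K → ∀ d : F2,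
  ¬ ((K : ℤ) ∣ 1 + ((ps w2 d).1 + (ps w2 d).2)) → ∀ c : F2, c ≠ 1 →
    ∀ n : ℕ, ∀ᶠ k in atTop, ¬ Reach w2 n ((theta K d ^ k) c)

/-! ### the free group `N` -/

/-- KEP (70 lines). (1) on generators.  (2) the image lies in `sub P`.  (3) `keep P (act c u) = act c (keep (P shifted) u)`, on
generators.  (4) every `u` lies in `sub` of a finite set of generators (snoc_ind).  (5) two homs
agreeing on the generators in `s` agree on `sub s` (`Subgroup.closure_le`/`MonoidHom.eqLocus`). -/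
def Stmt_KEP : Prop := ∀ Q : Type,
  (∀ (P : Q × F2 → Prop) (u : N Q), u ∈ sub P → keep P u = u) ∧
  (∀ (P : Q × F2 → Prop) (u : N Q), keep P u ∈ sub P) ∧
  (∀ (P : Q × F2 → Prop) (c : F2) (u : N Q),
    keep P (act Q c u) = act Q c (keep (fun p => P (p.1, c * p.2)) u)) ∧
  (∀ u : N Q, ∃ s : Finset (Q × F2), u ∈ sub (fun p => p ∈ s)) ∧
  (∀ (H : Type) [Group H] (f g : N Q →* H) (P : Q × F2 → Prop) (u : N Q), u ∈ sub P →
    (∀ p, P p → f (FreeGroup.of p) = g (FreeGroup.of p)) → f u = g u)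

/-- RLF (40 lines, uses RCH (1)?, RKA). Along a step `g → h = g * of j` inside the box,
`lft h = lft g * act (kap g) (lft (of j))`, which is `lft g` for `j = inr b` and
`lft g * of (q, kap g)` for `j = inl q`; the vertices `g`, `h` of the path are reached, so `kap g` is
reached (RKA).  For a step with `g = h * of j` the same with `g`, `h` exchanged (then
`kap g = kap h` in the case `inl q`). Induction on the path (`Relation.ReflTransGen.rec` from the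
head 1: each prefix is a path). -/
def Stmt_RLF : Prop := ∀ (Q : Type) (n : ℕ) (g : G Q), Reach (wG Q) n g →
  lft g ∈ sub (fun p : Q × F2 => Reach w2 n p.2)

/-- SUP (70 lines, uses KEP). `Su u` = the indices of `u`.  (1) if `u` is in `sub` of a finite set,
every `c` which is not an index of that set satisfies `keep (p.2 ≠ c) u = u`.  (2), (3)
multiplicativity of `keep`.  (4) `keep (p.2 ≠ c) (act d u) = act d (keep (d p.2 ≠ c) u)` (KEP 3).
(5) Let `u ∈ sub s`, `s` finite, minimal number of indices... or: if `Su u = ∅` then for a list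
`c_1, ..., c_m` of all the indices of `s`, `keep (p.2 ∉ {c_1..c_i}) u = u` by induction on `i`
(`keep P (keep P' u) = keep (P ∧ P') u` on generators), and for `i = m` the left side is `1`. -/
def Su {Q : Type} (u : N Q) : Set F2 := {c | keep (fun p => p.2 ≠ c) u ≠ u}

def Stmt_SUP : Prop := ∀ Q : Type,
  (∀ u : N Q, (Su u).Finite) ∧
  (∀ u v : N Q, Su (u * v) ⊆ Su u ∪ Su v) ∧
  (∀ u : N Q, Su u⁻¹ = Su u) ∧
  (∀ (d : F2) (u : N Q) (c : F2), c ∈ Su (act Q d u) ↔ d⁻¹ * c ∈ Su u) ∧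
  (∀ u : N Q, Su u = ∅ → u = 1)

/-- FXE (25 lines, uses SUP). If `u ≠ 1` take `c0 ∈ Su u`; `act c u = u` gives `c^k c0 ∈ Su u` for all
`k`, infinitely many elements since `c` has infinite order (free groups are torsion free). -/
def Stmt_FXE : Prop := ∀ (Q : Type) (c : F2) (u : N Q), c ≠ 1 → act Q c u = u → u = 1

/-! ### Theorem I -/

/-- MAI (110 lines, uses LL, ESC, RCH (1), RKA, RLF, KEP). `kap ((hat^k) g) = (psi^k)(kap g)` is reached for
all `k`, so `kap g = 1` by LL with `d = 1` (`K ≥ 2`).  `u = lft g`, `g = back u` (`eq_back_of_kap`),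
`lft ((hat^k) g) = (star^k) u` (`lft_hat`).  Let `u ∈ sub s`, `s` finite (KEP 4).  Choose `k` so
large that for all `(inl a, c) ∈ s` with `c ≠ 1`, `psi^k c` is not reached (LL), and for all
`(inr r, c) ∈ s`, `c_k` is not in the box, where `star^k (of (inr r, c)) = of (inr r, c_k)`,
`c_0 = c`, `c_{k+1} = psi(c_k) * xx`, `ps c_k = (TT K (1,0))^[k] (ps c)` (ESC and `nofix`, `K ∤ 1`).
Let `P0 p := ∃ a, p = (inl a, 1)` and `KR = keep (Reach w2 n p.2)`.  On the generators `p ∈ s`: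
`KR (star^k (of p)) = star^k (keep P0 (of p))` (for `p = (inl a, c)`:
`star^k (of p) = emb (psi^k c) (b^k a)`).  So
`star^k u = KR (star^k u) = star^k (keep P0 u)` (first equality RLF, KEP 1; second KEP 5) and
`u = keep P0 u ∈ sub P0`, hence `g = back u ∈ range iA` (`back (of (inl a,1)) = iA (of a)`). -/
def Stmt_MAI : Prop := ∀ K : ℕ, 2 ≤ K → ∀ (A R : Type) (b : MulAut (FreeGroup A))
  (g : G (A ⊕ R)) (n : ℕ), (∀ k : ℕ, Reach (wG (A ⊕ R)) n ((hat K b ^ k) g)) →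
    ∃ h, g = iA A R h

/-- WH (40 lines, uses POS, RBD). `P h = ps (γ⁻¹ (iA h))` satisfies `P (a h) = TT K 0 (P h)`:
`γ⁻¹ (iA (a h)) = γ⁻¹ (hat a (iA h)) = (γ⁻¹ hat(a) γ)(γ⁻¹ (iA h))` and `ps_Phi`.  POS gives `P = 0`;
RBD for `f = γ⁻¹ ∘ iA`. -/
def Stmt_WH : Prop := ∀ K : ℕ, 1 ≤ K → ∀ (A R : Type) [Fintype A] [DecidableEq A]
  (a b : MulAut (FreeGroup A)), (∀ i, (a (FreeGroup.of i)).norm ≤ K) →
  ∀ (γ : MulAut (G (A ⊕ R))) (g : G (A ⊕ R)), γ⁻¹ * hat K a * γ = Phi K b g →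
    (∀ h, ps (wG (A ⊕ R)) (γ⁻¹ (iA A R h)) = 0) ∧
    (∃ n, ∀ h, Reach (wG (A ⊕ R)) n (γ⁻¹ (iA A R h)))

/-- TH1 (70 lines, uses WH, MAI). `(hat b)^k (γ⁻¹ (iA h)) = γ⁻¹ (iA (a^k h))`, so by WH (with `g = 1`) and MAI
`γ⁻¹ (iA h) ∈ range iA`.  The relation for `γ⁻¹`: `(γ⁻¹)⁻¹ * hat b * γ⁻¹ = hat a`, so also
`γ (iA h) ∈ range iA`.  As `iA` is injective this defines `c`, `c'` with `γ (iA h) = iA (c h)`,
`γ⁻¹ (iA h) = iA (c' h)`, inverse to each other; `hat a γ = γ hat b` on `iA h` gives `a c = c b`. -/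
def Stmt_TH1 : Prop := ∀ K : ℕ, 2 ≤ K → ∀ (A R : Type) [Fintype A] [DecidableEq A]
  (a b : MulAut (FreeGroup A)), (∀ i, (a (FreeGroup.of i)).norm ≤ K) →
  (∀ i, (b (FreeGroup.of i)).norm ≤ K) →
  ∀ (γ : MulAut (G (A ⊕ R))), γ⁻¹ * hat K a * γ = hat K b →
    ∃ c : MulAut (FreeGroup A), c⁻¹ * a * c = b ∧ ∀ h, γ (iA A R h) = iA A R (c h)

/-! ### Theorem II -/

/-- COC (50 lines). Induction on `k`.  `k = 0`: `l = 1`.  One step: for `q = (l0, e)`, `l0 = lft q`,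
`e = kap q`, and any `w'`: `lft (Phi w') = l0 * D (lft w') * (act (kap (Phi w')) l0)⁻¹`
(`lft_mul`, `lft_inv`, `lft_hat`, `kap (Phi w') = e psi(kap w') e⁻¹`).  Apply it to `w' = Phi^k w`
and use `D (act c l) = act (e psi(c) e⁻¹) (D l)` (`star_act`): `l_{k+1} = l0 * D l_k`. -/
def Stmt_COC : Prop := ∀ (K : ℕ) (A R : Type) (b : MulAut (FreeGroup A)) (q : G (A ⊕ R)) (k : ℕ),
  ∃ l : N (A ⊕ R), ∀ w : G (A ⊕ R),
    lft ((Phi K b q ^ k) w) =
      l * (DD K b (kap (A ⊕ R) q) ^ k) (lft w) *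
        (act (A ⊕ R) (kap (A ⊕ R) ((Phi K b q ^ k) w)) l)⁻¹

/-- CNJ (90 lines, uses ESC, RCH (1), RLF, KEP, COC). `R` empty.  Let `u = lft w ∈ sub s`, `s` finite.
`KB = keep (Bx n (ps p.2))`.  For large `k` and all `(inl a, c) ∈ s`, the position
`ps (tau^k c) = (TT K (ps q))^[k] (ps c)` (`ps_tau_iter`, `ps_kap`) is outside the box `n` (ESC,
`nofix`), so `KB (D^k (of (inl a, c))) = KB (emb (tau^k c) (b^k a)) = 1`, and `KB (D^k u) = 1`.
If `Phi^k w` is reached then `lft (Phi^k w)` is in `sub (Bx n (ps p.2))` (RLF, RCH (1)), so `KB` fixes it.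
`c_k = kap (Phi^k w)` has position `0`, so `KB (act c_k l) = act c_k (KB l)` (KEP 3, same
predicate).  Apply `KB` to COC: `lft (Phi^k w) = z * (act c_k z)⁻¹`, `z = KB l`.  Then
`back_lft`, `back_act`. -/
def Stmt_CNJ : Prop := ∀ K : ℕ, 1 ≤ K → ∀ (A R : Type) [IsEmpty R] (b : MulAut (FreeGroup A))
  (q : G (A ⊕ R)), ¬ ((K : ℤ) ∣ (ps (wG (A ⊕ R)) q).1 + (ps (wG (A ⊕ R)) q).2) →
  ∀ w : G (A ⊕ R), ps (wG (A ⊕ R)) w = 0 → ∀ n : ℕ, ∀ᶠ k in atTop,
    Reach (wG (A ⊕ R)) n ((Phi K b q ^ k) w) →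
      ∃ z : N (A ⊕ R), (Phi K b q ^ k) w =
        back (A ⊕ R) z * i2 (A ⊕ R) (kap (A ⊕ R) ((Phi K b q ^ k) w)) *
          (back (A ⊕ R) z)⁻¹

/-- ABL (20 lines). The hom `f` restricted to `F2` is determined by the position: for
`f : F2 →* M` with `M` commutative, `f c = f x ^ (ps c).1 * f y ^ (ps c).2` (snoc_ind). -/
def Stmt_ABL : Prop := ∀ (M : Type) [CommGroup M] (f : F2 →* M) (c : F2), ps w2 c = 0 → f c = 1

/-- KW (80 lines, uses WH, CNJ, ABL, LL, RKA). `Phi = conj g * hat b = γ⁻¹ hat(a) γ`,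
`w_h = γ⁻¹ (iA h)`, `Phi^k w_h = γ⁻¹ (iA (a^k h))` is reached (WH).
First `K ∤ 1 + ps g`: otherwise `K ∤ ps g` (`K ≥ 2`); take `i : A`, `w = w_(of i)`; CNJ
gives `k`, `z` with `Phi^k w = back z * i2 e * (back z)⁻¹`, `ps e = 0`.  Let
`lam : G →* Multiplicative ℤ` be the exponent sum of the letter `inl (inl i)` and
`mu = lam ∘ γ ∘ (Phi^k)⁻¹`.  Then `mu (Phi^k w) = lam (of (inl (inl i))) ≠ 1` and
`mu (back z * i2 e * (back z)⁻¹) = mu (i2 e) = 1` (ABL).  Contradiction.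
Now LL with `d = kap g` for `c = kap w_h` (`kap_Phi_pow`, RKA, `ps_kap`) gives `kap w_h = 1`. -/
def Stmt_KW : Prop := ∀ K : ℕ, 2 ≤ K → ∀ (A R : Type) [Fintype A] [DecidableEq A] [Nonempty A]
  [IsEmpty R] (a b : MulAut (FreeGroup A)), (∀ i, (a (FreeGroup.of i)).norm ≤ K) →
  ∀ (γ : MulAut (G (A ⊕ R))) (g : G (A ⊕ R)), γ⁻¹ * hat K a * γ = Phi K b g →
    ∀ h, kap (A ⊕ R) (γ⁻¹ (iA A R h)) = 1

/-- FIX (100 lines, uses LL, RCH (4), RLF, KEP, COC). `R` empty, `tau = tau K (kap q)`, `u = lft w ≠ 1`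
(`eq_back_of_kap`).  For every `k`: `U = lft (Phi^k w) = l * D^k u * l⁻¹` (COC, `kap (Phi^k w) = 1`
by `kap_Phi_pow`) is fixed by `KR = keep (Reach w2 n p.2)` (RLF, KEP 1).  On generators
`KR (D^k (of (inl a,c))) = D^k (keep (Reach w2 n (tau^k p.2)) (of (inl a, c)))` (`DD_pow_emb`), so
`KR (D^k u) = D^k (u_k)`, `u_k = keep (Reach w2 n (tau^k p.2)) u`, and `D^k u` is conjugate to
`D^k (u_k)`, so `u` is conjugate to `u_k` (`D^k` is an automorphism).  Apply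
`keep (Reach w2 n (tau^(k+1) p.2))` to this: `u ~ u_(k+1) ~ keep (both) u`.  Suppose `tau` has no
fixed point.  For each `c`: `(tau^k c)⁻¹ * tau^(k+1) c = psi^k (c⁻¹ * tau c)`, so if both `tau^k c`
and `tau^(k+1) c` are reached in the box `n`, `psi^k (c⁻¹ tau c)` is reached in the box `2n`
(RCH 4), impossible for large `k` by LL (`d = 1`).  So for large `k`, `keep (both) u = 1`
(`u ∈ sub s`, `s` finite), `u` is conjugate to `1`, contradiction. -/
def Stmt_FIX : Prop := ∀ K : ℕ, 2 ≤ K → ∀ (A R : Type) [IsEmpty R] (b : MulAut (FreeGroup A))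
  (q w : G (A ⊕ R)) (n : ℕ), w ≠ 1 → kap (A ⊕ R) w = 1 →
  (∀ k : ℕ, Reach (wG (A ⊕ R)) n ((Phi K b q ^ k) w)) →
    ∃ c : F2, tau K (kap (A ⊕ R) q) c = c

/-- LEN (50 lines). `lt b e` = the letter `b` or its inverse.  In the reduced word of `c` at most one
letter (the first one) can be cancelled by left multiplication.  (`FreeGroup.toWord_mul`,
`FreeGroup.reduce.cons`, or write `c` as `mk L` with `L` reduced and look at the head of `L`.) -/
def lt (b e : Bool) : F2 := if e then FreeGroup.of b else (FreeGroup.of b)⁻¹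

def Stmt_LEN : Prop := ∀ (b e : Bool) (c : F2),
  ((lt b e * c).norm + 1 = c.norm ∨ (lt b e * c).norm = c.norm + 1) ∧
  (∀ b' e' : Bool, (b', e') ≠ (b, e) → (lt b e * c).norm < c.norm →
    (lt b' e' * c).norm = c.norm + 1)

/-- RIG (120 lines, uses SUP, LEN). Put `nu d = lft (s d)`, so `s d = back (nu d) * i2 d`.
`X = act x⁻¹ (nu x)`, `Y = act y⁻¹ (nu y)`.  `s x s y = s eps s y s x = i2 eps s y s x`, left parts:
`nu x * act x (nu y) = act eps (nu y * act y (nu x))`, i.e. (`eps y x = x y`) after `act (x y)⁻¹`: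
`act y⁻¹ X * Y = act x⁻¹ Y * X`.  (*)
Suppose `Su X ∪ Su Y ≠ ∅`, `L` the maximal norm of its elements.
(A) `c ∈ Su X`, norm `L` implies `norm (y⁻¹ c) < norm c`: otherwise `c' = y⁻¹ c` has norm `L+1` and lies in
`Su (act y⁻¹ X)`, `act y⁻¹ X = act x⁻¹ Y * X * Y⁻¹`, so `c' ∈ Su (act x⁻¹ Y)`, `x c' ∈ Su Y`; but
`norm (y c') < norm c'` so `norm (x c') = L+2` (LEN).
(B) `c ∈ Su Y`, norm `L` implies `norm (x⁻¹ c) < norm c` (same, exchanging the roles).
(C) `c ∈ Su X`, norm `L`: `X = (act x⁻¹ Y)⁻¹ * act y⁻¹ X * Y`; `c ∈ Su Y` contradicts (A), (B) and LEN;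
`c ∈ Su (act y⁻¹ X)` gives `y c ∈ Su X` of norm `L+1`; `c ∈ Su (act x⁻¹ Y)` gives `x c ∈ Su Y` of
norm `L+1`.  (D) the same for `c ∈ Su Y`: `Y = (act y⁻¹ X)⁻¹ * act x⁻¹ Y * X`.
So `Su X = Su Y = ∅`, `X = Y = 1`, `nu x = nu y = 1`, `s x = i2 x`, `s y = i2 y`. -/
def Stmt_RIG : Prop := ∀ (Q : Type) (s : F2 →* G Q), (∀ d, kap Q (s d) = d) →
  s eps = i2 Q eps → ∀ d, s d = i2 Q d

/-- SIG (110 lines, uses CNJ, RCH (5), RIG, FXE). `kap ∘ γ = ρ ∘ kap` with `ρ = kap γ i2` (both sides agree on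
`iA h` and `i2 c`; `R` empty; `gAR_ext`), `kap ∘ γ⁻¹ = ρ' ∘ kap`, `ρ' = kap γ⁻¹ i2`; so `ρ`, `ρ'`
are inverse automorphisms of `F2`.  `psi ρ = ρ psi`: apply `kap` to
`hat a (γ (i2 c)) = γ (g * hat b (i2 c) * g⁻¹)` (`kap g = 1`).
`s d = γ⁻¹ (i2 (ρ d))` satisfies `kap (s d) = d` and `g * hat b (s d) * g⁻¹ = s (psi d)`.
`q = (s x^(K+1))⁻¹ * g`; `(conj q * hat b) (s eps) = (s eps)⁻¹` by `psi_eps`; so
`(conj q * hat b)^(2k) (s eps) = s eps`.  `ps q = -(K+1, 0)`, `K ∤ K+1` as `K ≥ 2`; CNJ (with `n` from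
RCH (5)) gives `z` with `s eps = back z * i2 eps * (back z)⁻¹`.  RIG for
`s' d = (back z)⁻¹ * s d * back z` gives `s d = back z * i2 d * (back z)⁻¹` for all `d`.
With `v = back z`: `g * hat b (v) * i2 (psi d) * hat b (v)⁻¹ * g⁻¹ = v * i2 (psi d) * v⁻¹`, so
`m = v⁻¹ * g * hat b v` commutes with `i2 x` (`psi y = x`), `kap m = 1`, so
`act x (lft m) = lft m`, `m = 1` by FXE. -/
def Stmt_SIG : Prop := ∀ K : ℕ, 2 ≤ K → ∀ (A R : Type) [IsEmpty R]
  (a b : MulAut (FreeGroup A)) (γ : MulAut (G (A ⊕ R))) (g : G (A ⊕ R)),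
  γ⁻¹ * hat K a * γ = Phi K b g → kap (A ⊕ R) g = 1 →
  (∀ h, kap (A ⊕ R) (γ (iA A R h)) = 1) → (∀ h, kap (A ⊕ R) (γ⁻¹ (iA A R h)) = 1) →
    ∃ (z : N (A ⊕ R)) (ρ : MulAut F2), g = back (A ⊕ R) z * (hat K b (back (A ⊕ R) z))⁻¹ ∧
      ∀ d, γ⁻¹ (i2 (A ⊕ R) (ρ d)) = back (A ⊕ R) z * i2 (A ⊕ R) d * (back (A ⊕ R) z)⁻¹

/-- TH2 (90 lines, uses KW, WH, FIX, SIG, TH1). KW for `(a, b, γ, g)` and for
`(b, a, γ⁻¹, γ(g)⁻¹)` (`γ * hat b * γ⁻¹ = conj (γ g)⁻¹ * hat a`).  FIX for `q = g`,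
`w = γ⁻¹ (iA (of i))` (WH: `Phi^k w = γ⁻¹ (iA (a^k (of i)))` is reached) gives `c0` with
`kap g * psi c0 = c0`.  `γ1 = γ * conj (i2 c0)` satisfies
`γ1⁻¹ * hat a * γ1 = conj g1 * hat b`, `g1 = (i2 c0)⁻¹ * g * hat b (i2 c0)`, `kap g1 = 1`.
KW again for `γ1` and `γ1⁻¹`; SIG gives `z`, `ρ`; `v = back z`; `γ3 = γ1 * conj v` satisfies
`γ3⁻¹ * hat a * γ3 = hat b` and `γ3 (i2 d) = i2 (ρ d)`.  TH1 for `γ3` gives `c`.
`γ = γ3 * conj (i2 c0 * v)⁻¹`, so `u = γ3 ((i2 c0 * v)⁻¹)`. -/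
def Stmt_TH2 : Prop := ∀ K : ℕ, 2 ≤ K → ∀ (A R : Type) [Fintype A] [DecidableEq A] [Nonempty A]
  [IsEmpty R] (a b : MulAut (FreeGroup A)), (∀ i, (a (FreeGroup.of i)).norm ≤ K) →
  (∀ i, (b (FreeGroup.of i)).norm ≤ K) →
  ∀ (γ : MulAut (G (A ⊕ R))) (g : G (A ⊕ R)), γ⁻¹ * hat K a * γ = Phi K b g →
    ∃ (u : G (A ⊕ R)) (c : MulAut (FreeGroup A)) (ρ : MulAut F2), c⁻¹ * a * c = b ∧
      (∀ h, γ (iA A R h) = u * iA A R (c h) * u⁻¹) ∧
      (∀ d, γ (i2 (A ⊕ R) d) = u * i2 (A ⊕ R) (ρ d) * u⁻¹)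

/-! ### norms and transport to `Fin n` -/

/-- NRM (80 lines). If `u = 1`: `iA` preserves the norm.  Otherwise look at the last letter of
`toWord u`.  If it is `inl _`, the word `toWord u ++ toWord (i2 v) ++ invRev (toWord u)`, `v = ρ x ≠ 1`,
is reduced, so `B ≥ 2 |u| + 1` and `norm (c (of i)) = norm (u⁻¹ * (u * iA (c (of i)) * u⁻¹) * u) ≤ 2 |u| + B ≤ 2 B`.
If it is `inr _` the word `toWord u ++ toWord (iA (c (of i))) ++ invRev (toWord u)` is reduced and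
`norm (c (of i)) ≤ B`.  (`FreeGroup.IsReduced` / `List.isChain_append`: junction letters are of
different type.) -/
def Stmt_NRM : Prop := ∀ (A R : Type) [DecidableEq A] [DecidableEq R] (u : G (A ⊕ R))
  (c : MulAut (FreeGroup A)) (ρ : MulAut F2) (B : ℕ),
  (∀ i, (u * iA A R (c (FreeGroup.of i)) * u⁻¹).norm ≤ B) →
  (∀ j, (u * i2 (A ⊕ R) (ρ (FreeGroup.of j)) * u⁻¹).norm ≤ B) →
    ∀ i, (c (FreeGroup.of i)).norm ≤ 2 * B

/-- The norm of an automorphism. -/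
def nrm {J : Type} [Fintype J] [DecidableEq J] (a : MulAut (FreeGroup J)) : ℕ :=
  Finset.univ.sup fun j => (FreeGroup.toWord (a (FreeGroup.of j))).length

/-- EXA (60 lines). `hat K a`: a letter of `A` goes to a word of length at most `K`, a letter of `R`
to length 3, `y` to length 1 and `x` to `x^(K+1) y x⁻¹`, reduced of length `K+3`. -/
def Stmt_EXA : Prop := ∀ (K : ℕ) (A R : Type) [Fintype A] [DecidableEq A] [Fintype R]
  [DecidableEq R] (a : MulAut (FreeGroup A)), nrm a ≤ K → nrm (hat (R := R) K a) = K + 3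

/-- TRA (50 lines). `Tr e a = (map e) a (map e⁻¹)`: multiplicative, injective, norm preserving;
surjective; compatible with `conj`. Use `FreeGroup.freeGroupCongr`, `MulAut.congr`. -/
def Stmt_TRA : Prop := ∀ (J J' : Type) [Fintype J] [DecidableEq J] [Fintype J'] [DecidableEq J']
  (e : J ≃ J'), (∀ a : MulAut (FreeGroup J),
      nrm (MulAut.congr (FreeGroup.freeGroupCongr e) a) = nrm a) ∧
    (∀ g : FreeGroup J, MulAut.congr (FreeGroup.freeGroupCongr e) (MulAut.conj g) =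
      MulAut.conj (FreeGroup.freeGroupCongr e g))

end Pool.AutRed
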